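import Pool.Agent.Lib_helper45.REll.Defs2

/-!
# Block ADJ: adjointness of the Hall product and of the restriction (MP_f95f3f_co)
-/

open scoped BigOperators ComplexConjugate
open Polynomial

namespace Pool.Agent.REll
variable {F : Type} [Field F]

namespace ADJ

variable {A B V : Type} [AddCommGroup A] [Module F A] [AddCommGroup B] [Module F B]
  [AddCommGroup V] [Module F V]

theorem tri_inj {α α' : A ≃ₗ[F] A} {β β' : B ≃ₗ[F] B} {u u' : B →ₗ[F] A}
    (h : tri α β u = tri α' β' u') : α = α' ∧ β = β' ∧ u = u' := by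
  refine ⟨?_, ?_, ?_⟩
  · ext a
    have := congrArg (fun e => (e (0, a)).2) h
    simpa using this
  · ext b
    have := congrArg (fun e => (e (b, 0)).1) h
    simpa using this
  · ext b
    have := congrArg (fun e => (e (b, 0)).2) h
    simpa using this

theorem exists_tri [Finite A] [Finite B] (p : (B × A) ≃ₗ[F] (B × A))
    (hp : ∀ a, (p (0, a)).1 = 0) :
    ∃ (α : A ≃ₗ[F] A) (β : B ≃ₗ[F] B) (u : B →ₗ[F] A), p = tri α β u := by
  let α₀ : A →ₗ[F] A := LinearMap.snd F B A ∘ₗ (p : (B × A) →ₗ[F] (B × A)) ∘ₗ LinearMap.inr F B A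
  let β₀ : B →ₗ[F] B := LinearMap.fst F B A ∘ₗ (p : (B × A) →ₗ[F] (B × A)) ∘ₗ LinearMap.inl F B A
  have hα : Function.Injective α₀ := by
    intro a a' h
    have h1 : p (0, a) = p (0, a') := Prod.ext ((hp a).trans (hp a').symm) h
    have := p.injective h1
    exact (Prod.ext_iff.1 this).2
  have hβ : Function.Surjective β₀ := by
    intro b
    obtain ⟨x, hx⟩ := p.surjective (b, 0)
    refine ⟨x.1, ?_⟩
    have h1 : p x = p (x.1, 0) + p (0, x.2) := by rw [← map_add]; simp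
    have h2 := congrArg Prod.fst h1
    rw [hx, Prod.fst_add, hp, add_zero] at h2
    exact h2.symm
  refine ⟨LinearEquiv.ofBijective α₀ ⟨hα, Finite.surjective_of_injective hα⟩,
    LinearEquiv.ofBijective β₀ ⟨Finite.injective_iff_surjective.2 hβ, hβ⟩,
    LinearMap.snd F B A ∘ₗ (p : (B × A) →ₗ[F] (B × A)) ∘ₗ LinearMap.inl F B A, ?_⟩
  ext x
  · have h1 : p x = p (x.1, 0) + p (0, x.2) := by rw [← map_add]; simp
    have h2 := congrArg Prod.fst h1
    rw [Prod.fst_add, hp, add_zero] at h2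
    rw [h2]; rfl
  · have h1 : p x = p (x.1, 0) + p (0, x.2) := by rw [← map_add]; simp
    have h2 := congrArg Prod.snd h1
    rw [Prod.snd_add] at h2
    rw [h2, tri_apply, add_comm]; rfl

/-- an isomorphism `V ≃ B × A` carrying `W` to `0 × A` -/
theorem exists_adapted [Finite A] [Finite B] [Finite V] (W : Submodule F V)
    (hV : Module.finrank F V = Module.finrank F A + Module.finrank F B)
    (hW : Module.finrank F W = Module.finrank F A) :
    ∃ e : V ≃ₗ[F] (B × A), ∀ v, (e v).1 = 0 ↔ v ∈ W := by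
  haveI : Module.Finite F V := Module.Finite.of_finite
  haveI : Module.Finite F A := Module.Finite.of_finite
  haveI : Module.Finite F B := Module.Finite.of_finite
  obtain ⟨C, hC⟩ := Submodule.exists_isCompl W
  have hfC : Module.finrank F C = Module.finrank F B := by
    have := Submodule.finrank_add_eq_of_isCompl hC
    omega
  let a : W ≃ₗ[F] A := LinearEquiv.ofFinrankEq _ _ hW
  let b : C ≃ₗ[F] B := LinearEquiv.ofFinrankEq _ _ hfC
  let E := (Submodule.prodEquivOfIsCompl C W hC.symm).symm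
  refine ⟨E.trans (b.prodCongr a), fun v => ?_⟩
  have h1 : ((E.trans (b.prodCongr a)) v).1 = b (E v).1 := rfl
  rw [h1]
  rw [LinearEquiv.map_eq_zero_iff]
  exact Submodule.prodEquivOfIsCompl_symm_apply_fst_eq_zero C W hC.symm

/-- relation between a flagged automorphism `(g, W)` of `V` and `(e, (α, β, u))` -/
def Rel (x : Σ g : V ≃ₗ[F] V, Stab g)
    (y : (V ≃ₗ[F] (B × A)) × (A ≃ₗ[F] A) × (B ≃ₗ[F] B) × (B →ₗ[F] A)) : Prop :=
  (∀ v, (y.1 v).1 = 0 ↔ v ∈ x.2.1) ∧ (∀ v, y.1 (x.1 v) = tri y.2.1 y.2.2.1 y.2.2.2 (y.1 v))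

theorem rel_value [Finite A] [Finite B] [Finite V] (f h k : CF F)
    (x : Σ g : V ≃ₗ[F] V, Stab g)
    (y : (V ≃ₗ[F] (B × A)) × (A ≃ₗ[F] A) × (B ≃ₗ[F] B) × (B →ₗ[F] A)) (hxy : Rel x y) :
    f x.2.1 (sub x.1 x.2) * h (V ⧸ x.2.1) (quo x.1 x.2) * conj (k V x.1) =
      f A y.2.1 * h B y.2.2.1 * conj (k (B × A) (tri y.2.1 y.2.2.1 y.2.2.2)) := by
  obtain ⟨g, W⟩ := x
  obtain ⟨e, α, β, u⟩ := y
  obtain ⟨h1, h2⟩ := hxy
  simp only at h1 h2 ⊢
  have hk : k V g = k (B × A) (tri α β u) := k.inv' _ _ e g _ h2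
  have hf : f W.1 (sub g W) = f A α := by
    let φ : W.1 →ₗ[F] A := LinearMap.snd F B A ∘ₗ (e : V →ₗ[F] (B × A)) ∘ₗ W.1.subtype
    have hinj : Function.Injective φ := by
      intro w w' hw
      apply Subtype.ext
      apply e.injective
      exact Prod.ext (((h1 _).2 w.2).trans ((h1 _).2 w'.2).symm) hw
    have hsurj : Function.Surjective φ := by
      intro a
      refine ⟨⟨e.symm (0, a), (h1 _).1 (by simp)⟩, ?_⟩
      show (e (e.symm (0, a))).2 = a
      simp
    apply f.inv' _ _ (LinearEquiv.ofBijective φ ⟨hinj, hsurj⟩)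
    intro v
    show (e (g v)).2 = α ((e v).2)
    rw [h2, tri_apply, (h1 _).2 v.2]
    simp
  have hh : h (V ⧸ W.1) (quo g W) = h B β := by
    let ψ : V →ₗ[F] B := LinearMap.fst F B A ∘ₗ (e : V →ₗ[F] (B × A))
    have hker : W.1 = LinearMap.ker ψ := by
      ext v
      exact (h1 v).symm
    have hs : Function.Surjective ψ := by
      intro b
      refine ⟨e.symm (b, 0), ?_⟩
      show (e (e.symm (b, 0))).1 = b
      simp
    apply h.inv' _ _ ((Submodule.quotEquivOfEq _ _ hker).trans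
      (LinearMap.quotKerEquivOfSurjective ψ hs))
    intro v
    obtain ⟨v, rfl⟩ := Submodule.Quotient.mk_surjective _ v
    show (e (g v)).1 = β ((e v).1)
    rw [h2, tri_apply]
  rw [hf, hh, hk]

theorem rel_unique {x x' : Σ g : V ≃ₗ[F] V, Stab g}
    {y : (V ≃ₗ[F] (B × A)) × (A ≃ₗ[F] A) × (B ≃ₗ[F] B) × (B →ₗ[F] A)}
    (h : Rel x y) (h' : Rel x' y) : x = x' := by
  obtain ⟨g, W⟩ := x
  obtain ⟨g', W'⟩ := x'
  have hg : g = g' := by
    ext v
    apply y.1.injective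
    exact (h.2 v).trans (h'.2 v).symm
  subst hg
  congr 1
  apply Subtype.ext
  ext v
  exact (h.1 v).symm.trans (h'.1 v)

theorem rel_exists
    (y : (V ≃ₗ[F] (B × A)) × (A ≃ₗ[F] A) × (B ≃ₗ[F] B) × (B →ₗ[F] A)) :
    ∃ x : Σ g : V ≃ₗ[F] V, Stab g, Rel x y := by
  obtain ⟨e, α, β, u⟩ := y
  let g : V ≃ₗ[F] V := (e.trans (tri α β u)).trans e.symm
  have hg : ∀ v, e (g v) = tri α β u (e v) := by intro v; simp [g]
  let W : Submodule F V := LinearMap.ker (LinearMap.fst F B A ∘ₗ (e : V →ₗ[F] (B × A)))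
  have hWm : ∀ v, v ∈ W ↔ (e v).1 = 0 := fun v => Iff.rfl
  have hW : W.map (g : V →ₗ[F] V) = W := by
    ext v
    constructor
    · rintro ⟨w, hw, rfl⟩
      have hw' : (e w).1 = 0 := hw
      rw [hWm]
      show (e (g w)).1 = 0
      rw [hg, tri_apply, hw']; simp
    · intro hv
      refine ⟨g.symm v, ?_, by simp⟩
      show (e (g.symm v)).1 = 0
      have h1 := hg (g.symm v)
      rw [LinearEquiv.apply_symm_apply] at h1
      have h2 := congrArg Prod.fst h1
      rw [tri_apply, (hWm v).1 hv] at h2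
      exact (LinearEquiv.map_eq_zero_iff β).1 h2.symm
  exact ⟨⟨g, ⟨W, hW⟩⟩, fun v => (hWm v).symm, hg⟩

theorem rel_card [Finite A] [Finite B] [Finite V] (x : Σ g : V ≃ₗ[F] V, Stab g)
    (hV : Module.finrank F V = Module.finrank F A + Module.finrank F B)
    (hW : Module.finrank F x.2.1 = Module.finrank F A) :
    Nat.card {y : (V ≃ₗ[F] (B × A)) × (A ≃ₗ[F] A) × (B ≃ₗ[F] B) × (B →ₗ[F] A) // Rel x y} =
      Nat.card ((A ≃ₗ[F] A) × (B ≃ₗ[F] B) × (B →ₗ[F] A)) := by
  obtain ⟨e₀, he₀⟩ := exists_adapted (A := A) (B := B) x.2.1 hV hW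
  have key : ∀ t : (A ≃ₗ[F] A) × (B ≃ₗ[F] B) × (B →ₗ[F] A),
      ∃ t' : (A ≃ₗ[F] A) × (B ≃ₗ[F] B) × (B →ₗ[F] A),
        Rel x (e₀.trans (tri t.1 t.2.1 t.2.2), t') := by
    intro t
    have h1 : ∀ v, ((e₀.trans (tri t.1 t.2.1 t.2.2)) v).1 = 0 ↔ v ∈ x.2.1 := by
      intro v
      rw [← he₀ v]
      simp
    set e := e₀.trans (tri t.1 t.2.1 t.2.2) with he
    have hp : ∀ a, (((e.symm.trans x.1).trans e) (0, a)).1 = 0 := by
      intro a
      have h2 : e.symm (0, a) ∈ x.2.1 := (h1 _).1 (by simp)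
      have h3 : x.1 (e.symm (0, a)) ∈ x.2.1 := by
        have : x.1 (e.symm (0, a)) ∈ x.2.1.map (x.1 : V →ₗ[F] V) := ⟨_, h2, rfl⟩
        rwa [x.2.2] at this
      exact (h1 _).2 h3
    obtain ⟨α, β, u, h4⟩ := exists_tri _ hp
    refine ⟨(α, β, u), h1, fun v => ?_⟩
    show e (x.1 v) = tri α β u (e v)
    rw [← h4]
    simp
  choose T hT using key
  symm
  apply Nat.card_congr
  refine Equiv.ofBijective (fun t => ⟨(e₀.trans (tri t.1 t.2.1 t.2.2), T t), hT t⟩) ⟨?_, ?_⟩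
  · intro t t' h
    have h1 : e₀.trans (tri t.1 t.2.1 t.2.2) = e₀.trans (tri t'.1 t'.2.1 t'.2.2) :=
      congrArg (fun z => z.1.1) h
    have h2 : tri t.1 t.2.1 t.2.2 = tri t'.1 t'.2.1 t'.2.2 := by
      ext v
      · have := congrArg (fun z : V ≃ₗ[F] (B × A) => z (e₀.symm v)) h1
        simpa using congrArg Prod.fst this
      · have := congrArg (fun z : V ≃ₗ[F] (B × A) => z (e₀.symm v)) h1
        simpa using congrArg Prod.snd this
    obtain ⟨h3, h4, h5⟩ := tri_inj h2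
    exact Prod.ext h3 (Prod.ext h4 h5)
  · rintro ⟨⟨e, s⟩, h1, h2⟩
    have hp : ∀ a, ((e₀.symm.trans e) (0, a)).1 = 0 := by
      intro a
      have h2 : e₀.symm (0, a) ∈ x.2.1 := (he₀ _).1 (by simp)
      exact (h1 _).2 h2
    obtain ⟨α, β, u, h4⟩ := exists_tri _ hp
    have h5 : e₀.trans (tri α β u) = e := by
      rw [← h4]
      ext v
      · simp
      · simp
    refine ⟨(α, β, u), ?_⟩
    apply Subtype.ext
    apply Prod.ext h5
    have h6 := (hT (α, β, u)).2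
    have h7 : tri (T (α, β, u)).1 (T (α, β, u)).2.1 (T (α, β, u)).2.2 =
        tri s.1 s.2.1 s.2.2 := by
      ext v
      · have h8 := h6 (e.symm v)
        have h9 := h2 (e.symm v)
        simp only [h5, LinearEquiv.apply_symm_apply] at h8 h9
        rw [← h8, ← h9]
      · have h8 := h6 (e.symm v)
        have h9 := h2 (e.symm v)
        simp only [h5, LinearEquiv.apply_symm_apply] at h8 h9
        rw [← h8, ← h9]
    obtain ⟨h8, h9, h10⟩ := tri_inj h7
    exact Prod.ext h8 (Prod.ext h9 h10)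

theorem rel_finrank [Finite A] [Finite B] [Finite V] {x : Σ g : V ≃ₗ[F] V, Stab g}
    {y : (V ≃ₗ[F] (B × A)) × (A ≃ₗ[F] A) × (B ≃ₗ[F] B) × (B →ₗ[F] A)} (hxy : Rel x y) :
    Module.finrank F x.2.1 = Module.finrank F A := by
  obtain ⟨g, W⟩ := x
  obtain ⟨e, α, β, u⟩ := y
  obtain ⟨h1, h2⟩ := hxy
  simp only at h1 h2 ⊢
  let φ : W.1 →ₗ[F] A := LinearMap.snd F B A ∘ₗ (e : V →ₗ[F] (B × A)) ∘ₗ W.1.subtype
  have hinj : Function.Injective φ := by
    intro w w' hw
    apply Subtype.ext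
    apply e.injective
    exact Prod.ext (((h1 _).2 w.2).trans ((h1 _).2 w'.2).symm) hw
  have hsurj : Function.Surjective φ := by
    intro a
    refine ⟨⟨e.symm (0, a), (h1 _).1 (by simp)⟩, ?_⟩
    show (e (e.symm (0, a))).2 = a
    simp
  exact (LinearEquiv.ofBijective φ ⟨hinj, hsurj⟩).finrank_eq

instance finite_sigma_stab [Finite V] : Finite (Σ g : V ≃ₗ[F] V, Stab g) :=
  inferInstance

open Classical in
theorem adj_count [Finite A] [Finite B] [Finite V] (f h k : CF F)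
    (hV : Module.finrank F V = Module.finrank F A + Module.finrank F B) :
    (∑ᶠ x : (Σ g : V ≃ₗ[F] V, Stab g), if Module.finrank F x.2.1 = Module.finrank F A then
      f x.2.1 (sub x.1 x.2) * h (V ⧸ x.2.1) (quo x.1 x.2) * conj (k V x.1) else 0) *
        (Nat.card ((A ≃ₗ[F] A) × (B ≃ₗ[F] B) × (B →ₗ[F] A)) : ℂ) =
      (Nat.card (V ≃ₗ[F] (B × A)) : ℂ) *
        ∑ᶠ t : (A ≃ₗ[F] A) × (B ≃ₗ[F] B) × (B →ₗ[F] A),
          f A t.1 * h B t.2.1 * conj (k (B × A) (tri t.1 t.2.1 t.2.2)) := by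
  have i1 := Fintype.ofFinite (Σ g : V ≃ₗ[F] V, Stab g)
  have i2 := Fintype.ofFinite (A ≃ₗ[F] A)
  have i3 := Fintype.ofFinite (B ≃ₗ[F] B)
  have i4 := Fintype.ofFinite (B →ₗ[F] A)
  have i5 := Fintype.ofFinite (V ≃ₗ[F] (B × A))
  rw [finsum_eq_sum_of_fintype, finsum_eq_sum_of_fintype, Finset.sum_mul]
  have h1 : ∀ x : (Σ g : V ≃ₗ[F] V, Stab g),
      (if Module.finrank F x.2.1 = Module.finrank F A then
      f x.2.1 (sub x.1 x.2) * h (V ⧸ x.2.1) (quo x.1 x.2) * conj (k V x.1) else 0) *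
        (Nat.card ((A ≃ₗ[F] A) × (B ≃ₗ[F] B) × (B →ₗ[F] A)) : ℂ) =
      ∑ y : (V ≃ₗ[F] (B × A)) × (A ≃ₗ[F] A) × (B ≃ₗ[F] B) × (B →ₗ[F] A),
        if Rel x y then f A y.2.1 * h B y.2.2.1 *
          conj (k (B × A) (tri y.2.1 y.2.2.1 y.2.2.2)) else 0 := by
    intro x
    by_cases hx : Module.finrank F x.2.1 = Module.finrank F A
    · rw [if_pos hx, ← rel_card x hV hx]
      rw [← Finset.sum_filter, Finset.sum_congr rfl (g := fun _ =>
        f x.2.1 (sub x.1 x.2) * h (V ⧸ x.2.1) (quo x.1 x.2) * conj (k V x.1))]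
      · rw [Finset.sum_const, nsmul_eq_mul, mul_comm, Nat.card_eq_fintype_card,
          Fintype.card_subtype]
      · intro y hy
        exact (rel_value f h k x y (Finset.mem_filter.1 hy).2).symm
    · rw [if_neg hx, zero_mul]
      symm
      apply Finset.sum_eq_zero
      intro y _
      rw [if_neg]
      intro hxy
      exact hx (rel_finrank hxy)
  rw [Finset.sum_congr rfl (fun x _ => h1 x), Finset.sum_comm]
  have h2 : ∀ y : (V ≃ₗ[F] (B × A)) × (A ≃ₗ[F] A) × (B ≃ₗ[F] B) × (B →ₗ[F] A),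
      (∑ x : (Σ g : V ≃ₗ[F] V, Stab g), if Rel x y then f A y.2.1 * h B y.2.2.1 *
          conj (k (B × A) (tri y.2.1 y.2.2.1 y.2.2.2)) else 0) =
        f A y.2.1 * h B y.2.2.1 * conj (k (B × A) (tri y.2.1 y.2.2.1 y.2.2.2)) := by
    intro y
    obtain ⟨x, hx⟩ := rel_exists y
    rw [Finset.sum_eq_single x]
    · rw [if_pos hx]
    · intro x' _ hne
      rw [if_neg]
      intro hx'
      exact hne (rel_unique hx' hx)
    · intro h0
      exact absurd (Finset.mem_univ _) h0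
  rw [Finset.sum_congr rfl (fun y _ => h2 y), Fintype.sum_prod_type]
  show ∑ _x : (V ≃ₗ[F] (B × A)), ∑ t : (A ≃ₗ[F] A) × (B ≃ₗ[F] B) × (B →ₗ[F] A),
    f A t.1 * h B t.2.1 * conj (k (B × A) (tri t.1 t.2.1 t.2.2)) = _
  rw [Finset.sum_const, nsmul_eq_mul, Nat.card_eq_fintype_card, Finset.card_univ]

end ADJ

open CF in
theorem ip_mul [Finite F] (n : ℕ) (f h k : CF F) :
    ip n (f * h) k = ∑ a ∈ Finset.range (n + 1),
      (∑ᶠ α : G F a, ∑ᶠ β : G F (n - a), f (Fin a → F) α * h (Fin (n - a) → F) β *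
        conj (coprod k α β)) / (Nat.card (G F a) * Nat.card (G F (n - a))) := by
  classical
  have i0 := Fintype.ofFinite (G F n)
  have i2 : ∀ g : G F n, Fintype (Stab g) := fun g => Fintype.ofFinite _
  let Φ : (Σ g : G F n, Stab g) → ℂ := fun x =>
    f x.2.1 (sub x.1 x.2) * h ((Fin n → F) ⧸ x.2.1) (quo x.1 x.2) * conj (k (Fin n → F) x.1)
  have h1 : (∑ᶠ g : G F n, (f * h) (Fin n → F) g * conj (k (Fin n → F) g)) =
      ∑ x : (Σ g : G F n, Stab g), Φ x := by
    rw [finsum_eq_sum_of_fintype]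
    rw [Fintype.sum_sigma]
    apply Finset.sum_congr rfl
    intro g _
    rw [CF.mul_apply, finsum_eq_sum_of_fintype, Finset.sum_mul]
  have h2 : ∑ x : (Σ g : G F n, Stab g), Φ x = ∑ a ∈ Finset.range (n + 1),
      ∑ x : (Σ g : G F n, Stab g), if Module.finrank F x.2.1 = a then Φ x else 0 := by
    rw [Finset.sum_comm]
    apply Finset.sum_congr rfl
    intro x _
    rw [Finset.sum_ite_eq, if_pos]
    rw [Finset.mem_range]
    have := Submodule.finrank_le x.2.1
    rw [Module.finrank_fin_fun] at this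
    omega
  unfold ip
  rw [h1, h2, Finset.sum_div]
  apply Finset.sum_congr rfl
  intro a ha
  have ha' : a ≤ n := by
    have := Finset.mem_range.1 ha
    omega
  have h3 := ADJ.adj_count (A := Fin a → F) (B := Fin (n - a) → F) (V := Fin n → F) f h k
    (by simp only [Module.finrank_fin_fun]; omega)
  rw [finsum_eq_sum_of_fintype] at h3
  have h4 : (Nat.card ((Fin n → F) ≃ₗ[F] ((Fin (n - a) → F) × (Fin a → F))) : ℂ) =
      Nat.card (G F n) := by
    let e : ((Fin (n - a) → F) × (Fin a → F)) ≃ₗ[F] (Fin n → F) :=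
      LinearEquiv.ofFinrankEq _ _ (by
        rw [Module.finrank_prod]
        simp only [Module.finrank_fin_fun]
        omega)
    congr 1
    refine Nat.card_congr ⟨fun x => x.trans e, fun x => x.trans e.symm, fun x => ?_, fun x => ?_⟩
    · ext v <;> simp
    · ext v; simp
  have h5 : (Nat.card ((G F a) × (G F (n - a)) × ((Fin (n - a) → F) →ₗ[F] (Fin a → F))) : ℂ) =
      Nat.card (G F a) * Nat.card (G F (n - a)) *
        Nat.card ((Fin (n - a) → F) →ₗ[F] (Fin a → F)) := by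
    rw [Nat.card_prod, Nat.card_prod]; push_cast; ring
  have i3 := Fintype.ofFinite (G F a)
  have i4 := Fintype.ofFinite (G F (n - a))
  have i5 := Fintype.ofFinite ((Fin (n - a) → F) →ₗ[F] (Fin a → F))
  have p1 : (Nat.card (G F n) : ℂ) ≠ 0 := by exact_mod_cast Nat.card_pos.ne'
  have p2 : (Nat.card (G F a) : ℂ) ≠ 0 := by exact_mod_cast Nat.card_pos.ne'
  have p3 : (Nat.card (G F (n - a)) : ℂ) ≠ 0 := by exact_mod_cast Nat.card_pos.ne'
  have p4 : (Nat.card ((Fin (n - a) → F) →ₗ[F] (Fin a → F)) : ℂ) ≠ 0 := by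
    exact_mod_cast Nat.card_pos.ne'
  have h6 : (∑ x : (Σ g : G F n, Stab g), if Module.finrank F x.2.1 = a then Φ x else 0) *
      (Nat.card (G F a) * Nat.card (G F (n - a)) *
        Nat.card ((Fin (n - a) → F) →ₗ[F] (Fin a → F))) = (Nat.card (G F n) : ℂ) *
      ∑ᶠ t : (G F a) × (G F (n - a)) × ((Fin (n - a) → F) →ₗ[F] (Fin a → F)),
          f (Fin a → F) t.1 * h (Fin (n - a) → F) t.2.1 *
            conj (k ((Fin (n - a) → F) × (Fin a → F)) (tri t.1 t.2.1 t.2.2)) := by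
    rw [← h5, ← h4, ← h3]
    congr 1
    apply Finset.sum_congr rfl
    intro x _
    simp only [Module.finrank_fin_fun, Φ]
  have h7 : (∑ᶠ α : G F a, ∑ᶠ β : G F (n - a), f (Fin a → F) α * h (Fin (n - a) → F) β *
        conj (coprod k α β)) * Nat.card ((Fin (n - a) → F) →ₗ[F] (Fin a → F)) =
      ∑ᶠ t : (G F a) × (G F (n - a)) × ((Fin (n - a) → F) →ₗ[F] (Fin a → F)),
          f (Fin a → F) t.1 * h (Fin (n - a) → F) t.2.1 *
            conj (k ((Fin (n - a) → F) × (Fin a → F)) (tri t.1 t.2.1 t.2.2)) := by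
    rw [finsum_eq_sum_of_fintype, finsum_eq_sum_of_fintype, Fintype.sum_prod_type,
      Finset.sum_mul]
    apply Finset.sum_congr rfl
    intro α _
    rw [finsum_eq_sum_of_fintype, Fintype.sum_prod_type, Finset.sum_mul]
    apply Finset.sum_congr rfl
    intro β _
    unfold coprod
    rw [finsum_eq_sum_of_fintype, map_div₀, map_sum, map_natCast, mul_assoc, div_mul_cancel₀ _ p4,
      Finset.mul_sum]
  rw [div_eq_div_iff p1 (mul_ne_zero p2 p3)]
  apply mul_right_cancel₀ p4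
  rw [mul_assoc, h6, ← h7]
  ring

end Pool.Agent.REll
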