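import Pool.Agent.Lib_helper89.REll_MULT

/-!
# Block INTP: the `p`-part of the denominators (Frobenius' lemma) (MP_f95f3f_co)
-/

open scoped BigOperators ComplexConjugate
open Polynomial MulAction

namespace Pool.Agent.REll

namespace INTP

/-- permutation representation -/
noncomputable def permRep (C Ω : Type) [Group C] [MulAction C Ω] :
    Representation ℂ C (Ω → ℂ) where
  toFun g := LinearMap.funLeft ℂ ℂ (fun ω : Ω => g⁻¹ • ω)
  map_one' := by
    ext φ ω
    simp [LinearMap.funLeft]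
  map_mul' g h := by
    ext φ ω
    simp [LinearMap.funLeft, mul_smul]

theorem isIntegral_int (c : ℤ) : IsIntegral ℤ (c : ℂ) := by
  have := isIntegral_algebraMap (R := ℤ) (A := ℂ) (x := c)
  rwa [algebraMap_int_eq, eq_intCast] at this

theorem isIntegral_nat (c : ℕ) : IsIntegral ℤ (c : ℂ) := by
  have := isIntegral_int (c : ℤ)
  rwa [Int.cast_natCast] at this

theorem permRep_char (C Ω : Type) [Group C] [MulAction C Ω] [Finite Ω] (g : C) :
    (permRep C Ω).character g = (Nat.card (fixedBy Ω g) : ℂ) := by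
  classical
  have := Fintype.ofFinite Ω
  have := Fintype.ofFinite (fixedBy Ω g)
  rw [Representation.character, LinearMap.trace_eq_matrix_trace ℂ (Pi.basisFun ℂ Ω)]
  rw [Matrix.trace]
  have h1 : ∀ ω : Ω, Matrix.diag (LinearMap.toMatrix (Pi.basisFun ℂ Ω) (Pi.basisFun ℂ Ω)
      (permRep C Ω g)) ω = if g • ω = ω then 1 else 0 := by
    intro ω
    rw [Matrix.diag_apply, LinearMap.toMatrix_apply]
    simp only [Pi.basisFun_apply, Pi.basisFun_repr]
    show (Pi.single ω (1 : ℂ) : Ω → ℂ) (g⁻¹ • ω) = _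
    rw [Pi.single_apply]
    congr 1
    rw [eq_iff_iff, inv_smul_eq_iff, eq_comm]
  rw [Finset.sum_congr rfl (fun ω _ => h1 ω), Finset.sum_boole, Nat.card_eq_fintype_card,
    Fintype.card_subtype]
  rfl

/-- `(1/|C|) ∑ θ(g) ψ(x g)` is an algebraic integer for central `x`, `θ` a permutation
character and `ψ` a character. -/
theorem central_sum {C Ω : Type} [Group C] [Finite C] [MulAction C Ω] [Finite Ω]
    {X : Type} [AddCommGroup X] [Module ℂ X] [FiniteDimensional ℂ X]
    (ρ : Representation ℂ C X) (x : C) (hx : ∀ g, x * g = g * x) [Fintype C] :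
    ∃ t : ℂ, IsIntegral ℤ t ∧
      ∑ g : C, (Nat.card (fixedBy Ω g) : ℂ) * ρ.character (x * g) = (Fintype.card C : ℂ) * t := by
  have := Fintype.ofFinite Ω
  have hN : (Fintype.card C : ℂ) ≠ 0 := by exact_mod_cast Fintype.card_pos.ne'
  let σ := permRep C Ω
  let τ := Representation.tprod σ ρ
  let J : Subgroup.zpowers x → Module.End ℂ (TensorProduct ℂ (Ω → ℂ) X) := fun y =>
    TensorProduct.map LinearMap.id (ρ y.1)
  have hJm : ∀ y z, J (y * z) = J y * J z := by
    intro y z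
    show TensorProduct.map LinearMap.id (ρ (y.1 * z.1)) = _
    rw [map_mul]
    show _ = TensorProduct.map LinearMap.id (ρ y.1) ∘ₗ TensorProduct.map LinearMap.id (ρ z.1)
    rw [← TensorProduct.map_comp]
    rfl
  have hcomm : ∀ (y : Subgroup.zpowers x) (g : C), y.1 * g = g * y.1 := by
    rintro ⟨y, j, rfl⟩ g
    have h1 : Commute x g := hx g
    exact (h1.zpow_left j)
  have hJτ : ∀ y g, J y * τ g = τ g * J y := by
    intro y g
    show TensorProduct.map LinearMap.id (ρ y.1) ∘ₗ TensorProduct.map (σ g) (ρ g) =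
      TensorProduct.map (σ g) (ρ g) ∘ₗ TensorProduct.map LinearMap.id (ρ y.1)
    rw [← TensorProduct.map_comp, ← TensorProduct.map_comp, LinearMap.id_comp, LinearMap.comp_id]
    congr 1
    show ρ y.1 * ρ g = ρ g * ρ y.1
    rw [← map_mul, ← map_mul, hcomm]
  let e : Module.End ℂ (TensorProduct ℂ (Ω → ℂ) X) := (Fintype.card C : ℂ)⁻¹ • ∑ g : C, τ g
  have hτe : ∀ g, τ g * e = e := by
    intro g
    show τ g * ((Fintype.card C : ℂ)⁻¹ • ∑ g : C, τ g) = (Fintype.card C : ℂ)⁻¹ • ∑ g : C, τ g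
    rw [mul_smul_comm, Finset.mul_sum]
    congr 1
    rw [← Equiv.sum_comp (Equiv.mulLeft g) (fun h => τ h)]
    apply Finset.sum_congr rfl
    intro h _
    rw [Equiv.coe_mulLeft, map_mul]
  have hee : e * e = e := by
    have : e * e = (Fintype.card C : ℂ)⁻¹ • ∑ g : C, τ g * e := by
      conv_lhs => enter [1]; unfold e
      rw [smul_mul_assoc, Finset.sum_mul]
    rw [this, Finset.sum_congr rfl (fun g _ => hτe g), Finset.sum_const, Finset.card_univ,
      ← Nat.cast_smul_eq_nsmul ℂ, smul_smul, inv_mul_cancel₀ hN, one_smul]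
  have heJ : ∀ y, J y * e = e * J y := by
    intro y
    show J y * ((Fintype.card C : ℂ)⁻¹ • ∑ g : C, τ g) = ((Fintype.card C : ℂ)⁻¹ • ∑ g : C, τ g) * J y
    rw [mul_smul_comm, smul_mul_assoc, Finset.mul_sum, Finset.sum_mul]
    congr 1
    exact Finset.sum_congr rfl (fun g _ => hJτ y g)
  obtain ⟨Y, κ, hκ⟩ := MULT.exists_rep (fun y : Subgroup.zpowers x => J y * e) (by
    intro y z
    show J (y * z) * e = J y * e * (J z * e)
    rw [hJm, mul_assoc (J y) e, ← mul_assoc e (J z) e, ← heJ z, mul_assoc (J z) e e, hee,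
      ← mul_assoc])
  let x' : Subgroup.zpowers x := ⟨x, Subgroup.mem_zpowers x⟩
  have hfd : FiniteDimensional ℂ Y := inferInstance
  have hint := @character_isIntegral (Subgroup.zpowers x) _ _ Y _ _ hfd κ x'
  refine ⟨_, hint, ?_⟩
  rw [hκ]
  have h2 : J x' * e = (Fintype.card C : ℂ)⁻¹ • ∑ g : C,
      TensorProduct.map (σ g) (ρ (x * g)) := by
    show J x' * ((Fintype.card C : ℂ)⁻¹ • ∑ g : C, τ g) = _
    rw [mul_smul_comm, Finset.mul_sum]
    congr 1
    apply Finset.sum_congr rfl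
    intro g _
    show TensorProduct.map LinearMap.id (ρ x) ∘ₗ TensorProduct.map (σ g) (ρ g) = _
    rw [← TensorProduct.map_comp, LinearMap.id_comp, map_mul]
    rfl
  rw [h2, map_smul, map_sum, smul_eq_mul, ← mul_assoc, mul_inv_cancel₀ hN, one_mul]
  apply Finset.sum_congr rfl
  intro g _
  rw [LinearMap.trace_tensorProduct']
  congr 1
  exact (permRep_char C Ω g).symm

section fix
variable {C : Type} [Group C] [Finite C] (p : ℕ) [Fact p.Prime] (M : ℕ)

theorem not_dvd_fixed (P : Sylow p C) (u : C) (hu : u ^ (p ^ M) = 1) :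
    ¬ p ∣ Nat.card (fixedBy (C ⧸ (P : Subgroup C)) u) := by
  have hG : IsPGroup p (Subgroup.zpowers u) := by
    rintro ⟨y, j, rfl⟩
    refine ⟨M, ?_⟩
    apply Subtype.ext
    show (u ^ j) ^ (p ^ M) = 1
    rw [← zpow_natCast, ← zpow_mul, mul_comm, zpow_mul, zpow_natCast, hu, one_zpow]
  have h1 := hG.card_modEq_card_fixedPoints (C ⧸ (P : Subgroup C))
  have h2 : fixedPoints (Subgroup.zpowers u) (C ⧸ (P : Subgroup C)) =
      fixedBy (C ⧸ (P : Subgroup C)) u := by
    ext a
    constructor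
    · intro h
      exact h ⟨u, Subgroup.mem_zpowers u⟩
    · rintro h ⟨y, j, rfl⟩
      exact mem_fixedBy_zpow h j
  rw [h2] at h1
  intro h3
  have h4 : p ∣ Nat.card (C ⧸ (P : Subgroup C)) :=
    (Nat.modEq_zero_iff_dvd.1 (h1.trans (Nat.modEq_zero_iff_dvd.2 h3)))
  exact P.not_dvd_index h4

theorem fixed_empty (hM : ∀ g : C, ¬ p ∣ orderOf (g ^ (p ^ M))) (P : Sylow p C) (g : C)
    (hg : g ^ (p ^ M) ≠ 1) : Nat.card (fixedBy (C ⧸ (P : Subgroup C)) g) = 0 := by
  rw [Finite.card_eq_zero_iff]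
  refine ⟨fun ⟨a, ha⟩ => hg ?_⟩
  obtain ⟨c, rfl⟩ := QuotientGroup.mk_surjective a
  have h1 : c⁻¹ * (g * c) ∈ (P : Subgroup C) := by
    have h2 : ((g * c : C) : C ⧸ (P : Subgroup C)) = c := ha
    exact QuotientGroup.eq.1 h2.symm
  obtain ⟨k, hk⟩ := P.isPGroup' ⟨_, h1⟩
  have h3 : (c⁻¹ * (g * c)) ^ (p ^ k) = 1 := congrArg Subtype.val hk
  have h4 : g ^ (p ^ k) = 1 := by
    have h5 : c⁻¹ * (g * c) = c⁻¹ * g * (c⁻¹)⁻¹ := by group
    rw [h5, conj_pow] at h3
    rwa [conj_eq_one_iff] at h3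
  have h5 : (g ^ (p ^ M)) ^ (p ^ k) = 1 := by
    rw [← pow_mul, mul_comm, pow_mul, h4, one_pow]
  have h6 : orderOf (g ^ (p ^ M)) ∣ p ^ k := orderOf_dvd_of_pow_eq_one h5
  obtain ⟨j, -, hj⟩ := (Nat.dvd_prime_pow (Fact.out : p.Prime)).1 h6
  rcases j with _ | j
  · rw [pow_zero] at hj
    exact orderOf_eq_one_iff.1 hj
  · exact absurd (hj ▸ dvd_pow_self p (Nat.succ_ne_zero j)) (hM g)

theorem card_fixedBy_pi {α : Type} [MulAction C α] [Finite α] (k : ℕ) (g : C) :
    Nat.card (fixedBy (Fin k → α) g) = Nat.card (fixedBy α g) ^ k := by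
  have e : fixedBy (Fin k → α) g ≃ (Fin k → fixedBy α g) :=
    { toFun := fun φ i => ⟨φ.1 i, congrFun φ.2 i⟩
      invFun := fun φ => ⟨fun i => (φ i).1, funext fun i => (φ i).2⟩
      left_inv := fun φ => rfl
      right_inv := fun φ => rfl }
  rw [Nat.card_congr e, Nat.card_pi]
  simp

/-- Frobenius' lemma -/
theorem frobenius [Fintype C] [DecidableEq C] (hM : ∀ g : C, ¬ p ∣ orderOf (g ^ (p ^ M)))
    {X : Type} [AddCommGroup X] [Module ℂ X] [FiniteDimensional ℂ X]
    (ρ : Representation ℂ C X) (x : C) (hx : ∀ g, x * g = g * x) (b : ℕ)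
    (hb : p ^ b ∣ Nat.card C) :
    ∃ w : ℂ, IsIntegral ℤ w ∧
      ∑ g : C, (if g ^ (p ^ M) = 1 then ρ.character (x * g) else 0) =
        (p : ℂ) ^ b * w := by
  classical
  obtain ⟨P⟩ : Nonempty (Sylow p C) := inferInstance
  let α : Type := C ⧸ (P : Subgroup C)
  let k := Nat.totient (p ^ b)
  have hp : p.Prime := Fact.out
  have hk : 0 < k := Nat.totient_pos.2 (pow_pos hp.pos b)
  obtain ⟨t, ht, h1⟩ := central_sum (Ω := Fin k → α) ρ x hx
  have h2 : ∀ g : C, ∃ c : ℤ, (Nat.card (fixedBy (Fin k → α) g) : ℤ) =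
      (if g ^ (p ^ M) = 1 then 1 else 0) + (p : ℤ) ^ b * c := by
    intro g
    rw [card_fixedBy_pi]
    by_cases hg : g ^ (p ^ M) = 1
    · rw [if_pos hg]
      have h3 := not_dvd_fixed p M P g hg
      have h4 : Nat.Coprime (Nat.card (fixedBy α g)) (p ^ b) := by
        apply Nat.Coprime.pow_right
        exact ((Nat.Prime.coprime_iff_not_dvd hp).2 h3).symm
      have h5 := Nat.ModEq.pow_totient h4
      have h6 : ((p ^ b : ℕ) : ℤ) ∣ ((Nat.card (fixedBy α g) ^ k : ℕ) : ℤ) - (1 : ℕ) :=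
        (Nat.modEq_iff_dvd.1 h5.symm)
      obtain ⟨c, hc⟩ := h6
      refine ⟨c, ?_⟩
      push_cast at hc
      push_cast
      linarith
    · rw [if_neg hg, fixed_empty p M hM P g hg, zero_pow hk.ne']
      exact ⟨0, by simp⟩
  choose c hc using h2
  have hc' : ∀ g : C, (Nat.card (fixedBy (Fin k → α) g) : ℂ) =
      (if g ^ (p ^ M) = 1 then 1 else 0) + (p : ℂ) ^ b * (c g : ℂ) := by
    intro g
    have := congrArg (fun z : ℤ => (z : ℂ)) (hc g)
    push_cast at this
    rw [this]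
  obtain ⟨r, hr⟩ := hb
  refine ⟨(r : ℂ) * t - ∑ g : C, (c g : ℂ) * ρ.character (x * g), ?_, ?_⟩
  · apply IsIntegral.sub
    · apply IsIntegral.mul _ ht
      exact isIntegral_nat r
    · apply IsIntegral.sum
      intro g _
      apply IsIntegral.mul _ (character_isIntegral ρ _)
      exact isIntegral_int (c g)
  · have h7 : (Fintype.card C : ℂ) = (p : ℂ) ^ b * r := by
      rw [← Nat.card_eq_fintype_card, hr]; push_cast; ring
    have h8 : ∑ g : C, (Nat.card (fixedBy (Fin k → α) g) : ℂ) * ρ.character (x * g) =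
        (∑ g : C, if g ^ (p ^ M) = 1 then ρ.character (x * g) else 0) +
          (p : ℂ) ^ b * ∑ g : C, (c g : ℂ) * ρ.character (x * g) := by
      rw [Finset.mul_sum, ← Finset.sum_add_distrib]
      apply Finset.sum_congr rfl
      intro g _
      rw [hc' g]
      split_ifs <;> ring
    rw [h8, h7] at h1
    linear_combination h1

end fix

section main
variable {Γ : Type} [Group Γ] [Finite Γ]

theorem card_class (y : Γ) [Fintype Γ] [DecidableEq (ConjClasses Γ)] :
    (Finset.univ.filter fun g : Γ => ConjClasses.mk g = ConjClasses.mk y).card *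
      Nat.card (Subgroup.centralizer {y}) = Nat.card Γ := by
  classical
  rw [Subgroup.nat_card_centralizer_nat_card_stabilizer, Nat.card_eq_fintype_card,
    Nat.card_eq_fintype_card]
  have h1 := MulAction.card_orbit_mul_card_stabilizer_eq_card_group (ConjAct Γ) y
  have h2 : Fintype.card (ConjAct Γ) = Fintype.card Γ := rfl
  rw [← h2, ← h1]
  congr 1
  rw [Fintype.card_subtype]
  congr 1
  ext g
  rw [Finset.mem_filter, Finset.mem_filter]
  have h3 := ConjAct.orbit_eq_carrier_conjClasses y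
  rw [h3, ConjClasses.mem_carrier_iff_mk_eq]

/-- sum of the character over a fibre of `g ↦ g ^ (p ^ M)` -/
theorem fibre_sum (p : ℕ) [Fact p.Prime] (M : ℕ) (hM : ∀ g : Γ, ¬ p ∣ orderOf (g ^ (p ^ M)))
    {X : Type} [AddCommGroup X] [Module ℂ X] [FiniteDimensional ℂ X]
    (ρ : Representation ℂ Γ X) (y : Γ) [Fintype Γ] [DecidableEq Γ] :
    ∃ w : ℂ, IsIntegral ℤ w ∧ ∑ g : Γ, (if g ^ (p ^ M) = y then ρ.character g else 0) =
      (p : ℂ) ^ ((Nat.card (Subgroup.centralizer {y})).factorization p) * w := by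
  classical
  by_cases hy : ∃ g₀ : Γ, g₀ ^ (p ^ M) = y
  swap
  · push Not at hy
    refine ⟨0, isIntegral_zero, ?_⟩
    rw [mul_zero]
    exact Finset.sum_eq_zero (fun g _ => if_neg (hy g))
  obtain ⟨g₀, hg₀⟩ := hy
  have hp : p.Prime := Fact.out
  have hcop : Nat.Coprime (p ^ M) (orderOf y) := by
    apply Nat.Coprime.pow_left
    rw [Nat.Prime.coprime_iff_not_dvd hp, ← hg₀]
    exact hM g₀
  obtain ⟨j, hj⟩ := exists_pow_eq_self_of_coprime hcop
  have hx : (y ^ j) ^ (p ^ M) = y := by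
    rw [← pow_mul, mul_comm, pow_mul, hj]
  set C := Subgroup.centralizer {y} with hC
  have hmemC : ∀ g : Γ, g ∈ C ↔ y * g = g * y := by
    intro g
    rw [hC, Subgroup.mem_centralizer_singleton_iff]
    exact eq_comm
  have hyC : y ^ j ∈ C := by
    rw [hmemC, ← pow_succ, ← pow_succ']
  have hcomm : ∀ g ∈ C, y ^ j * g = g * y ^ j := by
    intro g hg
    have : Commute y g := (hmemC g).1 hg
    exact this.pow_left j
  have iC : Fintype C := Fintype.ofFinite C
  obtain ⟨w, hw, h1⟩ := frobenius (C := C) p M (by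
    intro g
    have := hM g.1
    rwa [← Subgroup.coe_pow, Subgroup.orderOf_coe] at this)
    (ρ.comp C.subtype) ⟨y ^ j, hyC⟩ (fun g => Subtype.ext (hcomm g.1 g.2))
    ((Nat.card C).factorization p) (Nat.ordProj_dvd _ _)
  refine ⟨w, hw, ?_⟩
  rw [← h1, ← Finset.sum_filter, ← Finset.sum_filter]
  symm
  apply Finset.sum_bij (fun (u : C) _ => y ^ j * u.1)
  · intro u hu
    rw [Finset.mem_filter] at hu ⊢
    refine ⟨Finset.mem_univ _, ?_⟩
    have h2 : Commute (y ^ j) u.1 := hcomm u.1 u.2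
    have h3 : u.1 ^ (p ^ M) = 1 := congrArg Subtype.val hu.2
    rw [h2.mul_pow, hx, h3, mul_one]
  · intro u _ v _ h
    exact Subtype.ext (mul_left_cancel h)
  · intro g hg
    rw [Finset.mem_filter] at hg
    have hg2 := hg.2
    have hgC : g ∈ C := by
      rw [hmemC, ← hg2, ← pow_succ, ← pow_succ']
    have h2 : (y ^ j)⁻¹ * g ∈ C := C.mul_mem (C.inv_mem hyC) hgC
    refine ⟨⟨(y ^ j)⁻¹ * g, h2⟩, ?_, ?_⟩
    · rw [Finset.mem_filter]
      refine ⟨Finset.mem_univ _, ?_⟩
      apply Subtype.ext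
      show ((y ^ j)⁻¹ * g) ^ (p ^ M) = 1
      have h3 : Commute (y ^ j)⁻¹ g := (Commute.inv_left (hcomm g hgC))
      rw [h3.mul_pow, inv_pow, hx, hg2, inv_mul_cancel]
    · show y ^ j * ((y ^ j)⁻¹ * g) = g
      rw [mul_inv_cancel_left]
  · intro u _
    rfl

end main
end INTP

open INTP in
theorem p_part_integral {Γ : Type} [Group Γ] [Finite Γ] (p : ℕ) [Fact p.Prime] (f : Γ → ℂ)
    (hf : ∀ x g, f (x * g * x⁻¹) = f g) (hint : ∀ g, IsIntegral ℤ (f g))
    (hM : ∃ M : ℕ, (∀ g, f (g ^ (p ^ M)) = f g) ∧ (∀ g : Γ, ¬ p ∣ orderOf (g ^ (p ^ M))))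
    {X : Type} [AddCommGroup X] [Module ℂ X] [FiniteDimensional ℂ X]
    (ρ : Representation ℂ Γ X) (m : ℕ) (hm : Nat.card Γ = p ^ (Nat.card Γ).factorization p * m) :
    IsIntegral ℤ ((m : ℂ) * gip f ρ.character) := by
  classical
  have iΓ := Fintype.ofFinite Γ
  obtain ⟨M, hM1, hM2⟩ := hM
  have hp : p.Prime := Fact.out
  let S : Γ → ℂ := fun y => ∑ g : Γ, (if g ^ (p ^ M) = y then ρ.character g else 0)
  have hS : ∀ x y, S (x * y * x⁻¹) = S y := by
    intro x y
    show ∑ g : Γ, (if g ^ (p ^ M) = x * y * x⁻¹ then ρ.character g else 0) = _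
    rw [← Equiv.sum_comp (MulAut.conj x).toEquiv]
    apply Finset.sum_congr rfl
    intro g _
    have h1 : (MulAut.conj x).toEquiv g = x * g * x⁻¹ := rfl
    rw [h1, conj_pow, Representation.char_conj]
    congr 1
    rw [eq_iff_iff]
    constructor
    · intro h
      exact mul_left_cancel (mul_right_cancel h)
    · intro h
      rw [h]
  have h1 : ∑ g : Γ, f g * conj (ρ.character g) = ∑ y : Γ, f y * conj (S y) := by
    have h2 : ∀ g : Γ, f g * conj (ρ.character g) =
        ∑ y : Γ, (if g ^ (p ^ M) = y then f y * conj (ρ.character g) else 0) := by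
      intro g
      rw [Finset.sum_ite_eq, if_pos (Finset.mem_univ _), hM1]
    rw [Finset.sum_congr rfl (fun g _ => h2 g), Finset.sum_comm]
    apply Finset.sum_congr rfl
    intro y _
    show _ = f y * conj (∑ g : Γ, (if g ^ (p ^ M) = y then ρ.character g else 0))
    rw [map_sum, Finset.mul_sum]
    apply Finset.sum_congr rfl
    intro g _
    split_ifs
    · rfl
    · simp
  have h3 : ∑ y : Γ, f y * conj (S y) = ∑ K : ConjClasses Γ,
      ∑ y ∈ Finset.univ.filter (fun y : Γ => ConjClasses.mk y = K), f y * conj (S y) := by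
    rw [Finset.sum_fiberwise]
  have h4 : ∀ K : ConjClasses Γ, ∃ v : ℂ, IsIntegral ℤ v ∧
      ∑ y ∈ Finset.univ.filter (fun y : Γ => ConjClasses.mk y = K), f y * conj (S y) =
        (p : ℂ) ^ ((Nat.card Γ).factorization p) * v := by
    intro K
    obtain ⟨y, rfl⟩ := ConjClasses.mk_surjective K
    have h5 : ∀ z ∈ Finset.univ.filter (fun z : Γ => ConjClasses.mk z = ConjClasses.mk y),
        f z * conj (S z) = f y * conj (S y) := by
      intro z hz
      rw [Finset.mem_filter, ConjClasses.mk_eq_mk_iff_isConj] at hz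
      obtain ⟨x, hx⟩ := isConj_iff.1 hz.2.symm
      rw [← hx, hf, hS]
    rw [Finset.sum_congr rfl h5, Finset.sum_const, nsmul_eq_mul]
    obtain ⟨w, hw, h6⟩ := fibre_sum p M hM2 ρ y
    set k := (Finset.univ.filter fun g : Γ => ConjClasses.mk g = ConjClasses.mk y).card with hk
    set b := (Nat.card (Subgroup.centralizer {y})).factorization p with hb
    have h7 : k * Nat.card (Subgroup.centralizer {y}) = Nat.card Γ := card_class y
    have h8 : p ^ ((Nat.card Γ).factorization p) ∣ k * p ^ b := by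
      have h9 : Nat.card (Subgroup.centralizer {y}) = p ^ b *
          (Nat.card (Subgroup.centralizer {y}) / p ^ b) := (Nat.ordProj_mul_ordCompl_eq_self _ _).symm
      have h10 : ¬ p ∣ (Nat.card (Subgroup.centralizer {y}) / p ^ b) :=
        Nat.not_dvd_ordCompl hp Nat.card_pos.ne'
      have h11 : p ^ ((Nat.card Γ).factorization p) ∣
          (k * p ^ b) * (Nat.card (Subgroup.centralizer {y}) / p ^ b) := by
        rw [mul_assoc, ← h9, h7]
        exact Nat.ordProj_dvd _ _
      exact (Nat.Coprime.pow_left _ ((Nat.Prime.coprime_iff_not_dvd hp).2 h10)).dvd_of_dvd_mul_right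
        h11
    obtain ⟨r, hr⟩ := h8
    refine ⟨(r : ℂ) * (f y * conj w), ?_, ?_⟩
    · apply IsIntegral.mul (isIntegral_nat r)
      apply IsIntegral.mul (hint y)
      exact hw.map (starRingEnd ℂ : ℂ →+* ℂ).toIntAlgHom
    · have h12 : S y = (p : ℂ) ^ b * w := h6
      have h13 : (k : ℂ) * (p : ℂ) ^ b = (p : ℂ) ^ ((Nat.card Γ).factorization p) * r := by
        exact_mod_cast congrArg (fun z : ℕ => (z : ℂ)) hr
      rw [h12, map_mul, map_pow, Complex.conj_natCast]
      linear_combination (f y * conj w) * h13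
  choose v hv h5 using h4
  have h6 : (m : ℂ) * gip f ρ.character = ∑ K : ConjClasses Γ, v K := by
    unfold gip
    rw [finsum_eq_sum_of_fintype, h1, h3, Finset.sum_congr rfl (fun K _ => h5 K), ← Finset.mul_sum]
    have h7 : (Nat.card Γ : ℂ) = (p : ℂ) ^ ((Nat.card Γ).factorization p) * m := by
      exact_mod_cast congrArg (fun z : ℕ => (z : ℂ)) hm
    have h8 : (Nat.card Γ : ℂ) ≠ 0 := by exact_mod_cast Nat.card_pos.ne'
    rw [← mul_div_assoc, div_eq_iff h8]
    rw [h7]
    ring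
  rw [h6]
  exact IsIntegral.sum _ (fun K _ => hv K)

end Pool.Agent.REll
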