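import Pool.Agent.Lib_helper89.REll_ADJ
import Pool.Agent.Lib_helper55.REll_RT1

/-!
# Block MULT: the Hall product of two characters is a character (MP_f95f3f_co)
-/

open scoped BigOperators ComplexConjugate
open Polynomial

namespace Pool.Agent.REll
variable {F : Type} [Field F]

namespace MULT

/-- A multiplicative (not necessarily unital) family of endomorphisms comes from a
representation on the range of its value at `1`, with the same traces. -/
theorem exists_rep {Γ : Type} [Group Γ] {X : Type} [AddCommGroup X] [Module ℂ X]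
    [FiniteDimensional ℂ X] (T : Γ → (X →ₗ[ℂ] X)) (hT : ∀ g h, T (g * h) = T g * T h) :
    ∃ (Y : Submodule ℂ X) (σ : Representation ℂ Γ Y), ∀ g, σ.character g = LinearMap.trace ℂ X (T g) := by
  have hmem : ∀ g x, T g x ∈ LinearMap.range (T 1) := by
    intro g x
    refine ⟨T g x, ?_⟩
    have := hT 1 g
    rw [one_mul] at this
    conv_rhs => rw [this]
    rfl
  have h1 : ∀ y ∈ LinearMap.range (T 1), T 1 y = y := by
    rintro y ⟨x, rfl⟩
    have := hT 1 1
    rw [one_mul] at this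
    conv_rhs => rw [this]
    rfl
  refine ⟨LinearMap.range (T 1), ⟨⟨fun g => (T g).restrict (fun x _ => hmem g x), ?_⟩, ?_⟩, ?_⟩
  · ext y
    exact h1 y.1 y.2
  · intro g h
    ext y
    show T (g * h) y.1 = T g (T h y.1)
    rw [hT]; rfl
  · intro g
    exact LinearMap.trace_restrict_eq_of_forall_mem _ (T g) (hmem g)

theorem tri_mul {A B : Type} [AddCommGroup A] [Module F A] [AddCommGroup B] [Module F B]
    (α α' : A ≃ₗ[F] A) (β β' : B ≃ₗ[F] B) (u u' : B →ₗ[F] A) :
    tri α β u * tri α' β' u' = tri (α * α') (β * β')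
      ((α : A →ₗ[F] A) ∘ₗ u' + u ∘ₗ (β' : B →ₗ[F] B)) := by
  ext x
  · simp [LinearEquiv.mul_apply]
  · simp [LinearEquiv.mul_apply, add_assoc]

/-- Averaging a multiplicative family over the unipotent radical. -/
theorem avg_mul {A B : Type} [AddCommGroup A] [Module F A] [AddCommGroup B] [Module F B]
    [Finite A] [Finite B] {M : Type} [Ring M] [Algebra ℂ M]
    (R : ((B × A) ≃ₗ[F] (B × A)) → M) (hR : ∀ p q, R (p * q) = R p * R q)
    (α α' : A ≃ₗ[F] A) (β β' : B ≃ₗ[F] B) [Fintype (B →ₗ[F] A)] :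
    ((Fintype.card (B →ₗ[F] A) : ℂ)⁻¹ • ∑ u : B →ₗ[F] A, R (tri α β u)) *
      ((Fintype.card (B →ₗ[F] A) : ℂ)⁻¹ • ∑ u : B →ₗ[F] A, R (tri α' β' u)) =
      (Fintype.card (B →ₗ[F] A) : ℂ)⁻¹ • ∑ u : B →ₗ[F] A, R (tri (α * α') (β * β') u) := by
  have hN : (Fintype.card (B →ₗ[F] A) : ℂ) ≠ 0 := by
    exact_mod_cast Fintype.card_pos.ne'
  have h1 : ∀ u : B →ₗ[F] A, ∑ u' : B →ₗ[F] A, R (tri α β u) * R (tri α' β' u') =
      ∑ w : B →ₗ[F] A, R (tri (α * α') (β * β') w) := by
    intro u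
    have hbij : Function.Bijective (fun u' : B →ₗ[F] A =>
        (α : A →ₗ[F] A) ∘ₗ u' + u ∘ₗ (β' : B →ₗ[F] B)) := by
      apply Finite.injective_iff_bijective.1
      intro u' u'' h
      have h2 : (α : A →ₗ[F] A) ∘ₗ u' = (α : A →ₗ[F] A) ∘ₗ u'' := by
        simpa using h
      ext b
      have := LinearMap.congr_fun h2 b
      simpa using this
    rw [← hbij.sum_comp (fun w => R (tri (α * α') (β * β') w))]
    apply Finset.sum_congr rfl
    intro u' _
    rw [← hR, tri_mul]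
  rw [smul_mul_smul_comm, Finset.sum_mul_sum, Finset.sum_congr rfl (fun u _ => h1 u),
    Finset.sum_const, Finset.card_univ, ← Nat.cast_smul_eq_nsmul ℂ, smul_smul]
  congr 1
  field_simp

theorem ip_mul_hom [Finite F] (a b : ℕ) (x y k : CF F) (hx : x.IsHom a) :
    CF.ip (a + b) (x * y) k = (∑ᶠ α : G F a, ∑ᶠ β : G F b,
      x (Fin a → F) α * y (Fin b → F) β * conj (CF.coprod k α β)) /
        (Nat.card (G F a) * Nat.card (G F b)) := by
  rw [ip_mul, Finset.sum_eq_single a]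
  · let φ : ℕ → ℂ := fun m => (∑ᶠ α : G F a, ∑ᶠ β : G F m,
      x (Fin a → F) α * y (Fin m → F) β * conj (CF.coprod k α β)) /
        (Nat.card (G F a) * Nat.card (G F m))
    show φ (a + b - a) = φ b
    rw [Nat.add_sub_cancel_left]
  · intro a' _ ha
    have : ∀ α : G F a', ∀ β : G F (a + b - a'),
        x (Fin a' → F) α * y (Fin (a + b - a') → F) β * conj (CF.coprod k α β) = 0 := by
      intro α β
      rw [hx _ α (by simpa using ha)]; simp
    simp [this]
  · intro h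
    exfalso; apply h; simp

/-- the restriction of a character is the character of a representation of `GL_a × GL_b` -/
theorem exists_coprod_rep [Finite F] {a b d : ℕ} (k : CF F)
    (ρ : Representation ℂ (G F (a + b)) (Fin d → ℂ))
    (hk : ∀ g : G F (a + b), k (Fin (a + b) → F) g = ρ.character g) :
    ∃ (Y : Submodule ℂ (Fin d → ℂ)) (σ : Representation ℂ (G F a × G F b) Y),
      ∀ γ : G F a × G F b, σ.character γ = CF.coprod k γ.1 γ.2 := by
  have i5 := Fintype.ofFinite ((Fin b → F) →ₗ[F] (Fin a → F))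
  let e : ((Fin b → F) × (Fin a → F)) ≃ₗ[F] (Fin (a + b) → F) :=
    LinearEquiv.ofFinrankEq _ _ (by
      rw [Module.finrank_prod]
      simp only [Module.finrank_fin_fun]
      omega)
  let R : (((Fin b → F) × (Fin a → F)) ≃ₗ[F] ((Fin b → F) × (Fin a → F))) →
      Module.End ℂ (Fin d → ℂ) := fun p => ρ ((e.symm.trans p).trans e)
  have hR : ∀ p q, R (p * q) = R p * R q := by
    intro p q
    show ρ _ = ρ _ * ρ _
    rw [← map_mul]
    congr 1
    ext v
    simp [LinearEquiv.mul_apply]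
  let T : (G F a × G F b) → Module.End ℂ (Fin d → ℂ) := fun γ =>
    (Fintype.card ((Fin b → F) →ₗ[F] (Fin a → F)) : ℂ)⁻¹ •
      ∑ u : (Fin b → F) →ₗ[F] (Fin a → F), R (tri γ.1 γ.2 u)
  have hT : ∀ g h, T (g * h) = T g * T h := by
    intro g h
    exact (avg_mul R hR g.1 h.1 g.2 h.2).symm
  obtain ⟨Y, σ, hσ⟩ := exists_rep T hT
  refine ⟨Y, σ, fun γ => ?_⟩
  rw [hσ]
  show LinearMap.trace ℂ (Fin d → ℂ) ((Fintype.card ((Fin b → F) →ₗ[F] (Fin a → F)) : ℂ)⁻¹ •
      ∑ u : (Fin b → F) →ₗ[F] (Fin a → F), R (tri γ.1 γ.2 u)) = _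
  rw [map_smul, map_sum, smul_eq_mul]
  unfold CF.coprod
  rw [finsum_eq_sum_of_fintype, Nat.card_eq_fintype_card, div_eq_mul_inv, mul_comm]
  congr 1
  apply Finset.sum_congr rfl
  intro u _
  have h1 := hk ((e.symm.trans (tri γ.1 γ.2 u)).trans e)
  have h2 : k ((Fin b → F) × (Fin a → F)) (tri γ.1 γ.2 u) =
      k (Fin (a + b) → F) ((e.symm.trans (tri γ.1 γ.2 u)).trans e) := by
    apply k.inv' _ _ e
    intro v
    simp
  rw [h2, h1]
  rfl

end MULT

open MULT in
theorem mult_nat [Finite F] {a b : ℕ} {i j k : CF F} (hi : i ∈ Irr F a) (hj : j ∈ Irr F b)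
    (hk : k ∈ Irr F (a + b)) : ∃ c : ℕ, CF.ip (a + b) (i * j) k = c := by
  obtain ⟨hi0, di, ρi, -, hi⟩ := hi
  obtain ⟨hj0, dj, ρj, -, hj⟩ := hj
  obtain ⟨hk0, dk, ρk, -, hk⟩ := hk
  obtain ⟨Y, σ, hσ⟩ := exists_coprod_rep k ρk (fun g => congrFun hk g)
  let τ : Representation ℂ (G F a × G F b) (TensorProduct ℂ (Fin di → ℂ) (Fin dj → ℂ)) :=
    Representation.tprod (ρi.comp (MonoidHom.fst (G F a) (G F b)))
      (ρj.comp (MonoidHom.snd (G F a) (G F b)))
  have hτ : ∀ γ : G F a × G F b, τ.character γ =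
      i (Fin a → F) γ.1 * j (Fin b → F) γ.2 := by
    intro γ
    have h1 : τ.character = _ := Representation.char_tensor
      (ρi.comp (MonoidHom.fst (G F a) (G F b))) (ρj.comp (MonoidHom.snd (G F a) (G F b)))
    rw [h1, Pi.mul_apply, congrFun hi γ.1, congrFun hj γ.2]
    rfl
  obtain ⟨m, hm⟩ := gip_nat τ σ
  refine ⟨m, ?_⟩
  rw [ip_mul_hom a b i j k hi0, ← hm]
  unfold gip
  have i3 := Fintype.ofFinite (G F a)
  have i4 := Fintype.ofFinite (G F b)
  rw [Nat.card_prod]
  push_cast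
  congr 1
  rw [finsum_eq_sum_of_fintype, finsum_eq_sum_of_fintype, Fintype.sum_prod_type]
  apply Finset.sum_congr rfl
  intro α _
  rw [finsum_eq_sum_of_fintype]
  apply Finset.sum_congr rfl
  intro β _
  rw [hτ, hσ]

end Pool.Agent.REll
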