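import Mathlib

/-!
# The mod-k cohomology ring of a discrete group

We put the cup product on `⨁ n, H^n(G, k)` where `H^n(G, k)` is Mathlib's group cohomology of `G`
with coefficients in the trivial representation `k`.
-/

set_option autoImplicit false

open CategoryTheory groupCohomology
open scoped DirectSum

namespace Pool.Agent.Lib_helper89

universe u

section
variable {k G : Type u} [CommRing k] [Group G]

/-- `H^n(G, k)`: Mathlib's group cohomology of `G` with trivial coefficients `k`. -/
noncomputable abbrev Coh (k G : Type u) [CommRing k] [Group G] (n : ℕ) : Type u :=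
  groupCohomology (Rep.trivial k G k) n

/-- The differential of inhomogeneous cochains `G^n → k` (trivial coefficients). -/
noncomputable def dC (n : ℕ) : ((Fin n → G) → k) →ₗ[k] ((Fin (n + 1) → G) → k) :=
  (inhomogeneousCochains.d (Rep.trivial k G k) n).hom

lemma dC_apply (n : ℕ) (f : (Fin n → G) → k) (g : Fin (n + 1) → G) :
    dC n f g = f (fun i => g i.succ) +
      ∑ j : Fin (n + 1), (-1 : k) ^ ((j : ℕ) + 1) * f (Fin.contractNth j (· * ·) g) := by
  simp [dC, inhomogeneousCochains.d_hom_apply]

lemma dC_dC (n : ℕ) (f : (Fin n → G) → k) : dC (n + 1) (dC n f) = 0 := by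
  have h := inhomogeneousCochains.d_comp_d (k := k) (G := G) (A := Rep.trivial k G k) n
  have := congrArg (fun φ => φ.hom f) h
  simpa [dC] using this

/-- The class in `H^n(G, k)` of an inhomogeneous `n`-cocycle `f : G^n → k`. -/
noncomputable def cls {n : ℕ} (f : (Fin n → G) → k) (hf : dC n f = 0) : Coh k G n :=
  (groupCohomology.π (Rep.trivial k G k) n).hom (cocyclesMk (A := Rep.trivial k G k) f hf)

lemma exists_cls {n : ℕ} (x : Coh k G n) :
    ∃ (f : (Fin n → G) → k) (hf : dC n f = 0), cls f hf = x := by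
  induction x using groupCohomology_induction_on with
  | h z =>
    have hz : dC n ((iCocycles (Rep.trivial k G k) n).hom z) = 0 := by
      have h := HomologicalComplex.iCycles_d
        (groupCohomology.inhomogeneousCochains (Rep.trivial k G k)) n (n+1)
      have := congrArg (fun φ => φ.hom z) h
      simpa [dC] using this
    refine ⟨(iCocycles (Rep.trivial k G k) n).hom z, hz, ?_⟩
    unfold cls
    congr 1
    apply (ModuleCat.mono_iff_injective (iCocycles (Rep.trivial k G k) n)).1 inferInstance
    exact iCocycles_mk (A := Rep.trivial k G k) _ hz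

lemma cls_eq_zero_iff {n : ℕ} (f : (Fin n → G) → k) (hf : dC n f = 0) :
    cls f hf = 0 ↔ f ∈ LinearMap.range
      ((groupCohomology.inhomogeneousCochains (Rep.trivial k G k)).d
        ((ComplexShape.up ℕ).prev n) n).hom := by
  set K := groupCohomology.inhomogeneousCochains (Rep.trivial k G k) with hK
  have h1 := ShortComplex.moduleCat_pOpcycles_eq_zero_iff (K.sc n) f
  refine Iff.trans ?_ h1
  have h2 : (K.homologyι n).hom (cls f hf) = (K.sc n).pOpcycles.hom f := by
    have h3 : K.homologyπ n ≫ K.homologyι n = K.iCycles n ≫ K.pOpcycles n := K.homology_π_ι n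
    have := congrArg (fun φ => φ.hom (cocyclesMk (A := Rep.trivial k G k) f hf)) h3
    have h4 := iCocycles_mk (A := Rep.trivial k G k) f hf
    simp only [ModuleCat.hom_comp, LinearMap.comp_apply] at this
    refine this.trans ?_
    change (K.pOpcycles n).hom _ = (K.pOpcycles n).hom _
    congr 1
  constructor
  · intro h
    change (K.sc n).pOpcycles.hom f = 0
    rw [← h2, h]
    exact map_zero (K.homologyι n).hom
  · intro h
    apply (ModuleCat.mono_iff_injective (K.homologyι n)).1 inferInstance
    change (K.homologyι n).hom _ = (K.homologyι n).hom _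
    rw [h2]
    exact h.trans (map_zero (K.homologyι n).hom).symm

lemma cls_zero_degree {f : (Fin 0 → G) → k} {hf : dC 0 f = 0} (h : cls f hf = 0) : f = 0 := by
  rw [cls_eq_zero_iff] at h
  obtain ⟨g, hg⟩ := h
  rw [← hg]
  rw [HomologicalComplex.shape]
  · rfl
  · simp

lemma cls_succ_eq_zero_iff {n : ℕ} {f : (Fin (n+1) → G) → k} {hf : dC (n+1) f = 0} :
    cls f hf = 0 ↔ ∃ f' : (Fin n → G) → k, dC n f' = f := by
  rw [cls_eq_zero_iff]
  rw [CochainComplex.prev_nat_succ]
  rw [inhomogeneousCochains.d_def]
  rfl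

/-- A class is zero if it is a coboundary, up to a cast of the degree. -/
lemma cls_eq_zero_of_cast {m n : ℕ} (h : n = m + 1) {f : (Fin n → G) → k} {hf : dC n f = 0}
    (f' : (Fin m → G) → k)
    (hf' : ∀ x : Fin (m + 1) → G, f (fun i => x (Fin.cast h i)) = dC m f' x) : cls f hf = 0 := by
  subst h
  rw [cls_succ_eq_zero_iff]
  refine ⟨f', ?_⟩
  funext x
  rw [← hf' x]
  rfl

lemma cls_congr {n : ℕ} {f g : (Fin n → G) → k} (hf : dC n f = 0) (hg : dC n g = 0) (h : f = g) :
    cls f hf = cls g hg := by
  subst h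
  rfl

lemma cls_add {n : ℕ} {f g : (Fin n → G) → k} (hf : dC n f = 0) (hg : dC n g = 0) :
    cls (f + g) (by rw [map_add, hf, hg, add_zero]) = cls f hf + cls g hg := by
  unfold cls
  refine Eq.trans ?_ (map_add _ _ _)
  congr 1
  apply (ModuleCat.mono_iff_injective (iCocycles (Rep.trivial k G k) n)).1 inferInstance
  refine (iCocycles_mk (A := Rep.trivial k G k) _ _).trans ?_
  refine Eq.trans ?_ (map_add _ _ _).symm
  exact congrArg₂ (· + ·) (iCocycles_mk (A := Rep.trivial k G k) f hf).symm
    (iCocycles_mk (A := Rep.trivial k G k) g hg).symm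

lemma cls_smul {n : ℕ} (c : k) {f : (Fin n → G) → k} (hf : dC n f = 0) :
    cls (c • f) (by rw [map_smul, hf, smul_zero]) = c • cls f hf := by
  unfold cls
  refine Eq.trans ?_ (map_smul _ _ _)
  congr 1
  apply (ModuleCat.mono_iff_injective (iCocycles (Rep.trivial k G k) n)).1 inferInstance
  refine (iCocycles_mk (A := Rep.trivial k G k) _ _).trans ?_
  refine Eq.trans ?_ (map_smul _ _ _).symm
  exact congrArg (c • ·) (iCocycles_mk (A := Rep.trivial k G k) f hf).symm

lemma cls_zero {n : ℕ} : cls (0 : (Fin n → G) → k) (map_zero _) = 0 := by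
  rw [cls_eq_zero_iff]
  exact Submodule.zero_mem _

lemma cls_sub {n : ℕ} {f g : (Fin n → G) → k} (hf : dC n f = 0) (hg : dC n g = 0) :
    cls (f - g) (by rw [map_sub, hf, hg, sub_zero]) = cls f hf - cls g hg := by
  rw [eq_sub_iff_add_eq, ← cls_add]
  exact cls_congr _ _ (sub_add_cancel _ _)

/-- The cup product of cochains with trivial coefficients:
`(f ∪ g)(x_1, …, x_{p+q}) = f(x_1, …, x_p) g(x_{p+1}, …, x_{p+q})`. -/
def cupC {p q : ℕ} (f : (Fin p → G) → k) (g : (Fin q → G) → k) : (Fin (p + q) → G) → k :=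
  fun x => f (fun i => x (Fin.castAdd q i)) * g (fun j => x (Fin.natAdd p j))

/-- The Leibniz rule. -/
lemma dC_cupC {p q : ℕ} (f : (Fin p → G) → k) (g : (Fin q → G) → k) (x : Fin (p + q + 1) → G) :
    dC (p + q) (cupC f g) x =
      cupC (dC p f) g (fun i => x (Fin.cast (by omega) i)) + (-1) ^ p * cupC f (dC q g) x := by
  simp only [cupC, dC_apply]
  have e1 : ∀ j : Fin p, (fun i => Fin.contractNth (Fin.castAdd (q+1) j : Fin (p + (q + 1)))
      (· * ·) x (Fin.castAdd q i)) = Fin.contractNth (Fin.castSucc j) (· * ·)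
      (fun i : Fin (p+1) => x (Fin.cast (by omega : p + 1 + q = p + q + 1) (Fin.castAdd q i))) := by
    intro j
    ext i
    simp only [Fin.contractNth]
    rfl
  have e2 : ∀ j : Fin p, (fun i => Fin.contractNth (Fin.castAdd (q+1) j : Fin (p + (q + 1)))
      (· * ·) x (Fin.natAdd p i)) =
      (fun i : Fin q => x (Fin.cast (by omega : p + 1 + q = p + q + 1) (Fin.natAdd (p+1) i))) := by
    intro j
    ext i
    rw [Fin.contractNth_apply_of_gt]
    · congr 1
      ext
      simp
      omega
    · simp
      omega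
  have e3 : ∀ j : Fin (q+1), (fun i => Fin.contractNth (Fin.natAdd p j : Fin (p + (q + 1)))
      (· * ·) x (Fin.castAdd q i)) = (fun i : Fin p => x (Fin.castAdd (q+1) i)) := by
    intro j
    ext i
    rw [Fin.contractNth_apply_of_lt]
    · rfl
    · simp
      omega
  have e4 : ∀ j : Fin (q+1), (fun i => Fin.contractNth (Fin.natAdd p j : Fin (p + (q + 1)))
      (· * ·) x (Fin.natAdd p i)) =
      Fin.contractNth j (· * ·) (fun i : Fin (q+1) => x (Fin.natAdd p i)) := by
    intro j
    ext i
    simp only [Fin.contractNth, Fin.val_natAdd, add_lt_add_iff_left, add_right_inj]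
    rfl
  rw [show (∑ j : Fin (p + q + 1), (-1 : k) ^ ((j : ℕ) + 1) *
      (f (fun i => Fin.contractNth j (· * ·) x (Fin.castAdd q i)) *
        g (fun i => Fin.contractNth j (· * ·) x (Fin.natAdd p i)))) =
    (∑ j : Fin (p + (q + 1)), (-1 : k) ^ ((j : ℕ) + 1) *
      (f (fun i => Fin.contractNth (j : Fin (p + q + 1)) (· * ·) x (Fin.castAdd q i)) *
        g (fun i => Fin.contractNth (j : Fin (p + q + 1)) (· * ·) x (Fin.natAdd p i)))) from rfl]
  rw [Fin.sum_univ_add, Fin.sum_univ_castSucc (n := p)]
  simp only [e1, e2, e3, e4]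
  have e5 : Fin.contractNth (Fin.last p) (· * ·)
      (fun i : Fin (p+1) => x (Fin.cast (by omega : p + 1 + q = p + q + 1) (Fin.castAdd q i))) =
      fun i : Fin p => x (Fin.castAdd (q+1) i) := by
    ext i
    rw [Fin.contractNth_apply_of_lt]
    · rfl
    · simp
  have e6 : (fun i : Fin q => x (Fin.natAdd p i.succ)) = (fun i : Fin q =>
      x (Fin.cast (by omega : p + 1 + q = p + q + 1) (Fin.natAdd (p+1) i))) := by
    ext i
    congr 1
    ext
    simp
    omega
  have e7 : (fun i : Fin q => x (Fin.natAdd p i).succ) = (fun i : Fin q =>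
      x (Fin.cast (by omega : p + 1 + q = p + q + 1) (Fin.natAdd (p+1) i))) := by
    ext i
    congr 1
    ext
    simp
    omega
  have e8 : (fun i : Fin p => x (Fin.castAdd q i).succ) = (fun i : Fin p =>
      x (Fin.cast (by omega : p + 1 + q = p + q + 1) (Fin.castAdd q i.succ))) := by
    rfl
  rw [e5, e6, e7, e8]
  simp only [Fin.val_castAdd, Fin.val_natAdd, Fin.val_castSucc, Fin.val_last, add_mul, mul_add,
    Finset.sum_mul, Finset.mul_sum]
  have e9 : ∀ j : Fin (q+1), (-1 : k) ^ (p + (j:ℕ) + 1) *
      (f (fun i : Fin p => x (Fin.castAdd (q+1) i)) *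
        g (Fin.contractNth j (· * ·) (fun i : Fin (q+1) => x (Fin.natAdd p i)))) =
      (-1) ^ p * (f (fun i : Fin p => x (Fin.castAdd (q+1) i)) *
        ((-1) ^ ((j:ℕ) + 1) *
          g (Fin.contractNth j (· * ·) (fun i : Fin (q+1) => x (Fin.natAdd p i))))) := by
    intro j
    rw [add_assoc, pow_add]
    ring
  simp only [e9, ← mul_assoc]
  ring

omit [Group G] in
lemma cupC_zero_left {p q : ℕ} (g : (Fin q → G) → k) :
    cupC (0 : (Fin p → G) → k) g = 0 := by
  ext x; simp [cupC]

omit [Group G] in
lemma cupC_zero_right {p q : ℕ} (f : (Fin p → G) → k) :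
    cupC f (0 : (Fin q → G) → k) = 0 := by
  ext x; simp [cupC]

omit [Group G] in
lemma cupC_add_left {p q : ℕ} (f f' : (Fin p → G) → k) (g : (Fin q → G) → k) :
    cupC (f + f') g = cupC f g + cupC f' g := by
  ext x; simp [cupC, add_mul]

omit [Group G] in
lemma cupC_add_right {p q : ℕ} (f : (Fin p → G) → k) (g g' : (Fin q → G) → k) :
    cupC f (g + g') = cupC f g + cupC f g' := by
  ext x; simp [cupC, mul_add]

omit [Group G] in
lemma cupC_sub_left {p q : ℕ} (f f' : (Fin p → G) → k) (g : (Fin q → G) → k) :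
    cupC (f - f') g = cupC f g - cupC f' g := by
  ext x; simp [cupC, sub_mul]

omit [Group G] in
lemma cupC_sub_right {p q : ℕ} (f : (Fin p → G) → k) (g g' : (Fin q → G) → k) :
    cupC f (g - g') = cupC f g - cupC f g' := by
  ext x; simp [cupC, mul_sub]

lemma cupC_cocycle {p q : ℕ} {f : (Fin p → G) → k} {g : (Fin q → G) → k}
    (hf : dC p f = 0) (hg : dC q g = 0) : dC (p + q) (cupC f g) = 0 := by
  funext x
  rw [dC_cupC, hf, hg, cupC_zero_left, cupC_zero_right]
  simp

lemma cls_cupC_left {p q : ℕ} {f : (Fin p → G) → k} {g : (Fin q → G) → k}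
    (hf : dC p f = 0) (hg : dC q g = 0) (h : cls f hf = 0) :
    cls (cupC f g) (cupC_cocycle hf hg) = 0 := by
  cases p with
  | zero =>
    have h0 := cls_zero_degree h
    subst h0
    exact (cls_congr _ _ (cupC_zero_left g)).trans cls_zero
  | succ m =>
    obtain ⟨f', rfl⟩ := cls_succ_eq_zero_iff.1 h
    refine cls_eq_zero_of_cast (m := m + q) (by omega) (cupC f' g) ?_
    intro x
    rw [dC_cupC, hg, cupC_zero_right]
    simp

lemma cls_cupC_right {p q : ℕ} {f : (Fin p → G) → k} {g : (Fin q → G) → k}
    (hf : dC p f = 0) (hg : dC q g = 0) (h : cls g hg = 0) :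
    cls (cupC f g) (cupC_cocycle hf hg) = 0 := by
  cases q with
  | zero =>
    have h0 := cls_zero_degree h
    subst h0
    exact (cls_congr _ _ (cupC_zero_right f)).trans cls_zero
  | succ m =>
    obtain ⟨g', rfl⟩ := cls_succ_eq_zero_iff.1 h
    refine cls_eq_zero_of_cast (m := p + m) (by omega) ((-1 : k) ^ p • cupC f g') ?_
    intro x
    rw [map_smul]
    simp only [Pi.smul_apply, smul_eq_mul]
    rw [dC_cupC, hf, cupC_zero_left]
    simp only [Pi.zero_apply, zero_add]
    rw [← mul_assoc, ← mul_pow]
    simp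

/-- The cup product on cohomology: the class of the cup product of representing cocycles
(see `cup_cls` for the independence of the representatives). -/
noncomputable def cup {p q : ℕ} (x : Coh k G p) (y : Coh k G q) : Coh k G (p + q) :=
  cls (cupC (exists_cls x).choose (exists_cls y).choose)
    (cupC_cocycle (exists_cls x).choose_spec.choose (exists_cls y).choose_spec.choose)

lemma cup_cls {p q : ℕ} {f : (Fin p → G) → k} {g : (Fin q → G) → k}
    (hf : dC p f = 0) (hg : dC q g = 0) :
    cup (cls f hf) (cls g hg) = cls (cupC f g) (cupC_cocycle hf hg) := by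
  unfold cup
  obtain ⟨hf', hcf⟩ := (exists_cls (cls f hf)).choose_spec
  obtain ⟨hg', hcg⟩ := (exists_cls (cls g hg)).choose_spec
  set f' := (exists_cls (cls f hf)).choose
  set g' := (exists_cls (cls g hg)).choose
  have hff : dC p (f' - f) = 0 := by rw [map_sub, hf, hf', sub_zero]
  have hgg : dC q (g' - g) = 0 := by rw [map_sub, hg, hg', sub_zero]
  have h1 : cls (cupC (f' - f) g') (cupC_cocycle hff hg') = 0 :=
    cls_cupC_left hff hg' (by rw [cls_sub hf' hf, hcf, sub_self])
  have h2 : cls (cupC f (g' - g)) (cupC_cocycle hf hgg) = 0 :=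
    cls_cupC_right hf hgg (by rw [cls_sub hg' hg, hcg, sub_self])
  have h3 : cls (cupC f' g') (cupC_cocycle hf' hg') =
      cls (cupC f g') (cupC_cocycle hf hg') := by
    rw [← sub_eq_zero, ← cls_sub]
    rw [← h1]
    exact cls_congr _ _ (cupC_sub_left _ _ _).symm
  have h4 : cls (cupC f g') (cupC_cocycle hf hg') =
      cls (cupC f g) (cupC_cocycle hf hg) := by
    rw [← sub_eq_zero, ← cls_sub]
    rw [← h2]
    exact cls_congr _ _ (cupC_sub_right _ _ _).symm
  rw [h3, h4]

/-- The constant `0`-cochain. -/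
def constC (c : k) : (Fin 0 → G) → k := fun _ => c

lemma dC_constC (c : k) : dC 0 (constC c : (Fin 0 → G) → k) = 0 := by
  funext x
  rw [dC_apply]
  simp [constC]

/-- The unit class in `H^0(G, k)`. -/
noncomputable def oneCoh : Coh k G 0 := cls (constC 1) (dC_constC 1)

lemma mk_cls_eq {m n : ℕ} (h : m = n) {f : (Fin m → G) → k} {g : (Fin n → G) → k}
    (hf : dC m f = 0) (hg : dC n g = 0)
    (hfg : ∀ x : Fin n → G, f (fun i => x (Fin.cast h i)) = g x) :
    GradedMonoid.mk (A := Coh k G) m (cls f hf) = GradedMonoid.mk n (cls g hg) := by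
  subst h
  congr 1
  apply cls_congr
  ext x
  exact hfg x

noncomputable instance instGMulCoh : GradedMonoid.GMul (Coh k G) where
  mul x y := cup x y

noncomputable instance instGOneCoh : GradedMonoid.GOne (Coh k G) where
  one := oneCoh

/-- The cup product makes `n ↦ H^n(G, k)` a graded ring. -/
noncomputable instance instGRingCoh : DirectSum.GRing (Coh k G) where
  mul_zero a := by
    obtain ⟨f, hf, rfl⟩ := exists_cls a
    change cup (cls f hf) 0 = 0
    rw [← cls_zero, cup_cls]
    exact (cls_congr _ _ (cupC_zero_right f)).trans cls_zero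
  zero_mul b := by
    obtain ⟨f, hf, rfl⟩ := exists_cls b
    change cup 0 (cls f hf) = 0
    rw [← cls_zero, cup_cls]
    exact (cls_congr _ _ (cupC_zero_left f)).trans cls_zero
  mul_add a b c := by
    obtain ⟨f, hf, rfl⟩ := exists_cls a
    obtain ⟨g, hg, rfl⟩ := exists_cls b
    obtain ⟨g', hg', rfl⟩ := exists_cls c
    change cup _ _ = cup _ _ + cup _ _
    rw [← cls_add, cup_cls, cup_cls, cup_cls, ← cls_add]
    exact (cls_congr _ _ (cupC_add_right f g g'))
  add_mul a b c := by
    obtain ⟨f, hf, rfl⟩ := exists_cls a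
    obtain ⟨f', hf', rfl⟩ := exists_cls b
    obtain ⟨g, hg, rfl⟩ := exists_cls c
    change cup _ _ = cup _ _ + cup _ _
    rw [← cls_add, cup_cls, cup_cls, cup_cls, ← cls_add]
    exact (cls_congr _ _ (cupC_add_left f f' g))
  one_mul a := by
    obtain ⟨n, a⟩ := a
    obtain ⟨f, hf, rfl⟩ := exists_cls a
    change GradedMonoid.mk (0 + n) (cup oneCoh (cls f hf)) = GradedMonoid.mk n (cls f hf)
    rw [oneCoh, cup_cls]
    apply mk_cls_eq (zero_add n)
    intro x
    simp only [cupC, constC, one_mul]
    congr 1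
    ext i
    congr 1
    ext
    simp
  mul_one a := by
    obtain ⟨n, a⟩ := a
    obtain ⟨f, hf, rfl⟩ := exists_cls a
    change GradedMonoid.mk (n + 0) (cup (cls f hf) oneCoh) = GradedMonoid.mk n (cls f hf)
    rw [oneCoh, cup_cls]
    apply mk_cls_eq (add_zero n)
    intro x
    simp only [cupC, constC, mul_one]
    congr 1
  mul_assoc a b c := by
    obtain ⟨l, a⟩ := a
    obtain ⟨m, b⟩ := b
    obtain ⟨n, c⟩ := c
    obtain ⟨f, hf, rfl⟩ := exists_cls a
    obtain ⟨g, hg, rfl⟩ := exists_cls b
    obtain ⟨h, hh, rfl⟩ := exists_cls c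
    change GradedMonoid.mk (l + m + n) (cup (cup (cls f hf) (cls g hg)) (cls h hh)) =
      GradedMonoid.mk (l + (m + n)) (cup (cls f hf) (cup (cls g hg) (cls h hh)))
    simp only [cup_cls]
    apply mk_cls_eq (add_assoc l m n)
    intro x
    simp only [cupC]
    rw [mul_assoc]
    congr 2
    congr 1
    ext i
    congr 1
    ext
    simp
    omega
  natCast n := n • oneCoh
  natCast_zero := zero_smul _ _
  natCast_succ n := by
    rw [add_smul, one_smul]
    rfl
  intCast n := n • oneCoh
  intCast_ofNat n := by simp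
  intCast_negSucc_ofNat n := by
    rw [Int.negSucc_eq, neg_smul]
    congr 1
    rw [← natCast_zsmul]
    rfl

end

/-- The cohomology ring `H^•(G, k) = ⨁ H^n(G, k)` of the discrete group `G`, trivial coefficients
`k`, with the cup product. -/
def CohRing (k G : Type u) [CommRing k] [Group G] : Type u := ⨁ n, Coh k G n

/-- The ring structure on `⨁ H^n(G, k)` whose product is the cup product. -/
noncomputable instance instRingCohRing (k G : Type u) [CommRing k] [Group G] :
    Ring (CohRing k G) :=
  DirectSum.ring (Coh k G)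

/-- The ring `R` is free as a (left) module over each of its subrings. -/
def FreeOverEachSubring (R : Type u) [Ring R] : Prop :=
  ∀ A : Subring R, Module.Free A R

section restriction
variable {k G H : Type u} [CommRing k] [Group G] [Group H]

/-- The map `H^n(G, k) → H^n(H, k)` induced by a group homomorphism `φ : H → G`
(Mathlib's functoriality of group cohomology). For `φ` the inclusion of a subgroup this is the
restriction map. -/
noncomputable def resCoh (φ : H →* G) (n : ℕ) : Coh k G n →ₗ[k] Coh k H n :=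
  (groupCohomology.map (A := Rep.trivial k G k) (B := Rep.trivial k H k) φ
    (𝟙 (Rep.trivial k H k)) n).hom

/-- Every nonzero class in `H^m(G, k)` restricts nontrivially to at least one finite subgroup
of `G`. -/
def DetectedInDegree (k G : Type u) [CommRing k] [Group G] (m : ℕ) : Prop :=
  ∀ x : Coh k G m, x ≠ 0 → ∃ Γ : Subgroup G, Finite Γ ∧ resCoh Γ.subtype m x ≠ 0

/-- Every nonzero class in `H^m(G, k)`, for every degree `m`, restricts nontrivially to at least one
finite subgroup of `G`. -/
def EveryClassDetected (k G : Type u) [CommRing k] [Group G] : Prop :=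
  ∀ m : ℕ, DetectedInDegree k G m

end restriction

end Pool.Agent.Lib_helper89
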