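import Mathlib
import Pool.Agent.Lib_helper89.CohomologyRing

/-!
# Restriction maps, detection on finite subgroups, and characters of `S`-units
-/

set_option autoImplicit false

open CategoryTheory groupCohomology
open scoped DirectSum

namespace Pool.Agent.Lib_helper89

universe u

section
variable {k G H : Type u} [CommRing k] [Group G] [Group H]

lemma dC_comp (φ : H →* G) {n : ℕ} (f : (Fin n → G) → k) (x : Fin (n + 1) → H) :
    dC n (fun y : Fin n → H => f (fun i => φ (y i))) x = dC n f (fun i => φ (x i)) := by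
  rw [dC_apply, dC_apply]
  congr 1
  apply Finset.sum_congr rfl
  intro j _
  congr 2
  ext i
  simp only [Fin.contractNth]
  split_ifs <;> simp

lemma dC_comp_eq_zero (φ : H →* G) {n : ℕ} {f : (Fin n → G) → k} (hf : dC n f = 0) :
    dC n (fun y : Fin n → H => f (fun i => φ (y i))) = 0 := by
  funext x
  rw [dC_comp, hf]
  rfl

/-- The restriction map on classes of cocycles is the restriction of functions. -/
lemma resCoh_cls (φ : H →* G) {n : ℕ} {f : (Fin n → G) → k} (hf : dC n f = 0) :
    resCoh φ n (cls f hf) = cls (fun y : Fin n → H => f (fun i => φ (y i)))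
      (dC_comp_eq_zero φ hf) := by
  have h1 := groupCohomology.π_map (A := Rep.trivial k G k) (B := Rep.trivial k H k) φ
    (𝟙 (Rep.trivial k H k)) n
  have h2 := congrArg (fun ψ => ψ.hom (cocyclesMk (A := Rep.trivial k G k) f hf)) h1
  refine h2.trans ?_
  unfold cls
  simp only [ModuleCat.hom_comp, LinearMap.comp_apply]
  congr 1
  apply (ModuleCat.mono_iff_injective (iCocycles (Rep.trivial k H k) n)).1 inferInstance
  refine Eq.trans ?_ (iCocycles_mk (A := Rep.trivial k H k) _ _).symm
  have h3 := HomologicalComplex.cyclesMap_i (groupCohomology.cochainsMap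
    (A := Rep.trivial k G k) (B := Rep.trivial k H k) φ (𝟙 (Rep.trivial k H k))) n
  have h4 := congrArg (fun ψ => ψ.hom (cocyclesMk (A := Rep.trivial k G k) f hf)) h3
  refine h4.trans ?_
  simp only [ModuleCat.hom_comp, LinearMap.comp_apply]
  have h5 := iCocycles_mk (A := Rep.trivial k G k) f hf
  refine (congrArg _ h5).trans ?_
  rfl

/-- Restriction maps are multiplicative for the cup product. -/
lemma resCoh_cup (φ : H →* G) {p q : ℕ} (x : Coh k G p) (y : Coh k G q) :
    resCoh φ (p + q) (cup x y) = cup (resCoh φ p x) (resCoh φ q y) := by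
  obtain ⟨f, hf, rfl⟩ := exists_cls x
  obtain ⟨g, hg, rfl⟩ := exists_cls y
  rw [cup_cls, resCoh_cls, resCoh_cls, resCoh_cls, cup_cls]
  rfl

lemma resCoh_injective_of_section (φ : H →* G) (e : G →* H) (he : ∀ g, φ (e g) = g) (n : ℕ)
    (x : Coh k G n) (hx : resCoh φ n x = 0) : x = 0 := by
  obtain ⟨f, hf, rfl⟩ := exists_cls x
  have h1 := congrArg (resCoh e n) hx
  rw [map_zero, resCoh_cls, resCoh_cls] at h1
  rw [← h1]
  apply cls_congr
  funext y
  simp only [he]

/-- A character of `G` with values in `k` killing all elements of finite order, and nonzero,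
gives an undetected nonzero class in `H^1(G, k)`. -/
lemma not_detected_of_char (χ : G → k) (hmul : ∀ g h, χ (g * h) = χ g + χ h)
    (hne : ∃ g, χ g ≠ 0) (hfin : ∀ g, IsOfFinOrder g → χ g = 0) :
    ∃ x : Coh k G 1, x ≠ 0 ∧ ∀ Γ : Subgroup G, Finite Γ → resCoh Γ.subtype 1 x = 0 := by
  have hd : dC 1 (fun y : Fin 1 → G => χ (y 0)) = 0 := by
    funext x
    rw [dC_apply, Fin.sum_univ_two]
    simp only [Fin.contractNth]
    simp [hmul]
  refine ⟨cls _ hd, ?_, ?_⟩
  · rw [Ne, cls_succ_eq_zero_iff]
    rintro ⟨f', hf'⟩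
    obtain ⟨g, hg⟩ := hne
    apply hg
    have h1 := congrFun hf' (fun _ => g)
    rw [dC_apply] at h1
    rw [Fin.sum_univ_one] at h1
    rw [← h1]
    have h2 : (fun i : Fin 0 => (fun _ : Fin 1 => g) i.succ) =
      Fin.contractNth (0 : Fin 1) (· * ·) (fun _ : Fin 1 => g) := by
      ext i
      exact i.elim0
    rw [h2]
    simp
  · intro Γ hΓ
    rw [resCoh_cls]
    refine (cls_congr _ (map_zero _) ?_).trans cls_zero
    funext y
    apply hfin
    have h1 : IsOfFinOrder (y 0) := isOfFinOrder_of_finite _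
    exact MonoidHom.isOfFinOrder Γ.subtype h1

lemma detected_of_subsingleton [Subsingleton G] (m : ℕ) : DetectedInDegree k G m := by
  intro x hx
  refine ⟨⊤, inferInstance, ?_⟩
  intro h
  apply hx
  exact resCoh_injective_of_section (⊤ : Subgroup G).subtype
    ((Subgroup.topEquiv (G := G)).symm.toMonoidHom) (fun g => rfl) m x h

end

section triv
variable {G : Type} [Group G] [Subsingleton G] (ℓ : ℕ) [hℓ : Fact ℓ.Prime]

lemma mem_subring_of_subsingleton (A : Subring (⨁ n, Coh (ZMod ℓ) G n))
    (x : ⨁ n, Coh (ZMod ℓ) G n) : x ∈ A := by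
  induction x using DirectSum.induction_on with
  | zero => exact A.zero_mem
  | add x y hx hy => exact A.add_mem hx hy
  | of i x =>
    cases i with
    | zero =>
      obtain ⟨f, hf, rfl⟩ := exists_cls x
      have h1 : cls f hf = (f default).val • (oneCoh : Coh (ZMod ℓ) G 0) := by
        have h2 : cls f hf = cls ((f default) • constC 1)
            (by rw [map_smul, dC_constC, smul_zero]) := by
          apply cls_congr
          funext y
          rw [Subsingleton.elim y default]
          simp [constC]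
        rw [h2, cls_smul (f default) (dC_constC 1)]
        change f default • (oneCoh : Coh (ZMod ℓ) G 0) = _
        conv_lhs => rw [← ZMod.natCast_zmod_val (f default)]
        rw [Nat.cast_smul_eq_nsmul]
      rw [h1, map_nsmul]
      apply A.nsmul_mem
      exact A.one_mem
    | succ n =>
      have h1 : Subsingleton (Coh (ZMod ℓ) G (n + 1)) :=
        ModuleCat.subsingleton_of_isZero
          (isZero_groupCohomology_succ_of_subsingleton (Rep.trivial (ZMod ℓ) G (ZMod ℓ)) n)
      rw [Subsingleton.elim x 0, map_zero]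
      exact A.zero_mem

omit ℓ hℓ in
lemma free_of_forall_mem {R : Type} [Ring R] (h : ∀ (A : Subring R) (x : R), x ∈ A) :
    FreeOverEachSubring R := by
  intro A
  let f : A →ₗ[A] R :=
    { toFun := fun a : A => a.val
      map_add' := fun _ _ => rfl
      map_smul' := fun _ _ => rfl }
  have hf : Function.Bijective f :=
    ⟨fun _ _ h => Subtype.ext h, fun x => ⟨Subtype.mk x (h A x), rfl⟩⟩
  exact Module.Free.of_equiv (LinearEquiv.ofBijective f hf)

lemma free_of_subsingleton : FreeOverEachSubring (CohRing (ZMod ℓ) G) :=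
  free_of_forall_mem (fun A x => mem_subring_of_subsingleton ℓ A x)

end triv

section NT
open IsDedekindDomain NumberField

lemma exists_place_above (K : Type) [Field K] [NumberField K] (ℓ : ℕ) [hℓ : Fact ℓ.Prime] :
    ∃ v : HeightOneSpectrum (𝓞 K), (ℓ : 𝓞 K) ∈ v.asIdeal := by
  have hnu : ¬ IsUnit (ℓ : 𝓞 K) := by
    intro h
    have h1 := (NumberField.isUnit_iff_norm).1 h
    have h2 : RingOfIntegers.norm ℚ (ℓ : 𝓞 K) = (ℓ : 𝓞 ℚ) ^ (Module.finrank ℚ K) := by
      apply RingOfIntegers.ext
      rw [RingOfIntegers.coe_norm]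
      have : ((ℓ : 𝓞 K) : K) = algebraMap ℚ K ℓ := by simp
      rw [this, Algebra.norm_algebraMap]
      simp
    rw [h2] at h1
    simp only [map_pow, map_natCast] at h1
    have h3 : 1 < ((ℓ : ℚ)) ^ (Module.finrank ℚ K) := by
      apply one_lt_pow₀
      · exact_mod_cast hℓ.out.one_lt
      · exact Module.finrank_pos.ne'
    rw [abs_of_pos (lt_trans one_pos h3)] at h1
    rw [h1] at h3
    exact lt_irrefl _ h3
  obtain ⟨M, hM, hmem⟩ := exists_max_ideal_of_mem_nonunits hnu
  refine ⟨⟨M, hM.isPrime, ?_⟩, hmem⟩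
  intro hbot
  rw [hbot, Ideal.mem_bot] at hmem
  exact hℓ.out.ne_zero (by exact_mod_cast hmem)

lemma exists_char {U : Type*} [AddGroup U] (w : U →+ ℤ) (hw : ∃ u, w u ≠ 0) (ℓ : ℕ)
    [hℓ : Fact ℓ.Prime] :
    ∃ χ : U →+ ZMod ℓ, (∃ u, χ u ≠ 0) ∧ ∀ u, w u = 0 → χ u = 0 := by
  obtain ⟨d, hd⟩ := Int.subgroup_cyclic w.range
  have hd0 : d ≠ 0 := by
    rintro rfl
    obtain ⟨u, hu⟩ := hw
    have : w u ∈ w.range := ⟨u, rfl⟩
    rw [hd, AddSubgroup.closure_singleton_zero, AddSubgroup.mem_bot] at this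
    exact hu this
  have hdvd : ∀ u, d ∣ w u := by
    intro u
    have : w u ∈ w.range := ⟨u, rfl⟩
    rw [hd, AddSubgroup.mem_closure_singleton] at this
    obtain ⟨n, hn⟩ := this
    exact ⟨n, by rw [← hn]; simp [mul_comm]⟩
  refine ⟨{ toFun := fun u => ((w u / d : ℤ) : ZMod ℓ), map_zero' := by simp,
            map_add' := ?_ }, ?_, ?_⟩
  · intro x y
    rw [map_add, Int.add_ediv_of_dvd_left (hdvd x)]
    push_cast
    rfl
  · have : d ∈ w.range := by rw [hd]; exact AddSubgroup.subset_closure rfl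
    obtain ⟨u, hu⟩ := this
    refine ⟨u, ?_⟩
    simp only [AddMonoidHom.coe_mk, ZeroHom.coe_mk, hu, Int.ediv_self hd0]
    simp
  · intro u hu
    simp [hu]

/-- The valuation at `v` as an additive character of the unit group of the `S`-integers. -/
noncomputable def valChar {R : Type*} [CommRing R] [IsDedekindDomain R] {K : Type*} [Field K]
    [Algebra R K] [IsFractionRing R K] (S : Set (HeightOneSpectrum R)) (v : HeightOneSpectrum R) :
    Additive (S.integer K)ˣ →+ ℤ :=
  MonoidHom.toAdditiveLeft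
    ((WithZero.unitsWithZeroEquiv (α := Multiplicative ℤ)).toMonoidHom.comp
      ((Units.map ((v.valuation K).toMonoidWithZeroHom : K →* WithZero (Multiplicative ℤ))).comp
        (Units.map (algebraMap (S.integer K) K : _ →* K))))

lemma valChar_eq_zero_iff {R : Type*} [CommRing R] [IsDedekindDomain R] {K : Type*} [Field K]
    [Algebra R K] [IsFractionRing R K] (S : Set (HeightOneSpectrum R)) (v : HeightOneSpectrum R)
    (u : (S.integer K)ˣ) :
    valChar (K := K) S v (Additive.ofMul u) = 0 ↔ v.valuation K ((u : S.integer K) : K) = 1 := by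
  unfold valChar
  constructor
  · intro h
    have h1 : (WithZero.unitsWithZeroEquiv (α := Multiplicative ℤ))
      ((Units.map ((v.valuation K).toMonoidWithZeroHom : K →* WithZero (Multiplicative ℤ)))
        (Units.map (algebraMap (S.integer K) K : _ →* K) u)) = 1 := h
    rw [EmbeddingLike.map_eq_one_iff] at h1
    have h2 := congrArg Units.val h1
    exact h2
  · intro h
    have h1 : (Units.map ((v.valuation K).toMonoidWithZeroHom : K →* WithZero (Multiplicative ℤ)))
        (Units.map (algebraMap (S.integer K) K : _ →* K) u) = 1 := by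
      ext
      exact h
    change (WithZero.unitsWithZeroEquiv (α := Multiplicative ℤ))
      ((Units.map ((v.valuation K).toMonoidWithZeroHom : K →* WithZero (Multiplicative ℤ)))
        (Units.map (algebraMap (S.integer K) K : _ →* K) u)) = 1
    rw [h1, map_one]

/-- If `S` contains all places above `ℓ`, there is a nonzero character `χ` of the `S`-units with
values in `ℤ/ℓ` that kills all roots of unity. -/
lemma exists_unit_char (K : Type) [Field K] [NumberField K] (ℓ : ℕ) [hℓ : Fact ℓ.Prime]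
    (S : Set (HeightOneSpectrum (𝓞 K)))
    (hS : ∀ v : HeightOneSpectrum (𝓞 K), (ℓ : 𝓞 K) ∈ v.asIdeal → v ∈ S) :
    ∃ χ : Additive (S.integer K)ˣ →+ ZMod ℓ, (∃ u, χ u ≠ 0) ∧
      ∀ u : (S.integer K)ˣ, IsOfFinOrder u → χ (Additive.ofMul u) = 0 := by
  obtain ⟨v, hv⟩ := exists_place_above K ℓ
  have hℓK : (ℓ : K) ≠ 0 := by exact_mod_cast hℓ.out.ne_zero
  have hmem : ((ℓ : K))⁻¹ ∈ S.integer K := by
    intro w hw
    have hnot : (ℓ : 𝓞 K) ∉ w.asIdeal := fun h => hw (hS w h)
    have : w.valuation K (algebraMap (𝓞 K) K (ℓ : 𝓞 K)) = 1 :=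
      w.valuation_eq_one_iff_notMem.2 hnot
    rw [map_natCast] at this
    rw [map_inv₀, this, inv_one]
  let u : (S.integer K)ˣ :=
    { val := (ℓ : S.integer K)
      inv := ⟨_, hmem⟩
      val_inv := by
        apply Subtype.ext
        simp [hℓK]
      inv_val := by
        apply Subtype.ext
        simp [hℓK] }
  have hu : valChar (K := K) S v (Additive.ofMul u) ≠ 0 := by
    rw [Ne, valChar_eq_zero_iff]
    have : v.valuation K (algebraMap (𝓞 K) K (ℓ : 𝓞 K)) < 1 :=
      (v.valuation_lt_one_iff_mem _).2 hv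
    rw [map_natCast] at this
    intro h
    have h' : v.valuation K (ℓ : K) = 1 := by
      simpa [u] using h
    rw [h'] at this
    exact lt_irrefl _ this
  obtain ⟨χ, hχ1, hχ2⟩ := exists_char (valChar (K := K) S v) ⟨_, hu⟩ ℓ
  refine ⟨χ, hχ1, ?_⟩
  intro t ht
  apply hχ2
  rw [isOfFinOrder_iff_pow_eq_one] at ht
  obtain ⟨n, hn, hpow⟩ := ht
  have h1 : n • valChar (K := K) S v (Additive.ofMul t) = 0 := by
    rw [← map_nsmul, ← ofMul_pow, hpow]
    simp
  rw [smul_eq_zero] at h1
  rcases h1 with h1 | h1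
  · omega
  · exact h1

/-- For `n ≥ 1` there is a nonzero class in `H^1(GL_n(O_{K,S}), F_ℓ)` whose restriction to every
finite subgroup vanishes. -/
lemma exists_undetected (K : Type) [Field K] [NumberField K] (ℓ : ℕ) [hℓ : Fact ℓ.Prime]
    (S : Set (HeightOneSpectrum (𝓞 K)))
    (hS : ∀ v : HeightOneSpectrum (𝓞 K), (ℓ : 𝓞 K) ∈ v.asIdeal → v ∈ S)
    (n : ℕ) (hn : 0 < n) :
    ∃ x : Coh (ZMod ℓ) (GL (Fin n) (S.integer K)) 1, x ≠ 0 ∧
      ∀ Γ : Subgroup (GL (Fin n) (S.integer K)), Finite Γ → resCoh Γ.subtype 1 x = 0 := by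
  obtain ⟨χ, ⟨u, hu⟩, hχ⟩ := exists_unit_char K ℓ S hS
  have : Nonempty (Fin n) := ⟨⟨0, hn⟩⟩
  apply not_detected_of_char (fun g => χ (Additive.ofMul (Matrix.GeneralLinearGroup.det g)))
  · intro g h
    rw [map_mul, ofMul_mul, map_add]
  · obtain ⟨g, hg⟩ := Matrix.GeneralLinearGroup.det_surjective (n := Fin n) (Additive.toMul u)
    exact ⟨g, by rw [hg]; exact hu⟩
  · intro g hg
    exact hχ _ (MonoidHom.isOfFinOrder (Matrix.GeneralLinearGroup.det (n := Fin n)) hg)

end NT

end Pool.Agent.Lib_helper89
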