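import Mathlib
import Pool.Agent.Lib_helper89.Detection

set_option autoImplicit false

open scoped DirectSum

namespace Pool.Agent.Lib_helper89

universe u

section seq
variable {k G : Type u} [CommRing k] [Group G]

/-- Evaluate an `n`-cochain on (the first `n` entries of) a sequence. -/
def ev {n : ℕ} (θ : (Fin n → G) → k) (x : ℕ → G) : k := θ (fun i => x i)

/-- contraction of the entries `j`, `j+1` of a sequence. -/
def con (j : ℕ) (x : ℕ → G) : ℕ → G := fun p =>
  if p < j then x p else if p = j then x p * x (p + 1) else x (p + 1)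

/-- insertion of `u` at the position `i`. -/
def ins (u : G) (i : ℕ) (x : ℕ → G) : ℕ → G := fun p =>
  if p < i then x p else if p = i then u else x (p - 1)

lemma ev_dC {n : ℕ} (θ : (Fin n → G) → k) (x : ℕ → G) :
    ev (dC n θ) x = ev θ (fun p => x (p + 1)) +
      ∑ j ∈ Finset.range (n + 1), (-1 : k) ^ (j + 1) * ev θ (con j x) := by
  unfold ev
  rw [dC_apply, Finset.sum_range]
  rfl

omit [CommRing k] [Group G] in
lemma ev_congr {n : ℕ} (θ : (Fin n → G) → k) {x y : ℕ → G} (h : ∀ p < n, x p = y p) :
    ev θ x = ev θ y := by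
  unfold ev
  congr 1
  ext i
  exact h i i.2

omit [CommRing k] [Group G] in
lemma eq_of_ev {n : ℕ} [Nonempty G] {θ θ' : (Fin n → G) → k} (h : ∀ x, ev θ x = ev θ' x) : θ = θ' := by
  funext x
  obtain ⟨g⟩ := (inferInstance : Nonempty G)
  have := h (fun p => if hp : p < n then x ⟨p, hp⟩ else g)
  unfold ev at this
  simpa using this

/-- The signed sum over all insertions of `u`. -/
def iota (u : G) (n : ℕ) (θ : (Fin (n + 1) → G) → k) : (Fin n → G) → k := fun x =>
  ∑ i ∈ Finset.range (n + 1), (-1 : k) ^ i *
    ev θ (ins u i (fun p => if hp : p < n then x ⟨p, hp⟩ else 1))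

lemma ev_iota (u : G) {n : ℕ} (θ : (Fin (n + 1) → G) → k) (x : ℕ → G) :
    ev (iota u n θ) x = ∑ i ∈ Finset.range (n + 1), (-1 : k) ^ i * ev θ (ins u i x) := by
  unfold iota
  rw [ev]
  apply Finset.sum_congr rfl
  intro i hi
  congr 1
  apply ev_congr
  intro p hp
  simp only [Finset.mem_range] at hi
  simp only [ins]
  split_ifs with h1 h2 h3 h4
  · rfl
  · omega
  · rfl
  · rfl
  · omega

omit [Group G] in
lemma double_sum (a L : ℕ → ℕ → k) (c : ℕ → k)
    (h1 : ∀ i j, j + 1 < i → L i j = a (i - 1) j)
    (h2 : ∀ j, L (j + 1) j = c j) (h3 : ∀ j, L j j = c j)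
    (h4 : ∀ i j, i < j → L i j = a i (j - 1)) (N : ℕ) :
    ∑ i ∈ Finset.range (N + 1), ∑ j ∈ Finset.range (N + 1), (-1 : k) ^ (i + j + 1) * L i j =
      - (∑ i ∈ Finset.range N, ∑ j ∈ Finset.range N, (-1 : k) ^ (i + j + 1) * a i j) - c N := by
  induction N with
  | zero => simp [h3]
  | succ N ih =>
    rw [Finset.sum_range_succ]
    simp_rw [Finset.sum_range_succ _ (N + 1)]
    rw [Finset.sum_add_distrib, ih]
    rw [Finset.sum_range_succ (fun i => ∑ j ∈ Finset.range (N + 1), (-1 : k) ^ (i + j + 1) * a i j) N]
    simp_rw [Finset.sum_range_succ _ N]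
    rw [Finset.sum_add_distrib]
    rw [h3, h2]
    have e1 : ∀ i ∈ Finset.range N, (-1 : k) ^ (i + (N + 1) + 1) * L i (N + 1) =
        - ((-1 : k) ^ (i + N + 1) * a i N) := by
      intro i hi
      rw [Finset.mem_range] at hi
      rw [h4 i (N + 1) (by omega)]
      simp only [Nat.add_sub_cancel]
      ring
    have e2 : ∀ j ∈ Finset.range N, (-1 : k) ^ (N + 1 + j + 1) * L (N + 1) j =
        - ((-1 : k) ^ (N + j + 1) * a N j) := by
      intro j hj
      rw [Finset.mem_range] at hj
      rw [h1 (N + 1) j (by omega)]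
      simp only [Nat.add_sub_cancel]
      ring
    rw [Finset.sum_congr rfl e1, Finset.sum_congr rfl e2]
    rw [h4 N (N + 1) (by omega)]
    simp only [Nat.add_sub_cancel, Finset.sum_neg_distrib]
    have e3 : (-1 : k) ^ (N + 1 + N + 1) = 1 := by
      rw [show N + 1 + N + 1 = 2 * (N + 1) by ring, pow_mul]; simp
    have e4 : (-1 : k) ^ (N + 1 + (N + 1) + 1) = -1 := by
      rw [show N + 1 + (N + 1) + 1 = 2 * (N + 1) + 1 by ring, pow_add, pow_mul]; simp
    have e5 : (-1 : k) ^ (N + (N + 1) + 1) = 1 := by
      rw [show N + (N + 1) + 1 = 2 * (N + 1) by ring, pow_mul]; simp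
    have e6 : (-1 : k) ^ (N + N + 1) = -1 := by
      rw [show N + N + 1 = 2 * N + 1 by ring, pow_add, pow_mul]; simp
    rw [e3, e4, e5, e6]
    ring

lemma con_ins_lt (u : G) (x : ℕ → G) (i j : ℕ) (h : j + 1 < i) :
    con j (ins u i x) = ins u (i - 1) (con j x) := by
  funext p
  simp only [ins, con]
  rcases lt_trichotomy p j with hp | hp | hp
  · simp [hp, show p < i by omega, show p < i - 1 by omega]
  · subst hp
    simp [show p < i by omega, show p + 1 < i by omega, show p < i - 1 by omega]
  · rcases lt_trichotomy (p + 1) i with hq | hq | hq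
    · simp [show ¬ p < j by omega, show ¬ p = j by omega, hq, show p < i - 1 by omega]
    · subst hq
      simp [show ¬ p < j by omega, show ¬ p = j by omega]
    · simp [show ¬ p < j by omega, show ¬ p = j by omega, show ¬ p + 1 < i by omega, show ¬ p + 1 = i by omega,
        show ¬ p < i - 1 by omega, show ¬ p = i - 1 by omega, show ¬ p - 1 < j by omega, show ¬ p - 1 = j by omega]
      congr 1
      omega

lemma con_ins_gt (u : G) (x : ℕ → G) (i j : ℕ) (h : i < j) :
    con j (ins u i x) = ins u i (con (j - 1) x) := by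
  funext p
  simp only [ins, con]
  rcases lt_trichotomy p i with hp | hp | hp
  · simp [hp, show p < j by omega, show p < j - 1 by omega]
  · subst hp
    simp [show p < j by omega]
  · rcases lt_trichotomy p j with hq | hq | hq
    · simp [hq, show ¬ p < i by omega, show ¬ p = i by omega, show p - 1 < j - 1 by omega]
    · subst hq
      simp [show ¬ p < i by omega, show ¬ p = i by omega, show ¬ p + 1 < i by omega, show ¬ p + 1 = i by omega, show p - 1 + 1 = p by omega]
    · simp [show ¬ p < j by omega, show ¬ p = j by omega, show ¬ p < i by omega, show ¬ p = i by omega,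
        show ¬ p + 1 < i by omega, show ¬ p + 1 = i by omega,
        show ¬ p - 1 < j - 1 by omega, show ¬ p - 1 = j - 1 by omega, show p - 1 + 1 = p by omega]

lemma con_ins_self (u : G) (x : ℕ → G) (j : ℕ) :
    con j (ins u j x) = fun p => if p = j then u * x p else x p := by
  funext p
  simp only [ins, con]
  rcases lt_trichotomy p j with hp | hp | hp
  · simp [hp, show ¬ p = j by omega]
  · subst hp
    simp
  · simp [show ¬ p < j by omega, show ¬ p = j by omega, show ¬ p + 1 < j by omega, show ¬ p + 1 = j by omega]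

lemma con_ins_succ (u : G) (hu : ∀ g, g * u = u * g) (x : ℕ → G) (j : ℕ) :
    con j (ins u (j + 1) x) = fun p => if p = j then u * x p else x p := by
  funext p
  simp only [ins, con]
  rcases lt_trichotomy p j with hp | hp | hp
  · simp [hp, show ¬ p = j by omega, show p < j + 1 by omega]
  · subst hp
    simp [hu]
  · simp [show ¬ p < j by omega, show ¬ p = j by omega]

/-- The homotopy identity. -/
lemma iota_dC (u : G) (hu : ∀ g, g * u = u * g) (n : ℕ) (θ : (Fin (n + 1) → G) → k) :
    iota u (n + 1) (dC (n + 1) θ) = - dC n (iota u n θ) := by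
  apply eq_of_ev
  intro x
  have hneg : ev (- dC n (iota u n θ)) x = - ev (dC n (iota u n θ)) x := rfl
  rw [hneg, ev_iota, ev_dC, ev_iota]
  simp_rw [ev_dC, ev_iota]
  simp_rw [mul_add, Finset.mul_sum]
  rw [Finset.sum_add_distrib]
  have hshift : ∑ i ∈ Finset.range (n + 1 + 1), (-1 : k) ^ i * ev θ (fun p => ins u i x (p + 1)) =
      ev θ x - ∑ i ∈ Finset.range (n + 1), (-1 : k) ^ i * ev θ (ins u i (fun p => x (p + 1))) := by
    rw [Finset.sum_range_succ']
    have e0 : (fun p => ins u 0 x (p + 1)) = x := by
      funext p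
      simp [ins]
    have e1 : ∀ i, (fun p => ins u (i + 1) x (p + 1)) = ins u i (fun p => x (p + 1)) := by
      intro i
      funext p
      simp only [ins]
      split_ifs with h1 h2 h3 h4 h5 <;> first | rfl | omega | (congr 1; omega)
    simp only [e0, e1, pow_zero, one_mul]
    have e2 : ∀ i ∈ Finset.range (n + 1), (-1 : k) ^ (i + 1) * ev θ (ins u i (fun p => x (p + 1))) =
        - ((-1 : k) ^ i * ev θ (ins u i (fun p => x (p + 1)))) := by
      intro i _
      ring
    rw [Finset.sum_congr rfl e2, Finset.sum_neg_distrib]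
    ring
  rw [hshift]
  have hdouble := double_sum (fun i j => ev θ (ins u i (con j x))) (fun i j => ev θ (con j (ins u i x)))
    (fun j => ev θ (fun p => if p = j then u * x p else x p)) ?_ ?_ ?_ ?_ (n + 1)
  · have e3 : ∑ i ∈ Finset.range (n + 1 + 1), ∑ j ∈ Finset.range (n + 1 + 1),
        (-1 : k) ^ i * ((-1) ^ (j + 1) * ev θ (con j (ins u i x))) =
        ∑ i ∈ Finset.range (n + 1 + 1), ∑ j ∈ Finset.range (n + 1 + 1),
        (-1 : k) ^ (i + j + 1) * ev θ (con j (ins u i x)) := by
      apply Finset.sum_congr rfl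
      intro i _
      apply Finset.sum_congr rfl
      intro j _
      ring
    rw [e3, hdouble]
    have e4 : ev θ (fun p => if p = n + 1 then u * x p else x p) = ev θ x := by
      apply ev_congr
      intro p hp
      rw [if_neg (by omega)]
    rw [e4]
    have e5 : ∑ j ∈ Finset.range (n + 1), ∑ i ∈ Finset.range (n + 1),
        (-1 : k) ^ (j + 1) * ((-1) ^ i * ev θ (ins u i (con j x))) =
        ∑ i ∈ Finset.range (n + 1), ∑ j ∈ Finset.range (n + 1),
        (-1 : k) ^ (i + j + 1) * ev θ (ins u i (con j x)) := by
      rw [Finset.sum_comm]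
      apply Finset.sum_congr rfl
      intro i _
      apply Finset.sum_congr rfl
      intro j _
      ring
    rw [e5]
    ring
  · intro i j hij
    rw [con_ins_lt u x i j hij]
  · intro j
    rw [con_ins_succ u hu x j]
  · intro j
    rw [con_ins_self u x j]
  · intro i j hij
    rw [con_ins_gt u x i j hij]

/-- transport of cochains along an equality of degrees. -/
def castC {m n : ℕ} (h : m = n) (f : (Fin m → G) → k) : (Fin n → G) → k :=
  fun x => f (fun i => x (Fin.cast h i))

omit [CommRing k] [Group G] in
lemma ev_castC {m n : ℕ} (h : m = n) (f : (Fin m → G) → k) (x : ℕ → G) :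
    ev (castC h f) x = ev f x := rfl

lemma dC_castC {m n : ℕ} (h : m = n) (f : (Fin m → G) → k) :
    dC n (castC h f) = castC (congrArg (· + 1) h) (dC m f) := by
  subst h
  rfl

omit [Group G] in
lemma ev_cupC {p q : ℕ} (f : (Fin p → G) → k) (g : (Fin q → G) → k) (x : ℕ → G) :
    ev (cupC f g) x = ev f x * ev g (fun i => x (p + i)) := rfl

/-- a function `b : G → k` as a `1`-cochain -/
def oneC (b : G → k) : (Fin 1 → G) → k := fun x => b (x 0)

lemma dC_oneC (b : G → k) (hb : ∀ g h, b (g * h) = b g + b h) : dC 1 (oneC b) = 0 := by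
  apply eq_of_ev
  intro x
  rw [ev_dC, Finset.sum_range_succ, Finset.sum_range_one]
  simp [ev, oneC, con, hb]

end seq

section field
variable {k G : Type u} [Field k] [Group G]

/-- The cross product with the class of an element of infinite order: if `b` is a character of `G`
vanishing on the subgroup `M`, `u` is central with `b u ≠ 0`, and `b ∪ w` is a coboundary on `G`,
then the restriction of `w` to `M` is a coboundary. -/
lemma res_eq_zero_of_cup (b : G → k) (u : G) (hu : ∀ g, g * u = u * g) (hbu : b u ≠ 0) (M : Subgroup G) (hM : ∀ g ∈ M, b g = 0)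
    {j : ℕ} (w : (Fin j → G) → k) (hw : dC j w = 0)
    (hX : dC (j + 1) (castC (add_comm 1 j) (cupC (oneC b) w)) = 0)
    (h : cls (castC (add_comm 1 j) (cupC (oneC b) w)) hX = 0) :
    resCoh M.subtype j (cls w hw) = 0 := by
  rw [cls_succ_eq_zero_iff] at h
  obtain ⟨θ, hθ⟩ := h
  rw [resCoh_cls]
  cases j with
  | zero =>
    have h1 : w = 0 := by
      funext x
      have h2 := congrArg (fun F => ev F (fun _ => u)) hθ
      simp only [ev_castC, ev_cupC, ev_dC] at h2
      have h3 : ev w (fun _ => u) = w x := by
        unfold ev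
        congr 1
        ext i
        exact i.elim0
      have h4 : ev (oneC b) (fun _ => u) = b u := rfl
      have h5 : ev θ (con 0 (fun _ => u)) = ev θ (fun _ => u) := by
        apply ev_congr
        intro p hp
        omega
      simp only [zero_add, Finset.range_one, Finset.sum_singleton, pow_one, h3, h4, h5] at h2
      have h6 : b u * w x = 0 := by
        rw [← h2]; ring
      rcases mul_eq_zero.1 h6 with h7 | h7
      · exact absurd h7 hbu
      · exact h7
    subst h1
    exact (cls_congr _ (map_zero _) rfl).trans cls_zero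
  | succ n =>
    rw [cls_succ_eq_zero_iff]
    have h1 := iota_dC u hu n θ
    rw [hθ] at h1
    refine ⟨fun y => - (b u)⁻¹ * iota u n θ (fun i => (y i : G)), ?_⟩
    have h2 : dC n (fun y : Fin n → M => - (b u)⁻¹ * iota u n θ (fun i => (y i : G))) =
        (- (b u)⁻¹) • (fun y : Fin (n + 1) → M => dC n (iota u n θ) (fun i => (y i : G))) := by
      have : (fun y : Fin n → M => - (b u)⁻¹ * iota u n θ (fun i => (y i : G))) =
        (- (b u)⁻¹) • (fun y : Fin n → M => iota u n θ (fun i => M.subtype (y i))) := rfl
      rw [this, map_smul]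
      congr 1
      funext y
      exact dC_comp M.subtype (iota u n θ) y
    rw [h2]
    funext y
    have h3 : dC n (iota u n θ) (fun i => (y i : G)) = - (b u * w (fun i => (y i : G))) := by
      have h4 := congrFun h1 (fun i => (y i : G))
      rw [Pi.neg_apply] at h4
      rw [← neg_eq_iff_eq_neg.2 h4]
      congr 1
      set x : ℕ → G := fun p => if hp : p < n + 1 then (y ⟨p, hp⟩ : G) else 1 with hx
      have h5 : iota u (n + 1) (castC (add_comm 1 (n + 1)) (cupC (oneC b) w)) (fun i => (y i : G)) =
        ev (iota u (n + 1) (castC (add_comm 1 (n + 1)) (cupC (oneC b) w))) x := by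
        unfold ev
        congr 1
        ext i
        have hi := i.2
        rw [hx]
        simp only [hi, dite_true]
      rw [h5, ev_iota, Finset.sum_range_succ']
      have h6 : ∀ i ∈ Finset.range (n + 1), (-1 : k) ^ (i + 1) *
          ev (castC (add_comm 1 (n + 1)) (cupC (oneC b) w)) (ins u (i + 1) x) = 0 := by
        intro i _
        rw [ev_castC, ev_cupC]
        have : ev (oneC b) (ins u (i + 1) x) = 0 := by
          change b (ins u (i + 1) x 0) = 0
          have : ins u (i + 1) x 0 = y ⟨0, by omega⟩ := by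
            simp [ins, hx]
          rw [this]
          exact hM _ (y ⟨0, by omega⟩).2
        rw [this]
        ring
      rw [Finset.sum_eq_zero h6, ev_castC, ev_cupC]
      have h7 : ev (oneC b) (ins u 0 x) = b u := by
        change b (ins u 0 x 0) = b u
        simp [ins]
      have h8 : ev w (fun i => ins u 0 x (1 + i)) = w (fun i => (y i : G)) := by
        unfold ev
        congr 1
        ext i
        have hi := i.2
        change ins u 0 x (1 + (i : ℕ)) = _
        rw [add_comm 1 (i : ℕ), hx]
        simp [ins, hi]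
      rw [h7, h8]
      ring
    simp only [Pi.smul_apply, smul_eq_mul]
    rw [h3]
    field_simp
    rfl

end field


end Pool.Agent.Lib_helper89
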