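import Mathlib
import Pool.Agent.Lib_helper89.Homotopy

set_option autoImplicit false

namespace Pool.Agent.Lib_helper89

universe u

section fin
variable {k M : Type u} [Field k] [Group M] [Fintype M]

/-- append `g, t` after the first `n` entries of a sequence -/
def app (n : ℕ) (g t : M) (x : ℕ → M) : ℕ → M := fun p =>
  if p < n then x p else if p = n then g else t

/-- sum over `g` of the evaluation of the last two entries at `(g, t)`. -/
def Pop (t : M) (n : ℕ) (θ : (Fin (n + 2) → M) → k) : (Fin n → M) → k := fun x =>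
  ∑ g : M, ev θ (app n g t (fun p => if hp : p < n then x ⟨p, hp⟩ else 1))

lemma ev_Pop (t : M) {n : ℕ} (θ : (Fin (n + 2) → M) → k) (x : ℕ → M) :
    ev (Pop t n θ) x = ∑ g : M, ev θ (app n g t x) := by
  unfold Pop
  rw [ev]
  apply Finset.sum_congr rfl
  intro g _
  congr 1
  funext p
  simp only [app]
  split_ifs <;> rfl

lemma Pop_dC (t : M) (n : ℕ) (θ : (Fin (n + 2) → M) → k) :
    Pop t (n + 1) (dC (n + 2) θ) = dC n (Pop t n θ) := by
  apply eq_of_ev
  intro x
  rw [ev_Pop, ev_dC, ev_Pop]
  simp_rw [ev_Pop, ev_dC]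
  rw [Finset.sum_add_distrib]
  have e0 : ∀ g, (fun p => app (n + 1) g t x (p + 1)) = app n g t (fun p => x (p + 1)) := by
    intro g
    funext p
    simp only [app]
    split_ifs <;> first | rfl | omega
  simp_rw [e0]
  congr 1
  rw [Finset.sum_comm]
  rw [Finset.sum_range_succ, Finset.sum_range_succ]
  have e1 : ∑ g : M, (-1 : k) ^ (n + 1 + 1 + 1) * ev θ (con (n + 1 + 1) (app (n + 1) g t x)) =
      - ∑ g : M, (-1 : k) ^ (n + 1 + 1) * ev θ (con (n + 1) (app (n + 1) g t x)) := by
    rw [← Finset.sum_neg_distrib]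
    rw [← Equiv.sum_comp (Equiv.mulRight t)]
    apply Finset.sum_congr rfl
    intro g _
    have : ev θ (con (n + 1 + 1) (app (n + 1) (g * t) t x)) = ev θ (con (n + 1) (app (n + 1) g t x)) := by
      apply ev_congr
      intro p hp
      simp only [con, app]
      rcases lt_trichotomy p (n + 1) with h | h | h
      · simp [h, show p < n + 1 + 1 by omega]
      · subst h
        simp
      · omega
    simp only [Equiv.coe_mulRight]
    rw [this]
    ring
  rw [e1]
  rw [Finset.sum_range_succ (fun j => ∑ g : M, (-1 : k) ^ (j + 1) * ev θ (con j (app (n + 1) g t x))) n]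
  rw [Finset.sum_range_succ (fun j => (-1 : k) ^ (j + 1) * ∑ g : M, ev θ (app n g t (con j x))) n]
  have e2 : ∑ g : M, (-1 : k) ^ (n + 1) * ev θ (con n (app (n + 1) g t x)) =
      (-1 : k) ^ (n + 1) * ∑ g : M, ev θ (app n g t (con n x)) := by
    rw [Finset.mul_sum]
    rw [← Equiv.sum_comp (Equiv.mulLeft (x n)) (fun g => (-1 : k) ^ (n + 1) * ev θ (app n g t (con n x)))]
    apply Finset.sum_congr rfl
    intro g _
    congr 1
    apply ev_congr
    intro p hp
    simp only [con, app, Equiv.coe_mulLeft]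
    rcases lt_trichotomy p n with h | h | h
    · simp [h, show p < n + 1 by omega]
    · subst h
      simp
    · have : p = n + 1 := by omega
      subst this
      simp
  have e3 : ∑ j ∈ Finset.range n, ∑ g : M, (-1 : k) ^ (j + 1) * ev θ (con j (app (n + 1) g t x)) =
      ∑ j ∈ Finset.range n, (-1 : k) ^ (j + 1) * ∑ g : M, ev θ (app n g t (con j x)) := by
    apply Finset.sum_congr rfl
    intro j hj
    rw [Finset.mem_range] at hj
    rw [Finset.mul_sum]
    apply Finset.sum_congr rfl
    intro g _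
    congr 2
    funext p
    simp only [con, app]
    rcases lt_trichotomy p j with h | h | h
    · simp [h, show p < n + 1 by omega, show p < n by omega]
    · subst h
      simp [show p < n + 1 by omega, show p < n by omega]
    · simp only [show ¬ p < j by omega, show ¬ p = j by omega, if_false]
      split_ifs <;> first | rfl | omega
  rw [e2, e3]
  ring

lemma Pop_dC_zero (hcard : (Fintype.card M : k) = 0) (t : M) (θ : (Fin 1 → M) → k) :
    Pop t 0 (dC 1 θ) = 0 := by
  apply eq_of_ev
  intro x
  rw [ev_Pop]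
  simp_rw [ev_dC]
  rw [Finset.sum_add_distrib]
  have e0 : ∀ g, ev θ (fun p => app 0 g t x (p + 1)) = ev θ (fun _ => t) := by
    intro g
    apply ev_congr
    intro p hp
    simp [app]
  simp_rw [e0, Finset.sum_range_succ, Finset.sum_range_zero]
  rw [Finset.sum_add_distrib, Finset.sum_const, Finset.card_univ, nsmul_eq_mul, hcard]
  have e1 : ∑ g : M, (-1 : k) ^ (1 + 1) * ev θ (con 1 (app 0 g t x)) =
      ∑ g : M, (-1 : k) ^ (1 + 1) * ev θ (fun _ => g) := by
    apply Finset.sum_congr rfl
    intro g _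
    congr 1
    apply ev_congr
    intro p hp
    have : p = 0 := by omega
    subst this
    simp [con, app]
  have e2 : ∑ g : M, (0 + (-1 : k) ^ (0 + 1) * ev θ (con 0 (app 0 g t x))) =
      - ∑ g : M, (-1 : k) ^ (1 + 1) * ev θ (fun _ => g) := by
    rw [← Finset.sum_neg_distrib]
    rw [← Equiv.sum_comp (Equiv.mulRight t) (fun g => - ((-1 : k) ^ (1 + 1) * ev θ (fun _ => g)))]
    apply Finset.sum_congr rfl
    intro g _
    have : ev θ (con 0 (app 0 g t x)) = ev θ (fun _ => g * t) := by
      apply ev_congr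
      intro p hp
      have : p = 0 := by omega
      subst this
      simp [con, app]
    rw [this]
    simp
  rw [e1, e2]
  simp [ev]

lemma Pop_cupC (t : M) (y : (Fin 2 → M) → k) {n : ℕ} (w : (Fin n → M) → k) :
    Pop t n (cupC w y) = (∑ g : M, y ![g, t]) • w := by
  apply eq_of_ev
  intro x
  rw [ev_Pop]
  simp_rw [ev_cupC]
  have e1 : ∀ g, ev w (app n g t x) = ev w x := by
    intro g
    apply ev_congr
    intro p hp
    simp [app, hp]
  have e2 : ∀ g, ev y (fun i => app n g t x (n + i)) = y ![g, t] := by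
    intro g
    unfold ev
    congr 1
    funext i
    fin_cases i <;> simp [app]
  simp_rw [e1, e2]
  rw [← Finset.mul_sum, mul_comm]
  rfl

/-- Periodicity: cup product with a class `y` of degree two with `∑ g, y(g, t) ≠ 0` is injective. -/
lemma cls_eq_zero_of_cup_two (hcard : (Fintype.card M : k) = 0) (t : M) {y : (Fin 2 → M) → k}
    (hy : dC 2 y = 0) (hyt : ∑ g : M, y ![g, t] ≠ 0) {n : ℕ} {w : (Fin n → M) → k}
    (hw : dC n w = 0) (h : cls (cupC w y) (cupC_cocycle hw hy) = 0) : cls w hw = 0 := by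
  rw [cls_succ_eq_zero_iff] at h
  obtain ⟨θ, hθ⟩ := h
  cases n with
  | zero =>
    have h1 : Pop t 0 (dC (0 + 1) θ) = 0 := Pop_dC_zero hcard t θ
    have h2 : Pop t 0 (dC (0 + 1) θ) = (∑ g : M, y ![g, t]) • w := by
      rw [← Pop_cupC, ← hθ]
    rw [h2] at h1
    have h3 : w = 0 := by
      have h4 := congrArg (fun F => (∑ g : M, y ![g, t])⁻¹ • F) h1
      simpa only [smul_smul, inv_mul_cancel₀ hyt, one_smul, smul_zero] using h4
    exact (cls_congr _ (map_zero _) h3).trans cls_zero
  | succ n =>
    rw [cls_succ_eq_zero_iff]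
    have h1 := Pop_dC t n θ
    have h2 : Pop t (n + 1) (dC (n + 2) θ) = (∑ g : M, y ![g, t]) • w := by
      rw [← Pop_cupC, ← hθ]
    rw [h2] at h1
    refine ⟨(∑ g : M, y ![g, t])⁻¹ • Pop t n θ, ?_⟩
    rw [map_smul, ← h1, smul_smul, inv_mul_cancel₀ hyt, one_smul]

end fin

end Pool.Agent.Lib_helper89
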