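import Mathlib
import Pool.Agent.Lib_helper89.Periodicity

set_option autoImplicit false

namespace Pool.Agent.Lib_helper89

lemma exists_dual_ne {k V : Type*} [Field k] [AddCommGroup V] [Module k V] (v : V) (hv : v ≠ 0) :
    ∃ f : V →ₗ[k] k, f v ≠ 0 := by
  obtain ⟨f, hf⟩ := Module.Projective.exists_dual_ne_zero k hv
  exact ⟨f, hf⟩

lemma exists_char_exp {Q : Type} [AddCommGroup Q] (ℓ : ℕ) [hℓ : Fact ℓ.Prime] (hQ : ∀ x : Q, ℓ • x = 0) (v : Q) (hv : v ≠ 0) :
    ∃ f : Q →+ ZMod ℓ, f v ≠ 0 := by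
  obtain ⟨f, hf⟩ := @exists_dual_ne (ZMod ℓ) Q _ _ (AddCommGroup.zmodModule hQ) v hv
  exact ⟨f.toAddMonoidHom, hf⟩


section U
variable {U : Type} [CommGroup U] (ℓ : ℕ) [hℓ : Fact ℓ.Prime]

lemma exists_two_cocycle (t : U) (a : ℕ) (ht : orderOf t = ℓ ^ (a + 1)) :
    ∃ y : (Fin 2 → U) → ZMod ℓ, dC 2 y = 0 ∧
      ∀ [Fintype (Subgroup.zpowers t)], ∑ g : Subgroup.zpowers t, y ![(g : U), t] ≠ 0 := by
  have h1 : Additive.ofMul (t ^ (ℓ ^ a)) ≠ 0 := by
    intro h
    have h2 : t ^ (ℓ ^ a) = 1 := h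
    have h3 := orderOf_dvd_of_pow_eq_one h2
    rw [ht] at h3
    exact absurd (Nat.pow_dvd_pow_iff_le_right hℓ.out.one_lt |>.1 h3) (by omega)
  obtain ⟨φ, hφ⟩ := CharacterModule.exists_character_apply_ne_zero_of_ne_zero h1
  have hs : ∀ g : U, ∃ q : ℚ, (q : AddCircle (1 : ℚ)) = φ (Additive.ofMul g) := by
    intro g
    exact QuotientAddGroup.mk_surjective _
  choose s hs using hs
  have hm : ∀ g h : U, ∃ m : ℤ, (m : ℚ) = s g + s h - s (g * h) := by
    intro g h
    have h2 : ((s g + s h - s (g * h) : ℚ) : AddCircle (1 : ℚ)) = 0 := by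
      rw [AddCircle.coe_sub, AddCircle.coe_add, hs, hs, hs, ofMul_mul, map_add, sub_self]
    rw [AddCircle.coe_eq_zero_iff] at h2
    obtain ⟨n, hn⟩ := h2
    exact ⟨n, by rw [← hn]; simp⟩
  choose m hm using hm
  refine ⟨fun x => (m (x 0) (x 1) : ZMod ℓ), ?_, ?_⟩
  · apply eq_of_ev
    intro x
    rw [ev_dC]
    simp only [Finset.sum_range_succ, Finset.sum_range_zero]
    have h3 : m (x 1) (x 2) - m (x 0 * x 1) (x 2) + m (x 0) (x 1 * x 2) - m (x 0) (x 1) = 0 := by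
      have : ((m (x 1) (x 2) - m (x 0 * x 1) (x 2) + m (x 0) (x 1 * x 2) - m (x 0) (x 1) : ℤ) : ℚ) = 0 := by
        push_cast
        rw [hm, hm, hm, hm, mul_assoc]
        ring
      exact_mod_cast this
    have h4 := congrArg (fun n : ℤ => (n : ZMod ℓ)) h3
    simp only [Int.cast_sub, Int.cast_add, Int.cast_zero] at h4
    simp [ev, con]
    rw [← h4]
    ring
  · intro _ h
    have hsum : ((∑ g : Subgroup.zpowers t, m (g : U) t : ℤ) : ℚ) = (ℓ ^ (a + 1) : ℕ) * s t := by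
      push_cast
      simp_rw [hm]
      rw [Finset.sum_sub_distrib, Finset.sum_add_distrib]
      have e1 : ∑ g : Subgroup.zpowers t, s ((g : U) * t) = ∑ g : Subgroup.zpowers t, s (g : U) := by
        rw [← Equiv.sum_comp (Equiv.mulRight (⟨t, Subgroup.mem_zpowers t⟩ : Subgroup.zpowers t))
          (fun g => s (g : U))]
        rfl
      have e2 : Fintype.card (Subgroup.zpowers t) = ℓ ^ (a + 1) := by
        rw [← Nat.card_eq_fintype_card, Nat.card_zpowers, ht]
      rw [e1, Finset.sum_const, Finset.card_univ, e2]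
      simp
    have h2 : ((∑ g : Subgroup.zpowers t, m (g : U) t : ℤ) : ZMod ℓ) = 0 := by
      push_cast
      exact h
    rw [ZMod.intCast_zmod_eq_zero_iff_dvd] at h2
    obtain ⟨r, hr⟩ := h2
    rw [hr] at hsum
    have hℓ0 : (ℓ : ℚ) ≠ 0 := by exact_mod_cast hℓ.out.ne_zero
    have h3 : (r : ℚ) = (ℓ : ℚ) ^ a * s t := by
      push_cast at hsum
      rw [pow_succ] at hsum
      apply mul_left_cancel₀ hℓ0
      rw [hsum]
      ring
    apply hφ
    rw [ofMul_pow, map_nsmul, ← hs, ← AddCircle.coe_nsmul, nsmul_eq_mul]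
    push_cast
    rw [← h3]
    rw [AddCircle.coe_eq_zero_iff]
    exact ⟨r, by simp⟩

lemma exists_char_of_not_pow (t : U) (ht : ∀ v : U, v ^ ℓ ≠ t) :
    ∃ z : U → ZMod ℓ, (∀ g h, z (g * h) = z g + z h) ∧ z t ≠ 0 := by
  let N : AddSubgroup (Additive U) := (nsmulAddMonoidHom (α := Additive U) ℓ).range
  have hN : ∀ x : Additive U ⧸ N, ℓ • x = 0 := by
    intro x
    obtain ⟨g, rfl⟩ := QuotientAddGroup.mk_surjective x
    rw [← QuotientAddGroup.mk_nsmul, QuotientAddGroup.eq_zero_iff]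
    exact ⟨g, rfl⟩
  have hne : (QuotientAddGroup.mk (Additive.ofMul t) : Additive U ⧸ N) ≠ 0 := by
    rw [Ne, QuotientAddGroup.eq_zero_iff]
    rintro ⟨v, hv⟩
    exact ht (Additive.toMul v) hv
  obtain ⟨f, hf⟩ := exists_char_exp ℓ hN _ hne
  refine ⟨fun g => f (QuotientAddGroup.mk (Additive.ofMul g)), ?_, hf⟩
  intro g h
  change f (QuotientAddGroup.mk (Additive.ofMul g + Additive.ofMul h)) = _
  rw [QuotientAddGroup.mk_add, map_add]

/-- If the `ℓ`-power torsion of `U` is bounded and `U` has an element of order `ℓ`, then `U` has an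
element of order `ℓ^(a+1)` that is not an `ℓ`-th power. -/
lemma exists_not_pow (ζ : U) (hζ : orderOf ζ = ℓ) (B : ℕ)
    (hB : ∀ (v : U) (a : ℕ), orderOf v = ℓ ^ a → a ≤ B) :
    ∃ (t : U) (a : ℕ), orderOf t = ℓ ^ (a + 1) ∧ ∀ v : U, v ^ ℓ ≠ t := by
  by_contra hcon
  push Not at hcon
  have hall : ∀ a : ℕ, ∃ t : U, orderOf t = ℓ ^ (a + 1) := by
    intro a
    induction a with
    | zero => exact ⟨ζ, by simpa using hζ⟩
    | succ a ih =>
      obtain ⟨t, ht⟩ := ih
      obtain ⟨v, hv⟩ := hcon t a ht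
      refine ⟨v, ?_⟩
      apply orderOf_eq_prime_pow
      · rw [pow_succ', pow_mul, hv]
        intro h
        have h2 := orderOf_dvd_of_pow_eq_one h
        rw [ht] at h2
        exact absurd (Nat.pow_dvd_pow_iff_le_right hℓ.out.one_lt |>.1 h2) (by omega)
      · rw [pow_succ', pow_mul, hv, ← ht, pow_orderOf_eq_one]
  obtain ⟨t, ht⟩ := hall B
  have := hB t _ ht
  omega

end U

section NT2
open IsDedekindDomain NumberField

lemma torsion_bound (K : Type) [Field K] [NumberField K] (ℓ : ℕ) [hℓ : Fact ℓ.Prime]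
    (v : Kˣ) (a : ℕ) (hv : orderOf v = ℓ ^ a) : a ≤ Module.finrank ℚ K := by
  have hprim : IsPrimitiveRoot (v : K) (ℓ ^ a) := by
    rw [IsPrimitiveRoot.coe_units_iff, ← hv]
    exact IsPrimitiveRoot.orderOf v
  have hpos : 0 < ℓ ^ a := pow_pos hℓ.out.pos a
  rcases Nat.eq_zero_or_pos a with h0 | h0
  · omega
  · have h1 : Nat.totient (ℓ ^ a) ≤ Module.finrank ℚ K := by
      have h2 := IsPrimitiveRoot.lcm_totient_le_finrank (K := ℚ) (L := K) (p := ℓ ^ a) (q := ℓ ^ a) hprim hprim ?_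
      · simpa using h2
      · rw [Nat.lcm_self]
        exact Polynomial.cyclotomic.irreducible_rat hpos
    rw [Nat.totient_prime_pow hℓ.out h0] at h1
    have h3 : a - 1 < ℓ ^ (a - 1) := Nat.lt_pow_self hℓ.out.one_lt
    have h4 : ℓ ^ (a - 1) ≤ ℓ ^ (a - 1) * (ℓ - 1) :=
      Nat.le_mul_of_pos_right _ (by have := hℓ.out.two_le; omega)
    omega

end NT2

section W
variable {k U : Type} [Field k] [CommGroup U]

/-- The cochains `1, z, y, z ∪ y, y ∪ y, z ∪ y ∪ y, …` -/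
def Wc (y : (Fin 2 → U) → k) (z : (Fin 1 → U) → k) : (j : ℕ) → ((Fin j → U) → k)
  | 0 => constC 1
  | 1 => z
  | (j + 2) => cupC (Wc y z j) y

lemma dC_Wc (y : (Fin 2 → U) → k) (z : (Fin 1 → U) → k) (hy : dC 2 y = 0) (hz : dC 1 z = 0) :
    ∀ j, dC j (Wc y z j) = 0
  | 0 => dC_constC 1
  | 1 => hz
  | (j + 2) => cupC_cocycle (dC_Wc y z hy hz j) hy

lemma res_Wc_ne_zero (y : (Fin 2 → U) → k) (z : U → k) (hy : dC 2 y = 0)
    (hz : ∀ g h, z (g * h) = z g + z h) (M : Subgroup U) [Fintype M]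
    (hcard : (Fintype.card M : k) = 0) (t : M) (hyt : ∑ g : M, y ![(g : U), (t : U)] ≠ 0)
    (hzt : z t ≠ 0) :
    ∀ j, resCoh M.subtype j (cls (Wc y (oneC z) j) (dC_Wc y (oneC z) hy (dC_oneC z hz) j)) ≠ 0
  | 0 => by
    intro h
    rw [resCoh_cls] at h
    have h1 := cls_zero_degree h
    have h2 := congrFun h1 default
    simp [Wc, constC] at h2
  | 1 => by
    intro h
    rw [resCoh_cls, cls_succ_eq_zero_iff] at h
    obtain ⟨θ, hθ⟩ := h
    have h2 := congrArg (fun F => ev F (fun _ => t)) hθ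
    simp only [ev_dC] at h2
    have h5 : ev θ (con 0 (fun _ => t)) = ev θ (fun _ => t) := by
      apply ev_congr
      intro p hp
      omega
    simp only [zero_add, Finset.range_one, Finset.sum_singleton, pow_one, h5] at h2
    apply hzt
    have h6 : ev (fun y' : Fin 1 → M => Wc y (oneC z) 1 (fun i => M.subtype (y' i)))
      (fun _ => t) = z t := rfl
    rw [← h6, ← h2]
    ring
  | (j + 2) => by
    intro h
    rw [resCoh_cls] at h
    have hy' : dC 2 (fun x : Fin 2 → M => y (fun i => M.subtype (x i))) = 0 :=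
      dC_comp_eq_zero M.subtype hy
    have hw' := dC_comp_eq_zero M.subtype (dC_Wc y (oneC z) hy (dC_oneC z hz) j)
    apply res_Wc_ne_zero y z hy hz M hcard t hyt hzt j
    rw [resCoh_cls]
    apply cls_eq_zero_of_cup_two hcard t hy' ?_ hw' ?_
    · have e : ∀ g : M, (fun i => M.subtype ((![g, t] : Fin 2 → M) i)) = ![(g : U), (t : U)] := by
        intro g
        funext i
        fin_cases i <;> rfl
      simp_rw [e]
      exact hyt
    · rw [← h]
      rfl

lemma exists_undetected_in_degree {G : Type} [Group G] (δ : G →* U) (s : U →* G)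
    (hs : ∀ v, δ (s v) = v) (b : U → k) (hb : ∀ g h, b (g * h) = b g + b h)
    (hfin : ∀ v, IsOfFinOrder v → b v = 0) (u : U) (hu : b u ≠ 0)
    (y : (Fin 2 → U) → k) (z : U → k) (hy : dC 2 y = 0)
    (hz : ∀ g h, z (g * h) = z g + z h) (M : Subgroup U) [Fintype M]
    (hcard : (Fintype.card M : k) = 0) (t : M) (hyt : ∑ g : M, y ![(g : U), (t : U)] ≠ 0)
    (hzt : z t ≠ 0) (m : ℕ) (hm : 1 ≤ m) :
    ∃ x : Coh k G m, x ≠ 0 ∧ ∀ Γ : Subgroup G, Finite Γ → resCoh Γ.subtype m x = 0 := by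
  obtain ⟨j, rfl⟩ : ∃ j, m = j + 1 := ⟨m - 1, by omega⟩
  have hW := dC_Wc y (oneC z) hy (dC_oneC z hz) j
  have hX : dC (j + 1) (castC (add_comm 1 j) (cupC (oneC b) (Wc y (oneC z) j))) = 0 := by
    rw [dC_castC (add_comm 1 j), cupC_cocycle (dC_oneC b hb) hW]
    rfl
  refine ⟨resCoh δ (j + 1) (cls _ hX), ?_, ?_⟩
  · intro h
    have h1 := resCoh_injective_of_section δ s hs (j + 1) _ h
    apply res_Wc_ne_zero y z hy hz M hcard t hyt hzt j
    refine res_eq_zero_of_cup b u (fun g => mul_comm _ _) hu M ?_ _ hW hX h1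
    intro g hg
    have : Finite M := inferInstance
    have h2 : IsOfFinOrder (⟨g, hg⟩ : M) := isOfFinOrder_of_finite _
    exact hfin g (MonoidHom.isOfFinOrder M.subtype h2)
  · intro Γ hΓ
    rw [resCoh_cls, resCoh_cls]
    refine (cls_congr _ (map_zero _) ?_).trans cls_zero
    apply eq_of_ev
    intro x
    have h1 : b (δ (x 0 : G)) = 0 := by
      apply hfin
      have h2 : IsOfFinOrder (x 0) := isOfFinOrder_of_finite _
      exact MonoidHom.isOfFinOrder (δ.comp Γ.subtype) h2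
    change b (δ (x 0 : G)) * _ = 0
    rw [h1, zero_mul]

end W

section final
open IsDedekindDomain NumberField

/-- the splitting `u ↦ diag(u, 1, …, 1)` of the determinant -/
noncomputable def diagHom (R : Type) [CommRing R] (n : ℕ) (i : Fin n) : Rˣ →* GL (Fin n) R :=
  (Units.map (Matrix.diagonalRingHom (Fin n) R : (Fin n → R) →* Matrix (Fin n) (Fin n) R)).comp
    ((MulEquiv.piUnits (M := fun _ : Fin n => R)).symm.toMonoidHom.comp
      (MonoidHom.mulSingle (fun _ : Fin n => Rˣ) i))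

lemma det_diagHom (R : Type) [CommRing R] (n : ℕ) (i : Fin n) (u : Rˣ) :
    Matrix.GeneralLinearGroup.det (diagHom R n i u) = u := by
  ext
  rw [Matrix.GeneralLinearGroup.val_det_apply]
  have h : ((diagHom R n i u : GL (Fin n) R) : Matrix (Fin n) (Fin n) R) =
      Matrix.diagonal (fun j => ((Pi.mulSingle (M := fun _ : Fin n => Rˣ) i u j : Rˣ) : R)) := rfl
  rw [h, Matrix.det_diagonal]
  rw [Finset.prod_eq_single i]
  · simp
  · intro j _ hj
    rw [Pi.mulSingle_eq_of_ne hj]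
    simp
  · intro hi
    exact absurd (Finset.mem_univ i) hi

lemma exists_root_of_unity (K : Type) [Field K] [NumberField K] (ℓ : ℕ) [hℓ : Fact ℓ.Prime]
    (hζ : ∃ ζ : K, IsPrimitiveRoot ζ ℓ) (S : Set (HeightOneSpectrum (𝓞 K))) :
    ∃ v : (S.integer K)ˣ, orderOf v = ℓ := by
  obtain ⟨ζ, hζ⟩ := hζ
  have : NeZero ℓ := ⟨hℓ.out.ne_zero⟩
  have hint : IsIntegral ℤ ζ := hζ.isIntegral hℓ.out.pos
  let ζ' : S.integer K := algebraMap (𝓞 K) (S.integer K) ⟨ζ, hint⟩
  have hζ' : IsPrimitiveRoot ζ' ℓ := by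
    apply IsPrimitiveRoot.of_map_of_injective (f := algebraMap (S.integer K) K) (h := ?_)
      (hf := Subtype.val_injective)
    exact hζ
  refine ⟨(hζ'.isUnit hℓ.out.ne_zero).unit, ?_⟩
  have h1 := hζ'.isUnit_unit hℓ.out.ne_zero
  exact h1.eq_orderOf.symm

/-- If `ζ_ℓ ∈ K`, `S` contains the places above `ℓ`, and `n ≥ 1`, then in every degree `m ≥ 1` there
is a nonzero class in `H^m(GL_n(O_{K,S}), F_ℓ)` whose restriction to every finite subgroup is
zero. -/
lemma exists_undetected_all (K : Type) [Field K] [NumberField K] (ℓ : ℕ) [hℓ : Fact ℓ.Prime]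
    (hζ : ∃ ζ : K, IsPrimitiveRoot ζ ℓ) (S : Set (HeightOneSpectrum (𝓞 K)))
    (hS : ∀ v : HeightOneSpectrum (𝓞 K), (ℓ : 𝓞 K) ∈ v.asIdeal → v ∈ S)
    (n : ℕ) (hn : 0 < n) (m : ℕ) (hm : 1 ≤ m) :
    ∃ x : Coh (ZMod ℓ) (GL (Fin n) (S.integer K)) m, x ≠ 0 ∧
      ∀ Γ : Subgroup (GL (Fin n) (S.integer K)), Finite Γ → resCoh Γ.subtype m x = 0 := by
  obtain ⟨χ, ⟨u, hu⟩, hχ⟩ := exists_unit_char K ℓ S hS
  obtain ⟨ζ, hζ⟩ := exists_root_of_unity K ℓ hζ S
  have hB : ∀ (v : (S.integer K)ˣ) (a : ℕ), orderOf v = ℓ ^ a → a ≤ Module.finrank ℚ K := by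
    intro v a hv
    apply torsion_bound K ℓ (Units.map (algebraMap (S.integer K) K : _ →* K) v) a
    rw [← hv]
    exact orderOf_injective (Units.map (algebraMap (S.integer K) K : _ →* K))
      (Units.map_injective Subtype.val_injective) v
  obtain ⟨t, a, ht, hpow⟩ := exists_not_pow ℓ ζ hζ _ hB
  obtain ⟨y, hy, hyt⟩ := exists_two_cocycle ℓ t a ht
  obtain ⟨z, hz, hzt⟩ := exists_char_of_not_pow ℓ t hpow
  have hfin : Finite (Subgroup.zpowers t) := by
    have h1 : IsOfFinOrder t := by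
      rw [← orderOf_pos_iff, ht]
      exact pow_pos hℓ.out.pos _
    exact (finite_zpowers.2 h1).to_subtype
  have : Fintype (Subgroup.zpowers t) := Fintype.ofFinite _
  refine exists_undetected_in_degree Matrix.GeneralLinearGroup.det
    (diagHom (S.integer K) n ⟨0, hn⟩) (det_diagHom _ n _)
    (fun v => χ (Additive.ofMul v)) ?_ hχ (Additive.toMul u) hu y z hy hz (Subgroup.zpowers t) ?_
    ⟨t, Subgroup.mem_zpowers t⟩ hyt hzt m hm
  · intro g h
    rw [ofMul_mul, map_add]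
  · rw [← Nat.card_eq_fintype_card, Nat.card_zpowers, ht, pow_succ]
    simp

end final

end Pool.Agent.Lib_helper89
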