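import Pool.Agent.Lib_helper89.FlipDefs

/-!
# Flip graphs: bridge between simple graphs and integer matrices
-/

namespace Pool.Agent.Flip

open Finset BigOperators

open Classical in
theorem two_mul_edgesIn {V : Type} [Fintype V] (H : SimpleGraph V) (S : Set V) :
    2 * ((edgesIn H S).ncard : ℤ) =
      ∑ x, ∑ y, (if x ∈ S then (1 : ℤ) else 0) * (if y ∈ S then (1 : ℤ) else 0) * ind H x y := by
  let H' : SimpleGraph V :=
    { Adj := fun x y => x ∈ S ∧ y ∈ S ∧ H.Adj x y
      symm := ⟨fun x y h => ⟨h.2.1, h.1, h.2.2.symm⟩⟩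
      loopless := ⟨fun x h => H.loopless.irrefl x h.2.2⟩ }
  have he : H'.edgeSet = edgesIn H S := by
    ext e
    induction e using Sym2.ind with
    | _ x y =>
      simp only [SimpleGraph.mem_edgeSet, edgesIn, Set.mem_ofPred_eq, Sym2.mem_iff, forall_eq_or_imp,
        forall_eq, H']
      tauto
  have h1 := H'.sum_degrees_eq_twice_card_edges
  have h2 : (edgesIn H S).ncard = H'.edgeFinset.card := by
    rw [← he, ← SimpleGraph.coe_edgeFinset, Set.ncard_coe_finset]
  rw [h2]
  have h3 : ((∑ v, H'.degree v : ℕ) : ℤ) = 2 * (H'.edgeFinset.card : ℤ) := by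
    rw [h1]; push_cast; ring
  rw [← h3]
  push_cast
  refine Finset.sum_congr rfl fun x _ => ?_
  rw [← SimpleGraph.card_neighborFinset_eq_degree, Finset.card_eq_sum_ones,
    SimpleGraph.neighborFinset_eq_filter, Finset.sum_filter]
  push_cast
  refine Finset.sum_congr rfl fun y _ => ?_
  simp only [ind, H']
  by_cases hx : x ∈ S <;> by_cases hy : y ∈ S <;> by_cases ha : H.Adj x y <;> simp [hx, hy, ha]

open Classical in
theorem ncard_eq_sum_ind {V : Type} [Fintype V] (H : SimpleGraph V) (v : V) :
    (({x | H.Adj v x}.ncard : ℕ) : ℤ) = ∑ x, ind H v x := by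
  have : {x | H.Adj v x} = ((Finset.univ.filter fun x => H.Adj v x : Finset V) : Set V) := by
    ext x; simp
  rw [this, Set.ncard_coe_finset, Finset.card_eq_sum_ones, Finset.sum_filter]
  push_cast
  rfl

theorem ind01 {V : Type} (H : SimpleGraph V) (x y : V) : ind H x y = 0 ∨ ind H x y = 1 := by
  unfold ind; split_ifs <;> simp

theorem ind_symm {V : Type} (H : SimpleGraph V) (x y : V) : ind H x y = ind H y x := by
  unfold ind; rw [H.adj_comm x y]

theorem ind_diag {V : Type} (H : SimpleGraph V) (x : V) : ind H x x = 0 := by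
  unfold ind; simp

/-- `2 e_H[N[v]]` in terms of the matrices -/
theorem two_mul_edgesIn_closed {V : Type} [Fintype V] (B R H : SimpleGraph V)
    (hd : ∀ x y, ¬ (B.Adj x y ∧ R.Adj x y)) (hH : ∀ x y, H.Adj x y → B.Adj x y ∨ R.Adj x y)
    (v : V) :
    2 * ((edgesIn H (closedNbr B R v)).ncard : ℤ) =
      (∑ x, ∑ y, (ind B v x + ind R v x) * (ind B v y + ind R v y) * ind H x y)
        + 2 * ∑ x, ind H v x := by
  classical
  rw [two_mul_edgesIn]
  have hm : ∀ x, (if x ∈ closedNbr B R v then (1 : ℤ) else 0) =
      (ind B v x + ind R v x) + (if x = v then 1 else 0) := by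
    intro x
    by_cases hx : x = v
    · subst hx; simp [closedNbr, ind_diag]
    · by_cases hb : B.Adj v x
      · have hr : ¬ R.Adj v x := fun h => hd v x ⟨hb, h⟩
        simp [closedNbr, hx, hb, hr, ind]
      · by_cases hr : R.Adj v x
        · simp [closedNbr, hx, hb, hr, ind]
        · simp [closedNbr, hx, hb, hr, ind]
  have hMH : ∀ x, (ind B v x + ind R v x) * ind H v x = ind H v x := by
    intro x
    by_cases hh : H.Adj v x
    · rcases hH v x hh with hb | hr
      · have hr : ¬ R.Adj v x := fun h => hd v x ⟨hb, h⟩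
        simp [ind, hb, hr, hh]
      · have hb : ¬ B.Adj v x := fun h => hd v x ⟨h, hr⟩
        simp [ind, hb, hr, hh]
    · simp [ind, hh]
  simp_rw [hm]
  have e1 : ∀ x y, ((ind B v x + ind R v x) + (if x = v then (1 : ℤ) else 0)) *
      ((ind B v y + ind R v y) + (if y = v then (1 : ℤ) else 0)) * ind H x y =
      (ind B v x + ind R v x) * (ind B v y + ind R v y) * ind H x y
      + (if y = v then (ind B v x + ind R v x) * ind H x v else 0)
      + (if x = v then (ind B v y + ind R v y) * ind H v y else 0)
      + (if x = v then (if y = v then ind H v v else 0) else 0) := by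
    intro x y
    by_cases hx : x = v
    · by_cases hy : y = v
      · subst hx; subst hy; simp; ring
      · subst hx; simp [hy]; ring
    · by_cases hy : y = v
      · subst hy; simp [hx]; ring
      · simp [hx, hy]
  simp_rw [e1, Finset.sum_add_distrib]
  have e2 : ∑ x, ∑ y, (if y = v then (ind B v x + ind R v x) * ind H x v else 0) =
      ∑ x, ind H v x := by
    refine Finset.sum_congr rfl fun x _ => ?_
    rw [Finset.sum_ite_eq' Finset.univ v]
    simp only [Finset.mem_univ, if_true]
    rw [ind_symm H x v, hMH]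
  have e3 : ∑ x, ∑ y, (if x = v then (ind B v y + ind R v y) * ind H v y else 0) =
      ∑ x, ind H v x := by
    rw [Finset.sum_comm]
    refine Finset.sum_congr rfl fun y _ => ?_
    rw [Finset.sum_ite_eq' Finset.univ v]
    simp only [Finset.mem_univ, if_true]
    rw [hMH]
  have e4 : ∑ x, ∑ y, (if x = v then (if y = v then ind H v v else 0) else 0) = (0 : ℤ) := by
    simp [ind_diag]
  rw [e2, e3, e4]
  ring

theorem isFlip_iff_core {V : Type} [Fintype V] (B R : SimpleGraph V) (b r : ℕ) :
    IsFlip B R b r ↔ Core (ind B) (ind R) (b : ℤ) (r : ℤ) := by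
  classical
  have key : ∀ (hd : ∀ x y, ¬ (B.Adj x y ∧ R.Adj x y))
      (hb : ∀ x, ∑ y, ind B x y = (b : ℤ)) (hr : ∀ x, ∑ y, ind R x y = (r : ℤ)) (v : V),
      (edgesIn R (closedNbr B R v)).ncard < (edgesIn B (closedNbr B R v)).ncard ↔
      2 * ((r : ℤ) - b + 1) ≤ ∑ x, ∑ y, (ind B v x + ind R v x) * (ind B v y + ind R v y) *
        (ind B x y - ind R x y) := by
    intro hd hb hr v
    have h1 := two_mul_edgesIn_closed B R B hd (fun x y h => Or.inl h) v
    have h2 := two_mul_edgesIn_closed B R R hd (fun x y h => Or.inr h) v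
    rw [hb] at h1
    rw [hr] at h2
    have h3 : ∑ x, ∑ y, (ind B v x + ind R v x) * (ind B v y + ind R v y) *
        (ind B x y - ind R x y) =
        (∑ x, ∑ y, (ind B v x + ind R v x) * (ind B v y + ind R v y) * ind B x y) -
        ∑ x, ∑ y, (ind B v x + ind R v x) * (ind B v y + ind R v y) * ind R x y := by
      simp only [mul_sub, Finset.sum_sub_distrib]
    rw [h3]
    constructor
    · intro h; omega
    · intro h; omega
  constructor
  · intro h
    have hb : ∀ x, ∑ y, ind B x y = (b : ℤ) := fun x => by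
      rw [← ncard_eq_sum_ind, h.degB]
    have hr : ∀ x, ∑ y, ind R x y = (r : ℤ) := fun x => by
      rw [← ncard_eq_sum_ind, h.degR]
    exact
      { β01 := ind01 B
        ρ01 := ind01 R
        βs := ind_symm B
        ρs := ind_symm R
        βd := ind_diag B
        ρd := ind_diag R
        dis := fun x y => by
          have := h.disj x y
          unfold ind
          by_cases h1 : B.Adj x y
          · have h2 : ¬ R.Adj x y := fun hh => this ⟨h1, hh⟩
            simp [h2]
          · simp [h1]
        degβ := hb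
        degρ := hr
        flip := fun v => (key h.disj hb hr v).1 (h.flip v) }
  · intro h
    have hd : ∀ x y, ¬ (B.Adj x y ∧ R.Adj x y) := by
      rintro x y ⟨h1, h2⟩
      have := h.dis x y
      simp [ind, h1, h2] at this
    exact
      { disj := hd
        degB := fun v => by
          have := ncard_eq_sum_ind B v
          rw [h.degβ] at this
          exact_mod_cast this
        degR := fun v => by
          have := ncard_eq_sum_ind R v
          rw [h.degρ] at this
          exact_mod_cast this
        flip := fun v => (key hd h.degβ h.degρ v).2 (h.flip v) }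

theorem core_of_isFlip {V : Type} [Fintype V] {B R : SimpleGraph V} {b r : ℕ}
    (h : IsFlip B R b r) : Core (ind B) (ind R) b r := (isFlip_iff_core B R b r).1 h

/-- graph of a symmetric 0/1 matrix -/
def gr {V : Type} (β : V → V → ℤ) (hs : ∀ x y, β x y = β y x) (hd : ∀ x, β x x = 0) :
    SimpleGraph V where
  Adj x y := β x y = 1
  symm := ⟨fun x y h => by rw [hs]; exact h⟩
  loopless := ⟨fun x h => by rw [hd] at h; exact absurd h (by norm_num)⟩

theorem ind_gr {V : Type} (β : V → V → ℤ) (hs : ∀ x y, β x y = β y x) (hd : ∀ x, β x x = 0)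
    (h01 : ∀ x y, β x y = 0 ∨ β x y = 1) : ind (gr β hs hd) = β := by
  funext x y
  unfold ind gr
  rcases h01 x y with h | h <;> simp [h]

theorem hasFlip_of_core {V : Type} [Fintype V] [Nonempty V] {β ρ : V → V → ℤ} {b r : ℕ}
    (h : Core β ρ b r) : HasFlip b r (Fintype.card V) := by
  refine ⟨Fintype.card_pos, ?_⟩
  let e := Fintype.equivFin V
  have hc : Core (fun i j : Fin (Fintype.card V) => β (e.symm i) (e.symm j))
      (fun i j => ρ (e.symm i) (e.symm j)) (b : ℤ) (r : ℤ) :=
    { β01 := fun _ _ => h.β01 _ _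
      ρ01 := fun _ _ => h.ρ01 _ _
      βs := fun _ _ => h.βs _ _
      ρs := fun _ _ => h.ρs _ _
      βd := fun _ => h.βd _
      ρd := fun _ => h.ρd _
      dis := fun _ _ => h.dis _ _
      degβ := fun i => by
        rw [← h.degβ (e.symm i)]
        exact Equiv.sum_comp e.symm (fun y => β (e.symm i) y)
      degρ := fun i => by
        rw [← h.degρ (e.symm i)]
        exact Equiv.sum_comp e.symm (fun y => ρ (e.symm i) y)
      flip := fun i => by
        refine (h.flip (e.symm i)).trans (le_of_eq ?_)
        rw [← Equiv.sum_comp e.symm]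
        refine Finset.sum_congr rfl fun x _ => ?_
        rw [← Equiv.sum_comp e.symm] }
  refine ⟨gr _ hc.βs hc.βd, gr _ hc.ρs hc.ρd, ?_⟩
  rw [isFlip_iff_core, ind_gr _ _ _ hc.β01, ind_gr _ _ _ hc.ρ01]
  exact hc

end Pool.Agent.Flip
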