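import Pool.Agent.Lib_helper89.FlipMM

/-!
# Flip graphs: block CLQ
-/

namespace Pool.Agent.Flip

open Finset BigOperators

namespace CLQ

section tuple

variable {W : Type} [Fintype W]

theorem sum_one {s : ℕ} (i : Fin (s + 1)) (g : W → ℤ) :
    ∑ y : Fin (s + 1) → W, g (y i) = (Fintype.card W : ℤ) ^ s * ∑ w, g w := by
  rw [MM.sum_insertNth i]
  simp

theorem sum_two {s : ℕ} (i j : Fin (s + 2)) (hij : i ≠ j) (g : W → W → ℤ) :
    ∑ y : Fin (s + 2) → W, g (y i) (y j) = (Fintype.card W : ℤ) ^ s * ∑ w, ∑ w', g w w' := by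
  obtain ⟨j', rfl⟩ := Fin.exists_succAbove_eq hij.symm
  rw [MM.sum_insertNth i]
  simp only [Fin.insertNth_apply_same, Fin.insertNth_apply_succAbove]
  rw [Finset.sum_comm, Finset.mul_sum]
  exact Finset.sum_congr rfl fun w _ => sum_one j' (g w)

end tuple

/-- red codegree -/
def cR {V : Type} [Fintype V] (ρ : V → V → ℤ) (x y : V) : ℤ := ∑ w, ρ x w * ρ y w

theorem tuple_ineq {V : Type} [Fintype V] {ρ : V → V → ℤ} (r : ℤ)
    (ρ01 : ∀ x y, ρ x y = 0 ∨ ρ x y = 1) (degρ : ∀ x, ∑ y, ρ x y = r) {s : ℕ} (v : V)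
    (y : Fin s → V) :
    2 * (((s : ℤ) + 1) * r - Fintype.card V) ≤
      2 * ∑ i, cR ρ v (y i) + ∑ i, ∑ j, if i = j then 0 else cR ρ (y i) (y j) := by
  have hsq : ∀ x w, ρ x w * ρ x w = ρ x w := by
    intro x w; rcases ρ01 x w with h | h <;> rw [h] <;> norm_num
  have hself : ∀ x, cR ρ x x = r := by
    intro x
    unfold cR
    rw [Finset.sum_congr rfl fun w _ => hsq x w, degρ]
  have h1 : ∀ w, 0 ≤ (ρ v w + ∑ i, ρ (y i) w) * (ρ v w + ∑ i, ρ (y i) w)
      - 3 * (ρ v w + ∑ i, ρ (y i) w) + 2 := by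
    intro w
    set k := ρ v w + ∑ i, ρ (y i) w
    have : k * k - 3 * k + 2 = (k - 1) * (k - 2) := by ring
    rw [this]
    rcases le_or_gt k 1 with h | h
    · exact mul_nonneg_of_nonpos_of_nonpos (by linarith) (by linarith)
    · exact mul_nonneg (by linarith) (by linarith)
  have h2 : 0 ≤ ∑ w, ((ρ v w + ∑ i, ρ (y i) w) * (ρ v w + ∑ i, ρ (y i) w)
      - 3 * (ρ v w + ∑ i, ρ (y i) w) + 2) := Finset.sum_nonneg fun w _ => h1 w
  have h3 : ∑ w, (ρ v w + ∑ i, ρ (y i) w) * (ρ v w + ∑ i, ρ (y i) w)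
      = r + 2 * ∑ i, cR ρ v (y i) + ∑ i, ∑ j, cR ρ (y i) (y j) := by
    have e1 : ∀ w, (ρ v w + ∑ i, ρ (y i) w) * (ρ v w + ∑ i, ρ (y i) w)
        = ρ v w * ρ v w + 2 * (∑ i, ρ v w * ρ (y i) w) + ∑ i, ∑ j, ρ (y i) w * ρ (y j) w := by
      intro w
      rw [← Finset.mul_sum, ← Finset.sum_mul_sum]
      ring
    rw [Finset.sum_congr rfl fun w _ => e1 w, Finset.sum_add_distrib, Finset.sum_add_distrib,
      ← Finset.mul_sum]
    congr 1
    · congr 1
      · exact hself v
      · rw [Finset.sum_comm]; rfl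
    · rw [Finset.sum_comm]
      refine Finset.sum_congr rfl fun i _ => ?_
      rw [Finset.sum_comm]; rfl
  have h4 : ∑ w, (ρ v w + ∑ i, ρ (y i) w) = ((s : ℤ) + 1) * r := by
    rw [Finset.sum_add_distrib, degρ, Finset.sum_comm, Finset.sum_congr rfl fun i _ => degρ (y i)]
    simp
    ring
  have h5 : ∑ i, ∑ j, cR ρ (y i) (y j) = s * r + ∑ i, ∑ j, if i = j then 0 else cR ρ (y i) (y j) := by
    have e1 : ∀ i j, cR ρ (y i) (y j) = (if i = j then r else 0) +
        (if i = j then 0 else cR ρ (y i) (y j)) := by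
      intro i j
      by_cases h : i = j
      · rw [if_pos h, if_pos h, h, hself, add_zero]
      · rw [if_neg h, if_neg h, zero_add]
    rw [Finset.sum_congr rfl fun i _ => Finset.sum_congr rfl fun j _ => e1 i j]
    simp only [Finset.sum_add_distrib]
    simp
  rw [Finset.sum_add_distrib, Finset.sum_sub_distrib, ← Finset.mul_sum, h3, h4, h5] at h2
  simp only [Finset.sum_const, Finset.card_univ, nsmul_eq_mul] at h2
  linarith

section main

variable {V : Type} [Fintype V] {β ρ : V → V → ℤ} {b r : ℤ}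

theorem sumW (β01 : ∀ x y, β x y = 0 ∨ β x y = 1) (v : V) (f : V → ℤ) :
    ∑ w : {x : V // β v x = 1}, f w.1 = ∑ x, β v x * f x := by
  have h1 : ∀ x, β v x * f x = if β v x = 1 then f x else 0 := by
    intro x
    rcases β01 v x with h | h <;> simp [h]
  rw [Finset.sum_congr rfl fun x _ => h1 x, ← Finset.sum_filter]
  exact (Finset.sum_subtype (Finset.univ.filter fun x => β v x = 1) (by simp) f).symm

theorem cardW (h : Pre β ρ b r) (v : V) :
    (Fintype.card {x : V // β v x = 1} : ℤ) = b := by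
  have h1 := sumW h.β01 v (fun _ => 1)
  simp only [mul_one, Finset.sum_const, Finset.card_univ, nsmul_eq_mul] at h1
  rw [h1, h.degβ]

/-- The adjacency graph on the blue neighbourhood. -/
def HB (h : Pre β ρ b r) (v : V) : SimpleGraph {x : V // β v x = 1} where
  Adj x y := β x.1 y.1 + ρ x.1 y.1 = 1
  symm := ⟨fun x y hxy => by rw [h.βs, h.ρs]; exact hxy⟩
  loopless := ⟨fun x hxy => by rw [h.βd, h.ρd] at hxy; norm_num at hxy⟩

theorem M01 (h : Pre β ρ b r) (x y : V) : β x y + ρ x y = 0 ∨ β x y + ρ x y = 1 := by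
  have h1 := h.dis x y
  rcases h.β01 x y with h2 | h2
  · rcases h.ρ01 x y with h3 | h3
    · left; rw [h2, h3]; rfl
    · right; rw [h2, h3]; rfl
  · rcases h.ρ01 x y with h3 | h3
    · right; rw [h2, h3]; rfl
    · exfalso; rw [h2, h3] at h1; norm_num at h1

theorem cR_nonneg (h : Pre β ρ b r) (x y : V) : 0 ≤ cR ρ x y := by
  unfold cR
  refine Finset.sum_nonneg fun w _ => mul_nonneg ?_ ?_
  · rcases h.ρ01 x w with h | h <;> rw [h] <;> norm_num
  · rcases h.ρ01 y w with h | h <;> rw [h] <;> norm_num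

theorem cl_two (h : Pre β ρ b r) (v : V) :
    (cl (HB h v) 2 : ℤ) = ∑ x, ∑ y, β v x * β v y * (β x y + ρ x y) := by
  rw [MM.cl_succ]
  have h1 : ∀ A : Fin 1 → {x : V // β v x = 1},
      MM.c (HB h v) A * MM.d (HB h v) A = (fun x : V => ∑ y, β v y * (β x y + ρ x y)) (A 0).1 := by
    intro A
    have hc : MM.c (HB h v) A = 1 := by
      unfold MM.c
      rw [if_pos]
      intro i j hij
      exact absurd (Subsingleton.elim i j) hij
    rw [hc, one_mul, MM.d]
    have h2 := sumW h.β01 v (fun y => β (A 0).1 y + ρ (A 0).1 y)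
    show _ = ∑ y, β v y * (β (A 0).1 y + ρ (A 0).1 y)
    rw [← h2]
    refine Finset.sum_congr rfl fun w _ => ?_
    unfold MM.e
    have h3 : MM.Ex (HB h v) A w ↔ β (A 0).1 w.1 + ρ (A 0).1 w.1 = 1 := by
      constructor
      · intro h'
        exact (h' 0).symm
      · intro h' j
        rw [Subsingleton.elim j 0]
        exact ((HB h v).symm.symm (A 0) w h')
    rcases M01 h (A 0).1 w.1 with h4 | h4
    · rw [if_neg, h4]
      intro h5
      rw [h3, h4] at h5
      norm_num at h5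
    · rw [if_pos (h3.2 h4), h4]
  rw [Finset.sum_congr rfl fun A _ => h1 A]
  have h2 := sum_one (s := 0) 0 (fun w : {x : V // β v x = 1} =>
    (fun x : V => ∑ y, β v y * (β x y + ρ x y)) w.1)
  rw [h2, pow_zero, one_mul, sumW h.β01 v (fun x : V => ∑ y, β v y * (β x y + ρ x y))]
  refine Finset.sum_congr rfl fun x _ => ?_
  rw [Finset.mul_sum]
  refine Finset.sum_congr rfl fun y _ => ?_
  ring

theorem local_ineq (h : Pre β ρ b r) (v : V) (p : ℕ) :
    2 * (((p : ℤ) + 3) * r - Fintype.card V) * cl (HB h v) (p + 2) ≤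
      2 * ((p : ℤ) + 2) * b ^ (p + 1) * (∑ x, β v x * cR ρ v x) +
      ((p : ℤ) + 2) * (p + 1) * b ^ p *
        ∑ x, ∑ y, β v x * β v y * ((β x y + ρ x y) * cR ρ x y) := by
  classical
  have hcard := cardW h v
  have hcR := cR_nonneg h
  -- weights
  have h1 : ∀ y : Fin (p + 2) → {x : V // β v x = 1},
      2 * (((p : ℤ) + 3) * r - Fintype.card V) * MM.c (HB h v) y ≤
        2 * (∑ i, cR ρ v (y i).1) + ∑ i, ∑ j, if i = j then 0 else
          (β (y i).1 (y j).1 + ρ (y i).1 (y j).1) * cR ρ (y i).1 (y j).1 := by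
    intro y
    unfold MM.c
    have hM : ∀ x y, 0 ≤ β x y + ρ x y := by
      intro x y; rcases M01 h x y with h | h <;> rw [h] <;> norm_num
    split_ifs with hy
    · have h2 := tuple_ineq r h.ρ01 h.degρ v (fun i => (y i).1)
      push_cast at h2
      rw [mul_one]
      have e : ∑ i, ∑ j, (if i = j then 0 else
          (β (y i).1 (y j).1 + ρ (y i).1 (y j).1) * cR ρ (y i).1 (y j).1)
          = ∑ i, ∑ j, if i = j then 0 else cR ρ (y i).1 (y j).1 := by
        refine Finset.sum_congr rfl fun i _ => Finset.sum_congr rfl fun j _ => ?_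
        split_ifs with hij
        · rfl
        · have : β (y i).1 (y j).1 + ρ (y i).1 (y j).1 = 1 := hy i j hij
          rw [this, one_mul]
      rw [e]
      linarith
    · rw [mul_zero]
      refine add_nonneg (mul_nonneg (by norm_num) (Finset.sum_nonneg fun i _ => hcR _ _)) ?_
      refine Finset.sum_nonneg fun i _ => Finset.sum_nonneg fun j _ => ?_
      split_ifs
      · exact le_rfl
      · exact mul_nonneg (hM _ _) (hcR _ _)
  have h2 := Finset.sum_le_sum fun y (_ : y ∈ (Finset.univ : Finset (Fin (p + 2) →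
    {x : V // β v x = 1}))) => h1 y
  rw [← Finset.mul_sum, ← MM.cl_eq, Finset.sum_add_distrib, ← Finset.mul_sum] at h2
  have h3 : ∑ y : Fin (p + 2) → {x : V // β v x = 1}, ∑ i, cR ρ v (y i).1 =
      ((p : ℤ) + 2) * b ^ (p + 1) * ∑ x, β v x * cR ρ v x := by
    rw [Finset.sum_comm]
    have e : ∀ i : Fin (p + 2), ∑ y : Fin (p + 2) → {x : V // β v x = 1}, cR ρ v (y i).1 =
        b ^ (p + 1) * ∑ x, β v x * cR ρ v x := by
      intro i
      have := sum_one (s := p + 1) i (fun w : {x : V // β v x = 1} => cR ρ v w.1)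
      rw [this, sumW h.β01 v (fun x => cR ρ v x), hcard]
    rw [Finset.sum_congr rfl fun i _ => e i]
    simp
    ring
  have h4 : ∑ y : Fin (p + 2) → {x : V // β v x = 1}, ∑ i, ∑ j, (if i = j then 0 else
          (β (y i).1 (y j).1 + ρ (y i).1 (y j).1) * cR ρ (y i).1 (y j).1) =
      ((p : ℤ) + 2) * (p + 1) * b ^ p *
        ∑ x, ∑ y, β v x * β v y * ((β x y + ρ x y) * cR ρ x y) := by
    set Z : ℤ := ∑ x, ∑ y, β v x * β v y * ((β x y + ρ x y) * cR ρ x y) with hZ
    rw [Finset.sum_comm]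
    have e : ∀ i : Fin (p + 2), ∑ y : Fin (p + 2) → {x : V // β v x = 1}, ∑ j,
        (if i = j then 0 else
          (β (y i).1 (y j).1 + ρ (y i).1 (y j).1) * cR ρ (y i).1 (y j).1) =
        ((p : ℤ) + 1) * (b ^ p * Z) := by
      intro i
      rw [Finset.sum_comm]
      have e2 : ∀ j : Fin (p + 2), ∑ y : Fin (p + 2) → {x : V // β v x = 1},
          (if i = j then 0 else
            (β (y i).1 (y j).1 + ρ (y i).1 (y j).1) * cR ρ (y i).1 (y j).1) =
          if i = j then 0 else b ^ p * Z := by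
        intro j
        split_ifs with hij
        · simp
        · have h5 := sum_two (s := p) i j hij (fun w w' : {x : V // β v x = 1} =>
            (β w.1 w'.1 + ρ w.1 w'.1) * cR ρ w.1 w'.1)
          rw [h5, hcard]
          congr 1
          have h6 : ∀ w : {x : V // β v x = 1}, ∑ w' : {x : V // β v x = 1},
              (β w.1 w'.1 + ρ w.1 w'.1) * cR ρ w.1 w'.1 =
              (fun x : V => ∑ y, β v y * ((β x y + ρ x y) * cR ρ x y)) w.1 := fun w =>
            sumW h.β01 v (fun y => (β w.1 y + ρ w.1 y) * cR ρ w.1 y)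
          rw [Finset.sum_congr rfl fun w _ => h6 w,
            sumW h.β01 v (fun x : V => ∑ y, β v y * ((β x y + ρ x y) * cR ρ x y)), hZ]
          refine Finset.sum_congr rfl fun x _ => ?_
          rw [Finset.mul_sum]
          refine Finset.sum_congr rfl fun y _ => ?_
          ring
      rw [Finset.sum_congr rfl fun j _ => e2 j, Finset.sum_ite]
      have h7 : (Finset.univ.filter fun j : Fin (p + 2) => ¬ i = j).card = p + 1 := by
        have : (Finset.univ.filter fun j : Fin (p + 2) => ¬ i = j) = Finset.univ.erase i := by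
          ext j; simp [eq_comm]
        rw [this, Finset.card_erase_of_mem (Finset.mem_univ _)]
        simp
      rw [Finset.sum_const_zero, zero_add, Finset.sum_const, h7, nsmul_eq_mul]
      push_cast
      ring
    rw [Finset.sum_congr rfl fun i _ => e i]
    simp
    ring
  rw [h3, h4] at h2
  linarith

end main

end CLQ

set_option maxHeartbeats 1000000 in
open CLQ in
theorem Core.clq_proof {V : Type} [Fintype V] [Nonempty V] {β ρ : V → V → ℤ} {b r : ℕ}
    (h : Core β ρ b r) (hb : 1 ≤ b) (q : ℕ) (hq : 2 ≤ q)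
    (hE : ((q : ℤ) - 2) * (b : ℤ) ^ 2 < 2 * ((q : ℤ) - 1) * ((r : ℤ) - b + 1)) :
    2 * ((q - 1).factorial : ℤ) * (((q : ℤ) + 1) * r - Fintype.card V)
      < (q : ℤ) * (q + 1) * ((q : ℤ) - 1) ^ (q - 2) * b := by
  obtain ⟨p, rfl⟩ : ∃ p, q = p + 2 := ⟨q - 2, by omega⟩
  have e1 : p + 2 - 1 = p + 1 := by omega
  have e2 : p + 2 - 2 = p := by omega
  rw [e1, e2]
  push_cast at hE ⊢
  have e3 : (p : ℤ) + 2 - 1 = p + 1 := by ring
  have e4 : (p : ℤ) + 2 - 2 = p := by ring
  rw [e3, e4] at hE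
  rw [e3]
  have hp := h.toPre
  have hb' : (0 : ℤ) < b := by exact_mod_cast hb
  set n : ℤ := (Fintype.card V : ℤ) with hn
  have hn0 : 0 < n := by rw [hn]; exact_mod_cast Fintype.card_pos
  set R : ℤ := ∑ v, ∑ x, ∑ y, ρ v x * ρ v y * (β x y + ρ x y) with hR
  set B : ℤ := ∑ v, ∑ x, ∑ y, β v x * β v y * (β x y + ρ x y) with hB
  have hkey : 2 * n * (r - b + 1) + R ≤ B := h.key
  have hcR := cR_nonneg hp
  have hM : ∀ x y, 0 ≤ β x y + ρ x y := by
    intro x y; rcases M01 hp x y with h | h <;> rw [h] <;> norm_num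
  have hβ0 : ∀ x y, 0 ≤ β x y := by
    intro x y; rcases h.β01 x y with h | h <;> rw [h] <;> norm_num
  have hβ1 : ∀ x y, β x y ≤ 1 := by
    intro x y; rcases h.β01 x y with h | h <;> rw [h] <;> norm_num
  have hρ0 : ∀ x y, 0 ≤ ρ x y := by
    intro x y; rcases h.ρ01 x y with h | h <;> rw [h] <;> norm_num
  have hR' : R = ∑ x, ∑ y, (β x y + ρ x y) * cR ρ x y := by
    rw [hR, Finset.sum_comm]
    refine Finset.sum_congr rfl fun x _ => ?_
    rw [Finset.sum_comm]
    refine Finset.sum_congr rfl fun y _ => ?_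
    rw [cR, Finset.mul_sum]
    refine Finset.sum_congr rfl fun w _ => ?_
    rw [h.ρs w x, h.ρs w y]
    ring
  have hR0 : 0 ≤ R := by
    rw [hR']
    exact Finset.sum_nonneg fun x _ => Finset.sum_nonneg fun y _ => mul_nonneg (hM _ _) (hcR _ _)
  have ht1 : ∑ v, ∑ x, β v x * cR ρ v x ≤ R := by
    rw [hR']
    refine Finset.sum_le_sum fun v _ => Finset.sum_le_sum fun x _ => ?_
    refine mul_le_mul_of_nonneg_right ?_ (hcR _ _)
    linarith [hρ0 v x]
  have ht2 : ∑ v, ∑ x, ∑ y, β v x * β v y * ((β x y + ρ x y) * cR ρ x y) ≤ b * R := by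
    rw [hR', Finset.sum_comm, Finset.mul_sum]
    refine Finset.sum_le_sum fun x _ => ?_
    rw [Finset.sum_comm, Finset.mul_sum]
    refine Finset.sum_le_sum fun y _ => ?_
    rw [← Finset.sum_mul]
    refine mul_le_mul_of_nonneg_right ?_ (mul_nonneg (hM _ _) (hcR _ _))
    calc ∑ v, β v x * β v y ≤ ∑ v, β v x := by
          refine Finset.sum_le_sum fun v _ => ?_
          have := mul_le_mul_of_nonneg_left (hβ1 v y) (hβ0 v x)
          linarith
      _ = ∑ v, β x v := Finset.sum_congr rfl fun v _ => h.βs v x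
      _ = b := h.degβ x
  set Q : ℤ := ∑ v, (cl (HB hp v) (p + 2) : ℤ) with hQ
  have hQ0 : 0 ≤ Q := Finset.sum_nonneg fun v _ => by positivity
  have hup : 2 * (((p : ℤ) + 3) * r - n) * Q ≤ ((p : ℤ) + 2) * (p + 3) * b ^ (p + 1) * R := by
    have h1 := Finset.sum_le_sum fun v (_ : v ∈ (Finset.univ : Finset V)) => local_ineq hp v p
    rw [← Finset.mul_sum, Finset.sum_add_distrib, ← Finset.mul_sum, ← Finset.mul_sum, ← hQ,
      ← hn] at h1
    have h2 : (0 : ℤ) ≤ 2 * ((p : ℤ) + 2) * b ^ (p + 1) := by positivity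
    have h3 : (0 : ℤ) ≤ ((p : ℤ) + 2) * (p + 1) * b ^ p := by positivity
    have h4 := mul_le_mul_of_nonneg_left ht1 h2
    have h5 := mul_le_mul_of_nonneg_left ht2 h3
    calc _ ≤ _ := h1
      _ ≤ 2 * ((p : ℤ) + 2) * b ^ (p + 1) * R + ((p : ℤ) + 2) * (p + 1) * b ^ p * (b * R) :=
        add_le_add h4 h5
      _ = _ := by ring
  have hlow : ((p + 1).factorial : ℤ) * b ^ p * (((p : ℤ) + 1) * B - n * (p * b ^ 2)) ≤
      ((p : ℤ) + 1) ^ (p + 1) * Q := by
    have h1 : ∀ v, ((p + 1).factorial : ℤ) * b ^ p * (((p : ℤ) + 1) *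
        (∑ x, ∑ y, β v x * β v y * (β x y + ρ x y)) - p * b ^ 2) ≤
        ((p : ℤ) + 1) ^ (p + 1) * cl (HB hp v) (p + 2) := by
      intro v
      have h2 := MM.lin (HB hp v) p
      rw [cardW hp v, cl_two hp v] at h2
      exact h2
    have h2 := Finset.sum_le_sum fun v (_ : v ∈ (Finset.univ : Finset V)) => h1 v
    rw [← Finset.mul_sum, ← Finset.mul_sum, Finset.sum_sub_distrib, ← Finset.mul_sum, ← hQ,
      ← hB] at h2
    simp only [Finset.sum_const, Finset.card_univ, nsmul_eq_mul, ← hn] at h2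
    exact h2
  set X : ℤ := ((p : ℤ) + 3) * r - n with hX
  have hgoal : ((p : ℤ) + 2 + 1) * r - n = X := by rw [hX]; ring
  rw [hgoal]
  have e5 : (p : ℤ) + 2 + 1 = p + 3 := by ring
  rw [e5]
  rcases le_or_gt X 0 with hX0 | hX0
  · have h1 : 2 * ((p + 1).factorial : ℤ) * X ≤ 0 :=
      mul_nonpos_of_nonneg_of_nonpos (by positivity) hX0
    have h2 : 0 < ((p : ℤ) + 2) * (p + 3) * ((p : ℤ) + 1) ^ p * b := by positivity
    linarith
  · have hfac : (0 : ℤ) < ((p + 1).factorial : ℤ) := by exact_mod_cast Nat.factorial_pos _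
    have hp1 : (0 : ℤ) < (p : ℤ) + 1 := by positivity
    -- strict lower bound for Q
    have h1 : ((p : ℤ) + 1) * R < ((p : ℤ) + 1) * B - n * (p * b ^ 2) := by
      have h2 := mul_le_mul_of_nonneg_left hkey hp1.le
      have h3 := mul_lt_mul_of_pos_left hE hn0
      nlinarith
    have h2 : ((p + 1).factorial : ℤ) * b ^ p * (((p : ℤ) + 1) * R) <
        ((p : ℤ) + 1) ^ (p + 1) * Q :=
      lt_of_lt_of_le (mul_lt_mul_of_pos_left h1 (by positivity)) hlow
    have h3 : 0 < Q := by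
      by_contra h4
      have h5 : Q = 0 := by linarith
      rw [h5, mul_zero] at h2
      have h6 : (0 : ℤ) ≤ ((p + 1).factorial : ℤ) * b ^ p * (((p : ℤ) + 1) * R) := by positivity
      linarith
    have hRpos : 0 < R := by
      by_contra h4
      have h5 : R = 0 := by linarith
      rw [h5, mul_zero] at hup
      have h6 : 0 < 2 * X * Q := by positivity
      linarith
    have h7 : (0 : ℤ) ≤ ((p : ℤ) + 1) * b ^ p * R := by positivity
    have h4 : (((p : ℤ) + 1) * b ^ p * R) * (2 * ((p + 1).factorial : ℤ) * X) <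
        (((p : ℤ) + 1) * b ^ p * R) *
          (((p : ℤ) + 2) * (p + 3) * ((p : ℤ) + 1) ^ p * b) := by
      have h5 := mul_lt_mul_of_pos_left h2 (show (0 : ℤ) < 2 * X by linarith)
      have h6 := mul_le_mul_of_nonneg_left hup (show (0 : ℤ) ≤ ((p : ℤ) + 1) ^ (p + 1) by positivity)
      calc _ = 2 * X * (((p + 1).factorial : ℤ) * b ^ p * (((p : ℤ) + 1) * R)) := by ring
        _ < _ := h5
        _ = ((p : ℤ) + 1) ^ (p + 1) * (2 * X * Q) := by ring
        _ ≤ _ := h6
        _ = _ := by ring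
    exact lt_of_mul_lt_mul_left h4 h7

end Pool.Agent.Flip
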