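import Mathlib

/-!
# Flip graphs: definitions and integer-matrix form

A `(b,r)`-flip graph: a graph whose edges are coloured blue (`B`) and red (`R`).
-/

namespace Pool.Agent.Flip

open Finset BigOperators

/-- closed neighbourhood of `v` in the graph with blue edges `B` and red edges `R` -/
def closedNbr {V : Type*} (B R : SimpleGraph V) (v : V) : Set V :=
  {x | x = v ∨ B.Adj v x ∨ R.Adj v x}

/-- the edges of `H` with both ends in `S` -/
def edgesIn {V : Type*} (H : SimpleGraph V) (S : Set V) : Set (Sym2 V) :=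
  {e | e ∈ H.edgeSet ∧ ∀ x ∈ e, x ∈ S}

/-- `B` (blue) and `R` (red) form a `(b,r)`-flip graph on `V`. -/
structure IsFlip {V : Type*} (B R : SimpleGraph V) (b r : ℕ) : Prop where
  disj : ∀ x y, ¬ (B.Adj x y ∧ R.Adj x y)
  degB : ∀ v, {x | B.Adj v x}.ncard = b
  degR : ∀ v, {x | R.Adj v x}.ncard = r
  flip : ∀ v, (edgesIn R (closedNbr B R v)).ncard < (edgesIn B (closedNbr B R v)).ncard

/-- there is a `(b,r)`-flip graph of order `n` -/
def HasFlip (b r n : ℕ) : Prop := 0 < n ∧ ∃ B R : SimpleGraph (Fin n), IsFlip B R b r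

/-- smallest order of a `(b,r)`-flip graph -/
noncomputable def minOrder (b r : ℕ) : ℕ := sInf {n | HasFlip b r n}

/-- the numerical condition on the number `z` of non-neighbours of a vertex -/
def Fits (b r z : ℕ) : Prop :=
  Even ((b + r + 1 + z) * b) ∧ Even ((b + r + 1 + z) * r) ∧
    2 + ((r : ℤ) - b) * ((b : ℤ) + r + 1 - z) ≤ (z : ℤ) * ((z : ℤ) - 1)

/-- integer matrices of a 2-coloured `(b,r)`-regular graph -/
structure Pre {V : Type*} [Fintype V] (β ρ : V → V → ℤ) (b r : ℤ) : Prop where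
  β01 : ∀ x y, β x y = 0 ∨ β x y = 1
  ρ01 : ∀ x y, ρ x y = 0 ∨ ρ x y = 1
  βs : ∀ x y, β x y = β y x
  ρs : ∀ x y, ρ x y = ρ y x
  βd : ∀ x, β x x = 0
  ρd : ∀ x, ρ x x = 0
  dis : ∀ x y, β x y * ρ x y = 0
  degβ : ∀ x, ∑ y, β x y = b
  degρ : ∀ x, ∑ y, ρ x y = r

/-- integer matrix form of a flip graph -/
structure Core {V : Type*} [Fintype V] (β ρ : V → V → ℤ) (b r : ℤ) : Prop
    extends Pre β ρ b r where
  flip : ∀ v, 2 * (r - b + 1) ≤
    ∑ x, ∑ y, (β v x + ρ v x) * (β v y + ρ v y) * (β x y - ρ x y)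

open Classical in
/-- 0/1 matrix of a graph -/
noncomputable def ind {V : Type*} (H : SimpleGraph V) (x y : V) : ℤ := if H.Adj x y then 1 else 0

end Pool.Agent.Flip
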