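import Pool.Agent.Lib_helper89.FlipW1

/-!
# Flip graphs: the constructions EVEN, ODD and FOUR
-/

namespace Pool.Agent.Flip

open Finset BigOperators

namespace H66

/-- circulant indicator -/
def circ (N k d : ℕ) : ℤ := if d ≠ 0 ∧ (d ≤ k ∨ N - d ≤ k) then 1 else 0

/-- threshold indicator -/
def thr (L i : ℕ) : ℤ := if i < L then 1 else 0

theorem zsum_zero {N : ℕ} [NeZero N] (f : ℕ → ℤ) :
    ∑ y : ZMod N, f y.val = ∑ i ∈ range N, f i := by
  obtain ⟨n, rfl⟩ : ∃ n, N = n + 1 := ⟨N - 1, by have := NeZero.ne N; omega⟩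
  exact Fin.sum_univ_eq_sum_range f (n + 1)

theorem zsum_left {N : ℕ} [NeZero N] (f : ℕ → ℤ) (p : ZMod N) :
    ∑ y : ZMod N, f (y - p).val = ∑ i ∈ range N, f i := by
  rw [← zsum_zero f]
  exact Fintype.sum_equiv (Equiv.subRight p) _ _ (fun y => rfl)

theorem zsum_right {N : ℕ} [NeZero N] (f : ℕ → ℤ) (p : ZMod N) :
    ∑ y : ZMod N, f (p - y).val = ∑ i ∈ range N, f i := by
  rw [← zsum_zero f]
  exact Fintype.sum_equiv (Equiv.subLeft p) _ _ (fun y => rfl)

theorem circ_symm {N : ℕ} [NeZero N] (k : ℕ) (x y : ZMod N) :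
    circ N k (x - y).val = circ N k (y - x).val := by
  have h : y - x = -(x - y) := by ring
  rw [h, ZMod.neg_val]
  set a := x - y
  by_cases ha : a = 0
  · simp [ha, circ]
  · rw [if_neg ha]
    have h1 : a.val ≠ 0 := by simpa using ha
    have h2 : a.val < N := ZMod.val_lt a
    unfold circ
    congr 1
    apply propext
    omega

theorem sum_thr (N L : ℕ) (h : L ≤ N) : ∑ i ∈ range N, thr L i = L := by
  unfold thr
  rw [Finset.sum_ite, Finset.sum_const_zero, add_zero, Finset.sum_const, nsmul_eq_mul, mul_one]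
  congr 1
  have : (range N).filter (fun i => i < L) = range L := by
    ext i; simp; omega
  rw [this, card_range]

theorem sum_circ (N k : ℕ) (h : 2 * k < N) : ∑ i ∈ range N, circ N k i = 2 * k := by
  unfold circ
  rw [Finset.sum_ite, Finset.sum_const_zero, add_zero, Finset.sum_const, nsmul_eq_mul, mul_one]
  have : (range N).filter (fun i => i ≠ 0 ∧ (i ≤ k ∨ N - i ≤ k)) =
      Finset.Icc 1 k ∪ Finset.Ico (N - k) N := by
    ext i
    simp only [mem_filter, mem_range, mem_union, mem_Icc, mem_Ico]
    omega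
  rw [this, Finset.card_union_of_disjoint]
  · simp
    omega
  · rw [Finset.disjoint_left]
    intro i hi
    simp only [mem_Icc, mem_Ico] at *
    omega

theorem sum_ne0 (N : ℕ) (h : 0 < N) :
    ∑ i ∈ range N, (if i = 0 then (0 : ℤ) else 1) = N - 1 := by
  obtain ⟨n, rfl⟩ : ∃ n, N = n + 1 := ⟨N - 1, by omega⟩
  rw [Finset.sum_range_succ']
  simp

/-- differences of two elements close to `p` -/
theorem close {N : ℕ} [NeZero N] {k a b : ℕ} (x y : ZMod N) (hxy : x ≠ y)
    (hx : x.val < a + b) (hy : y.val < a + b) (hx' : a ≤ x.val) (hy' : a ≤ y.val) (hk : b ≤ k + 1) :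
    circ N k (x - y).val = 1 := by
  have hx2 : x.val < N := ZMod.val_lt x
  have hy2 : y.val < N := ZMod.val_lt y
  have hne : x.val ≠ y.val := fun h => hxy (ZMod.val_injective N h)
  rcases lt_or_gt_of_ne hne with h | h
  · rw [circ_symm, ZMod.val_sub h.le]
    unfold circ
    rw [if_pos]
    omega
  · rw [ZMod.val_sub h.le]
    unfold circ
    rw [if_pos]
    omega

end H66

open H66

/-! ### ODD -/

theorem odd_constr_proof (b r z n : ℕ) (hb : 3 ≤ b) (hbr : b < r) (hbe : Even b) (hre : Even r)
    (hn : b + r + 1 + z = n) (_hodd : Odd n) (hz : z ≤ b / 2 + 1)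
    (hi : 2 + ((r : ℤ) - b) * ((n : ℤ) - 2 * z) ≤ z * (z - 1)) : HasFlip b r n := by
  have : NeZero n := ⟨by omega⟩
  obtain ⟨k, hk⟩ := hbe
  obtain ⟨l, hl⟩ := hre
  have hcard : Fintype.card (ZMod n) = n := ZMod.card n
  let β : ZMod n → ZMod n → ℤ := fun x y => circ n k (x - y).val
  let ρ : ZMod n → ZMod n → ℤ := fun x y => circ n (k + l) (x - y).val - circ n k (x - y).val
  have hmono : ∀ d, (circ n k d = 0 ∧ circ n (k + l) d = 0) ∨ (circ n k d = 0 ∧ circ n (k + l) d = 1)
      ∨ (circ n k d = 1 ∧ circ n (k + l) d = 1) := by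
    intro d
    unfold circ
    by_cases h1 : d ≠ 0 ∧ (d ≤ k ∨ n - d ≤ k)
    · have h2 : d ≠ 0 ∧ (d ≤ k + l ∨ n - d ≤ k + l) := by omega
      simp only [if_pos h1, if_pos h2]; simp
    · simp only [if_neg h1]
      split_ifs <;> simp
  have hP : Pre β ρ b r := by
    refine ⟨?_, ?_, ?_, ?_, ?_, ?_, ?_, ?_, ?_⟩
    · intro x y
      rcases hmono (x - y).val with h | h | h <;> simp [β, h.1]
    · intro x y
      rcases hmono (x - y).val with h | h | h <;> simp [ρ, h.1, h.2]
    · intro x y; exact circ_symm k x y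
    · intro x y
      simp only [ρ]
      rw [circ_symm k x y, circ_symm (k + l) x y]
    · intro x; simp [β, circ]
    · intro x; simp [ρ, circ]
    · intro x y
      rcases hmono (x - y).val with h | h | h <;> simp [β, ρ, h.1, h.2]
    · intro x
      simp only [β]
      rw [zsum_right (circ n k), sum_circ n k (by omega)]
      omega
    · intro x
      simp only [ρ]
      rw [Finset.sum_sub_distrib, zsum_right (circ n k), sum_circ n k (by omega),
        zsum_right (circ n (k + l)), sum_circ n (k + l) (by omega)]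
      push_cast
      omega
  have hC : Core β ρ b r := by
    refine core_of_clique hP ?_ z (by rw [hcard]; omega) (by rw [hcard]; exact hi)
    intro v x y hx hy hxy h1 h2
    simp only [β, ρ] at h1 h2 ⊢
    have e1 : circ n (k + l) (v - x).val = 0 := by linarith
    have e2 : circ n (k + l) (v - y).val = 0 := by linarith
    have g1 : (v - x).val ≠ 0 := by
      intro h
      rw [ZMod.val_eq_zero, sub_eq_zero] at h
      exact hx h.symm
    have g2 : (v - y).val ≠ 0 := by
      intro h
      rw [ZMod.val_eq_zero, sub_eq_zero] at h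
      exact hy h.symm
    have e1' : ¬ ((v - x).val ≠ 0 ∧ ((v - x).val ≤ k + l ∨ n - (v - x).val ≤ k + l)) := by
      intro h; unfold circ at e1; rw [if_pos h] at e1; omega
    have e2' : ¬ ((v - y).val ≠ 0 ∧ ((v - y).val ≤ k + l ∨ n - (v - y).val ≤ k + l)) := by
      intro h; unfold circ at e2; rw [if_pos h] at e2; omega
    have hx3 : (v - x).val < n := ZMod.val_lt _
    have hy3 : (v - y).val < n := ZMod.val_lt _
    have := close (k := k) (a := k + l + 1) (b := z) (v - y) (v - x) (by
      intro h; exact hxy (sub_right_injective h).symm) (by omega) (by omega) (by omega) (by omega)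
      (by omega)
    have h3 : v - y - (v - x) = x - y := by ring
    rwa [h3] at this
  have := hasFlip_of_core hC
  rwa [hcard] at this

/-! ### EVEN -/

theorem even_constr_proof (b r z N : ℕ) (hb : 3 ≤ b) (hbr : b < r) (hN : b + r + 1 + z = 2 * N)
    (hz : z ≤ b / 2 + 1)
    (hi : 2 + ((r : ℤ) - b) * (2 * (N : ℤ) - 2 * z) ≤ z * (z - 1)) : HasFlip b r (2 * N) := by
  have : NeZero N := ⟨by omega⟩
  obtain ⟨k, j, hj, hkj⟩ : ∃ k j, j < 2 ∧ b = 2 * k + j := ⟨b / 2, b % 2, by omega, by omega⟩
  have hz' : z ≤ k + 1 := by omega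
  have hcard : Fintype.card (Bool × ZMod N) = 2 * N := by
    rw [Fintype.card_prod, ZMod.card, Fintype.card_bool]
  -- the opposite-side index
  let ix : Bool × ZMod N → Bool × ZMod N → ℕ := fun x y =>
    if x.1 = false then (y.2 - x.2).val else (x.2 - y.2).val
  let β : Bool × ZMod N → Bool × ZMod N → ℤ := fun x y =>
    if x.1 = y.1 then circ N k (x.2 - y.2).val else thr (z + j) (ix x y) - thr z (ix x y)
  let ρ : Bool × ZMod N → Bool × ZMod N → ℤ := fun x y =>
    if x.1 = y.1 then (if (x.2 - y.2).val = 0 then 0 else 1) - circ N k (x.2 - y.2).val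
      else 1 - thr (z + j) (ix x y)
  have hix : ∀ x y, x.1 ≠ y.1 → ix x y = ix y x := by
    rintro ⟨s, p⟩ ⟨t, q⟩ h
    cases s <;> cases t <;> simp [ix] at h ⊢
  have hcc : ∀ d, (circ N k d = 0 ∧ (if d = 0 then (0 : ℤ) else 1) = 0) ∨
      (circ N k d = 0 ∧ (if d = 0 then (0 : ℤ) else 1) = 1)
      ∨ (circ N k d = 1 ∧ (if d = 0 then (0 : ℤ) else 1) = 1) := by
    intro d
    unfold circ
    by_cases h1 : d ≠ 0 ∧ (d ≤ k ∨ N - d ≤ k)
    · simp only [if_pos h1, if_neg h1.1]; simp
    · simp only [if_neg h1]
      split_ifs <;> simp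
  have htt : ∀ d, (thr z d = 0 ∧ thr (z + j) d = 0) ∨ (thr z d = 0 ∧ thr (z + j) d = 1)
      ∨ (thr z d = 1 ∧ thr (z + j) d = 1) := by
    intro d
    unfold thr
    by_cases h1 : d < z
    · have h2 : d < z + j := by omega
      simp only [if_pos h1, if_pos h2]; simp
    · simp only [if_neg h1]
      split_ifs <;> simp
  have hP : Pre β ρ b r := by
    refine ⟨?_, ?_, ?_, ?_, ?_, ?_, ?_, ?_, ?_⟩
    · intro x y
      simp only [β]
      split_ifs
      · rcases hcc (x.2 - y.2).val with h | h | h <;> simp [h.1]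
      · rcases htt (ix x y) with h | h | h <;> simp [h.1, h.2]
    · intro x y
      simp only [ρ]
      by_cases h0 : x.1 = y.1
      · rw [if_pos h0]
        rcases hcc (x.2 - y.2).val with h | h | h <;> rw [h.1, h.2] <;> simp
      · rw [if_neg h0]
        rcases htt (ix x y) with h | h | h <;> rw [h.2] <;> simp
    · intro x y
      simp only [β]
      by_cases h0 : x.1 = y.1
      · rw [if_pos h0, if_pos h0.symm, circ_symm k]
      · rw [if_neg h0, if_neg (Ne.symm h0), hix x y h0]
    · intro x y
      simp only [ρ]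
      by_cases h0 : x.1 = y.1
      · rw [if_pos h0, if_pos h0.symm, circ_symm k]
        congr 1
        have : (x.2 - y.2).val = 0 ↔ (y.2 - x.2).val = 0 := by
          rw [ZMod.val_eq_zero, ZMod.val_eq_zero, sub_eq_zero, sub_eq_zero, eq_comm]
        simp only [this]
      · rw [if_neg h0, if_neg (Ne.symm h0), hix x y h0]
    · intro x; simp [β, circ]
    · intro x; simp [ρ, circ]
    · intro x y
      simp only [β, ρ]
      by_cases h0 : x.1 = y.1
      · rw [if_pos h0, if_pos h0]
        rcases hcc (x.2 - y.2).val with h | h | h <;> rw [h.1, h.2] <;> simp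
      · rw [if_neg h0, if_neg h0]
        rcases htt (ix x y) with h | h | h <;> rw [h.1, h.2] <;> simp
    · rintro ⟨s, p⟩
      rw [Fintype.sum_prod_type, Fintype.sum_bool]
      have e : ∀ f : ℕ → ℤ, ∑ x : ZMod N, f (if s = false then (x - p).val else (p - x).val)
          = ∑ i ∈ range N, f i := by
        intro f
        cases s
        · simp [zsum_left]
        · simp [zsum_right]
      have e1 := e (fun i => thr (z + j) i - thr z i)
      rw [Finset.sum_sub_distrib (s := range N), sum_thr _ _ (by omega), sum_thr _ _ (by omega)] at e1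
      have e2 := zsum_right (circ N k) p
      rw [sum_circ _ _ (by omega)] at e2
      cases s
      · simp only [β, ix] at e1 ⊢
        simp only [Bool.false_eq_true, if_true, if_false] at e1 ⊢
        rw [e1, e2]; omega
      · simp only [β, ix] at e1 ⊢
        simp only [Bool.true_eq_false, if_true, if_false] at e1 ⊢
        rw [e1, e2]; omega
    · rintro ⟨s, p⟩
      rw [Fintype.sum_prod_type, Fintype.sum_bool]
      have e : ∀ f : ℕ → ℤ, ∑ x : ZMod N, f (if s = false then (x - p).val else (p - x).val)
          = ∑ i ∈ range N, f i := by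
        intro f
        cases s
        · simp [zsum_left]
        · simp [zsum_right]
      have e1 := e (fun i => 1 - thr (z + j) i)
      rw [Finset.sum_sub_distrib (s := range N), sum_thr _ _ (by omega), Finset.sum_const, card_range,
        nsmul_eq_mul, mul_one] at e1
      have e2 := zsum_right (fun i => (if i = 0 then (0 : ℤ) else 1) - circ N k i) p
      rw [Finset.sum_sub_distrib (s := range N), sum_circ _ _ (by omega), sum_ne0 _ (by omega)] at e2
      cases s
      · simp only [ρ, ix] at e1 ⊢
        simp only [Bool.false_eq_true, if_true, if_false] at e1 ⊢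
        rw [e1, e2]; push_cast; omega
      · simp only [ρ, ix] at e1 ⊢
        simp only [Bool.true_eq_false, if_true, if_false] at e1 ⊢
        rw [e1, e2]; push_cast; omega
  have hC : Core β ρ b r := by
    refine core_of_clique hP ?_ z (by rw [hcard]; push_cast; omega)
      (by rw [hcard]; push_cast; exact hi)
    have hnon : ∀ v x, x ≠ v → β v x + ρ v x = 0 → v.1 ≠ x.1 ∧ ix v x < z := by
      intro v x hx h1
      simp only [β, ρ] at h1
      by_cases h0 : v.1 = x.1
      · exfalso
        rw [if_pos h0, if_pos h0] at h1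
        have h3 : (v.2 - x.2).val ≠ 0 := by
          intro h
          rw [ZMod.val_eq_zero, sub_eq_zero] at h
          exact hx (Prod.ext h0.symm h.symm)
        rw [if_neg h3] at h1
        omega
      · refine ⟨h0, ?_⟩
        rw [if_neg h0, if_neg h0] at h1
        by_contra h4
        have : thr z (ix v x) = 0 := by unfold thr; rw [if_neg h4]
        omega
    rintro ⟨s, p⟩ ⟨t, q⟩ ⟨t', q'⟩ hx hy hxy h1 h2
    obtain ⟨n1, m1⟩ := hnon _ _ hx h1
    obtain ⟨n2, m2⟩ := hnon _ _ hy h2
    simp only at n1 n2
    have htt' : t = t' := by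
      cases s <;> cases t <;> cases t' <;> simp at n1 n2 ⊢
    subst htt'
    have hq : q ≠ q' := fun h => hxy (by rw [h])
    simp only [β, if_true]
    simp only [ix] at m1 m2
    cases s
    · simp only [if_true] at m1 m2
      have := close (k := k) (a := 0) (b := z) (q - p) (q' - p) (by
        intro h; exact hq (sub_left_injective h)) (by omega) (by omega) (by omega) (by omega)
        (by omega)
      have h3 : q - p - (q' - p) = q - q' := by ring
      rwa [h3] at this
    · simp only [Bool.true_eq_false, if_false] at m1 m2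
      have := close (k := k) (a := 0) (b := z) (p - q') (p - q) (by
        intro h; exact hq (sub_right_injective h).symm) (by omega) (by omega) (by omega) (by omega)
        (by omega)
      have h3 : p - q' - (p - q) = q - q' := by ring
      rwa [h3] at this
  have := hasFlip_of_core hC
  rwa [hcard] at this

/-! ### FOUR -/

theorem four_constr_proof (b r z v : ℕ) (hb : 3 ≤ b) (hbr : b < r) (hn : b + r + 1 + z = 4 * v)
    (hzv : z ≤ v) (hvb : v ≤ b + 1)
    (hi : 2 + ((r : ℤ) - b) * (4 * (v : ℤ) - 2 * z) ≤ z * (z - 1)) : HasFlip b r (4 * v) := by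
  have : NeZero v := ⟨by omega⟩
  obtain ⟨L, hL⟩ : ∃ L, b + 1 = v + L := ⟨b + 1 - v, by omega⟩
  have hL2 : L ≤ 2 * v := by omega
  have hcard : Fintype.card (Bool × Bool × ZMod v) = 4 * v := by
    rw [Fintype.card_prod, Fintype.card_prod, ZMod.card, Fintype.card_bool]; ring
  -- same block index (side decides)
  let ix : Bool × Bool × ZMod v → Bool × Bool × ZMod v → ℕ := fun x y =>
    if x.1 = false then (y.2.2 - x.2.2).val else (x.2.2 - y.2.2).val
  -- different block index
  let iy : Bool × Bool × ZMod v → Bool × Bool × ZMod v → ℕ := fun x y =>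
    (if x.1 = y.1 then 0 else v) +
      (if x.2.1 = false then (y.2.2 - x.2.2).val else (x.2.2 - y.2.2).val)
  let β : Bool × Bool × ZMod v → Bool × Bool × ZMod v → ℤ := fun x y =>
    if x.2.1 = y.2.1 then
      (if x.1 = y.1 then (if (x.2.2 - y.2.2).val = 0 then 0 else 1) else 0)
    else thr L (iy x y)
  let ρ : Bool × Bool × ZMod v → Bool × Bool × ZMod v → ℤ := fun x y =>
    if x.2.1 = y.2.1 then
      (if x.1 = y.1 then 0 else 1 - thr z (ix x y))
    else 1 - thr L (iy x y)
  have hix : ∀ x y, x.1 ≠ y.1 → ix x y = ix y x := by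
    rintro ⟨s, c, p⟩ ⟨t, d, q⟩ h
    cases s <;> cases t <;> simp [ix] at h ⊢
  have hiy : ∀ x y, x.2.1 ≠ y.2.1 → iy x y = iy y x := by
    rintro ⟨s, c, p⟩ ⟨t, d, q⟩ h
    cases s <;> cases t <;> cases c <;> cases d <;> simp [iy] at h ⊢
  have hv0 : ∀ x y : ZMod v, (x - y).val = 0 ↔ (y - x).val = 0 := by
    intro x y
    rw [ZMod.val_eq_zero, ZMod.val_eq_zero, sub_eq_zero, sub_eq_zero, eq_comm]
  have ht : ∀ M d, thr M d = 0 ∨ thr M d = 1 := by
    intro M d; unfold thr; split_ifs <;> simp
  have hthr : ∑ i ∈ range v, thr L i + ∑ i ∈ range v, thr L (v + i) = L := by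
    rw [← Finset.sum_range_add, ← two_mul, sum_thr _ _ hL2]
  have eL : ∀ (c : Bool) (p : ZMod v) (f : ℕ → ℤ),
      ∑ x : ZMod v, f (if c = false then (x - p).val else (p - x).val)
          = ∑ i ∈ range v, f i := by
    intro c p f
    cases c
    · simp [zsum_left]
    · simp [zsum_right]
  have hP : Pre β ρ b r := by
    refine ⟨?_, ?_, ?_, ?_, ?_, ?_, ?_, ?_, ?_⟩
    · intro x y
      simp only [β]
      split_ifs
      · simp
      · simp
      · simp
      · exact ht _ _
    · intro x y
      simp only [ρ]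
      split_ifs
      · simp
      · rcases ht z (ix x y) with h | h <;> rw [h] <;> simp
      · rcases ht L (iy x y) with h | h <;> rw [h] <;> simp
    · intro x y
      simp only [β]
      by_cases h0 : x.2.1 = y.2.1
      · rw [if_pos h0, if_pos h0.symm]
        by_cases h1 : x.1 = y.1
        · rw [if_pos h1, if_pos h1.symm]
          simp only [hv0 x.2.2 y.2.2]
        · rw [if_neg h1, if_neg (Ne.symm h1)]
      · rw [if_neg h0, if_neg (Ne.symm h0), hiy x y h0]
    · intro x y
      simp only [ρ]
      by_cases h0 : x.2.1 = y.2.1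
      · rw [if_pos h0, if_pos h0.symm]
        by_cases h1 : x.1 = y.1
        · rw [if_pos h1, if_pos h1.symm]
        · rw [if_neg h1, if_neg (Ne.symm h1), hix x y h1]
      · rw [if_neg h0, if_neg (Ne.symm h0), hiy x y h0]
    · intro x; simp [β]
    · intro x; simp [ρ]
    · intro x y
      simp only [β, ρ]
      by_cases h0 : x.2.1 = y.2.1
      · rw [if_pos h0, if_pos h0]
        by_cases h1 : x.1 = y.1
        · rw [if_pos h1, if_pos h1, mul_zero]
        · rw [if_neg h1, if_neg h1, zero_mul]
      · rw [if_neg h0, if_neg h0]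
        rcases ht L (iy x y) with h | h <;> rw [h] <;> simp
    · rintro ⟨s, c, p⟩
      rw [Fintype.sum_prod_type, Fintype.sum_bool, Fintype.sum_prod_type, Fintype.sum_prod_type,
        Fintype.sum_bool, Fintype.sum_bool]
      have e1 := eL c p (fun i => thr L i)
      have e2 := eL c p (fun i => thr L (v + i))
      have e3 := zsum_right (fun i => (if i = 0 then (0 : ℤ) else 1)) p
      rw [sum_ne0 _ (by omega)] at e3
      cases s <;> cases c <;>
      · simp only [β, iy] at e1 e2 e3 ⊢
        simp only [Bool.false_eq_true, Bool.true_eq_false, if_true, if_false, zero_add,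
          Finset.sum_const_zero] at e1 e2 e3 ⊢
        rw [e1, e2, e3]; omega
    · rintro ⟨s, c, p⟩
      rw [Fintype.sum_prod_type, Fintype.sum_bool, Fintype.sum_prod_type, Fintype.sum_prod_type,
        Fintype.sum_bool, Fintype.sum_bool]
      have e1 := eL c p (fun i => 1 - thr L i)
      have e2 := eL c p (fun i => 1 - thr L (v + i))
      have e3 := eL s p (fun i => 1 - thr z i)
      rw [Finset.sum_sub_distrib (s := range v), Finset.sum_const, card_range,
        nsmul_eq_mul, mul_one] at e1 e2 e3
      rw [sum_thr _ _ hzv] at e3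
      cases s <;> cases c <;>
      · simp only [ρ, ix, iy] at e1 e2 e3 ⊢
        simp only [Bool.false_eq_true, Bool.true_eq_false, if_true, if_false, zero_add,
          Finset.sum_const_zero] at e1 e2 e3 ⊢
        rw [e1, e2, e3]; omega
  have hC : Core β ρ b r := by
    refine core_of_clique hP ?_ z (by rw [hcard]; push_cast; omega)
      (by rw [hcard]; push_cast; exact hi)
    have hnon : ∀ v x, x ≠ v → β v x + ρ v x = 0 → v.2.1 = x.2.1 ∧ v.1 ≠ x.1 := by
      intro v x hx h1
      simp only [β, ρ] at h1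
      by_cases h0 : v.2.1 = x.2.1
      · refine ⟨h0, fun h2 => ?_⟩
        rw [if_pos h0, if_pos h0, if_pos h2, if_pos h2] at h1
        have h3 : (v.2.2 - x.2.2).val ≠ 0 := by
          intro h
          rw [ZMod.val_eq_zero, sub_eq_zero] at h
          exact hx (Prod.ext h2.symm (Prod.ext h0.symm h.symm))
        rw [if_neg h3] at h1
        omega
      · exfalso
        rw [if_neg h0, if_neg h0] at h1
        omega
    rintro ⟨s, c, p⟩ ⟨t, d, q⟩ ⟨t', d', q'⟩ hx hy hxy h1 h2
    obtain ⟨n1, m1⟩ := hnon _ _ hx h1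
    obtain ⟨n2, m2⟩ := hnon _ _ hy h2
    simp only at n1 n2 m1 m2
    have htt' : t = t' := by
      cases s <;> cases t <;> cases t' <;> simp at m1 m2 ⊢
    have hdd' : d = d' := n1.symm.trans n2
    subst htt' hdd'
    have hq : q ≠ q' := fun h => hxy (by rw [h])
    have h3 : (q - q').val ≠ 0 := by
      intro h
      rw [ZMod.val_eq_zero, sub_eq_zero] at h
      exact hq h
    simp only [β, if_true, if_neg h3]
  have := hasFlip_of_core hC
  rwa [hcard] at this

end Pool.Agent.Flip
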