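import Pool.Agent.Lib_helper89.FlipW2

/-!
# Flip graphs: asymptotics
-/

namespace Pool.Agent.Flip

open Finset BigOperators Filter Topology

theorem upper_bound (b r q : ℕ) (hq : 2 ≤ q) (hqb : q ≤ b)
    (h3 : 2 * (r + 1) ≤ 2 * b + q * (q - 1) * (b / q) ^ 2) :
    ∃ n, n ≤ (q + 1) * (r + q + 3 * (b / q)) ∧ HasFlip b r n := by
  set m := b / q with hm
  have hm1 : 1 ≤ m := (Nat.le_div_iff_mul_le (by omega)).2 (by omega)
  have hqm : q * m ≤ b := Nat.mul_div_le b q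
  have ha0 : b - q * m < q := by
    have := Nat.div_add_mod b q
    have h2 := Nat.mod_lt b (show 0 < q by omega)
    rw [← hm] at this
    omega
  set a0 := b - q * m with ha
  set t0 := (a0 + r + (m - 1)) / m with ht
  have ht1 : m * t0 ≤ a0 + r + (m - 1) := Nat.mul_div_le _ _
  have ht2 : a0 + r ≤ m * t0 := by
    have h1 := Nat.div_add_mod (a0 + r + (m - 1)) m
    have h2 := Nat.mod_lt (a0 + r + (m - 1)) (show 0 < m by omega)
    rw [← ht] at h1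
    omega
  clear_value t0
  set T := 2 * ((t0 + 2) / 2) with hT
  have hT1 : t0 + 1 ≤ T := by omega
  have hT2 : T ≤ t0 + 2 := by omega
  refine ⟨(q + 1) * m * T, ?_, ?_⟩
  · rw [mul_assoc]
    refine Nat.mul_le_mul_left _ ?_
    have : m * T ≤ m * (t0 + 2) := Nat.mul_le_mul_left _ hT2
    have h4 : m * (t0 + 2) = m * t0 + 2 * m := by ring
    omega
  · refine upper_constr b r q m T (by omega) hm1 (even_two_mul _) (by omega) hqm ?_ h3
    have : m * t0 ≤ m * (T - 1) := Nat.mul_le_mul_left _ (by omega)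
    omega

theorem lower_bound (b r q n : ℕ) (hb : 1 ≤ b) (hq : 2 ≤ q) (hn : HasFlip b r n)
    (hE : ((q : ℤ) - 2) * (b : ℤ) ^ 2 < 2 * ((q : ℤ) - 1) * ((r : ℤ) - b + 1)) :
    ((q : ℝ) + 1) * r ≤ n + (q : ℝ) * (q + 1) * ((q : ℝ) - 1) ^ (q - 2) * b := by
  obtain ⟨hn0, B, R, hBR⟩ := hn
  have : Nonempty (Fin n) := ⟨⟨0, hn0⟩⟩
  have h1 := (core_of_isFlip hBR).clq hb q hq hE
  rw [Fintype.card_fin] at h1
  have h2 : (2 : ℝ) * ((q - 1).factorial : ℝ) * (((q : ℝ) + 1) * r - n)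
      < (q : ℝ) * (q + 1) * ((q : ℝ) - 1) ^ (q - 2) * b := by exact_mod_cast h1
  have h3 : (1 : ℝ) ≤ ((q - 1).factorial : ℝ) := by
    exact_mod_cast Nat.succ_le_of_lt (Nat.factorial_pos _)
  by_contra hcon
  push Not at hcon
  have hq1 : (1 : ℝ) ≤ (q : ℝ) - 1 := by
    have : (2 : ℝ) ≤ q := by exact_mod_cast hq
    linarith
  have h4 : 0 ≤ (q : ℝ) * (q + 1) * ((q : ℝ) - 1) ^ (q - 2) * b := by positivity
  have h5 : 0 ≤ ((q : ℝ) + 1) * r - n := by linarith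
  nlinarith

theorem minOrder_le {b r n : ℕ} (h : HasFlip b r n) : minOrder b r ≤ n := Nat.sInf_le h

theorem minOrder_mem {b r n : ℕ} (h : HasFlip b r n) : HasFlip b r (minOrder b r) :=
  Nat.sInf_mem (s := {n | HasFlip b r n}) ⟨n, h⟩

theorem lim_block_proof (q : ℕ) (hq : 2 ≤ q) (x : ℝ)
    (hx1 : q = 2 ∨ ((q : ℝ) - 2) / (2 * ((q : ℝ) - 1)) < x) (hx2 : x < ((q : ℝ) - 1) / (2 * q))
    (r : ℕ → ℕ)
    (hr1 : Filter.Tendsto (fun b => (r b : ℝ) / b) Filter.atTop Filter.atTop)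
    (hr2 : Filter.Tendsto (fun b => (r b : ℝ) / (b : ℝ) ^ 2) Filter.atTop (nhds x)) :
    Filter.Tendsto (fun b => (minOrder b (r b) : ℝ) / (r b)) Filter.atTop (nhds ((q : ℝ) + 1)) := by
  have hq' : (2 : ℝ) ≤ q := by exact_mod_cast hq
  have hbpos : ∀ᶠ b : ℕ in atTop, 0 < b := eventually_gt_atTop 0
  have hinv : Tendsto (fun b : ℕ => ((b : ℝ))⁻¹) atTop (𝓝 0) :=
    tendsto_inv_atTop_zero.comp tendsto_natCast_atTop_atTop
  -- r > b eventually
  have hrb : ∀ᶠ b : ℕ in atTop, b < r b := by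
    filter_upwards [hr1.eventually_gt_atTop 1, hbpos] with b h1 h2
    have h2' : (0 : ℝ) < b := by exact_mod_cast h2
    rw [lt_div_iff₀ h2', one_mul] at h1
    exact_mod_cast h1
  -- the lower threshold
  have hlow : ∀ᶠ b : ℕ in atTop,
      ((q : ℤ) - 2) * (b : ℤ) ^ 2 < 2 * ((q : ℤ) - 1) * ((r b : ℤ) - b + 1) := by
    rcases hx1 with h | h
    · subst h
      filter_upwards [hrb] with b hb
      have : (b : ℤ) < r b := by exact_mod_cast hb
      push_cast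
      nlinarith
    · have ht : Tendsto (fun b : ℕ => (r b : ℝ) / (b : ℝ) ^ 2 - ((b : ℝ))⁻¹) atTop (𝓝 (x - 0)) :=
        hr2.sub hinv
      rw [sub_zero] at ht
      filter_upwards [ht.eventually_const_lt h, hbpos] with b h1 h2
      have h2' : (0 : ℝ) < b := by exact_mod_cast h2
      have hq2 : (0 : ℝ) < 2 * ((q : ℝ) - 1) := by linarith
      rw [div_lt_iff₀ hq2] at h1
      have h3 : ((q : ℝ) - 2) * (b : ℝ) ^ 2 < 2 * ((q : ℝ) - 1) * ((r b : ℝ) - b + 1) := by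
        have h4 : ((r b : ℝ) / (b : ℝ) ^ 2 - ((b : ℝ))⁻¹) * (b : ℝ) ^ 2 = r b - b := by
          field_simp
        have h5 : ((q : ℝ) - 2) * (b : ℝ) ^ 2 <
            ((r b : ℝ) / (b : ℝ) ^ 2 - ((b : ℝ))⁻¹) * (2 * ((q : ℝ) - 1)) * (b : ℝ) ^ 2 :=
          mul_lt_mul_of_pos_right h1 (by positivity)
        have h6 : ((r b : ℝ) / (b : ℝ) ^ 2 - ((b : ℝ))⁻¹) * (2 * ((q : ℝ) - 1)) * (b : ℝ) ^ 2 =
            (2 * ((q : ℝ) - 1)) * (r b - b) := by
          rw [← h4]; ring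
        rw [h6] at h5
        linarith
      exact_mod_cast h3
  -- the upper threshold
  have hupp : ∀ᶠ b : ℕ in atTop, 2 * (r b + 1) ≤ 2 * b + q * (q - 1) * (b / q) ^ 2 := by
    have ht : Tendsto (fun b : ℕ => ((q : ℝ) - 1) / q * (1 - q * ((b : ℝ))⁻¹) ^ 2
        - 2 * ((r b : ℝ) / (b : ℝ) ^ 2)) atTop
        (𝓝 (((q : ℝ) - 1) / q * (1 - q * 0) ^ 2 - 2 * x)) :=
      (((tendsto_const_nhds.sub (hinv.const_mul (q : ℝ))).pow 2).const_mul _).sub (hr2.const_mul 2)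
    have hpos : 0 < ((q : ℝ) - 1) / q * (1 - q * 0) ^ 2 - 2 * x := by
      have : ((q : ℝ) - 1) / (2 * q) = ((q : ℝ) - 1) / q / 2 := by
        field_simp
      rw [this] at hx2
      simp only [mul_zero, sub_zero, one_pow, mul_one]
      linarith
    filter_upwards [ht.eventually_const_lt hpos, hbpos, eventually_ge_atTop q] with b h1 h2 h3
    have h2' : (0 : ℝ) < b := by exact_mod_cast h2
    have hb1 : (1 : ℝ) ≤ b := by exact_mod_cast h2
    have hqpos : (0 : ℝ) < q := by linarith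
    have hq1 : 0 ≤ (q : ℝ) - 1 := by linarith
    have h4 : (b : ℝ) / q - 1 ≤ ((b / q : ℕ) : ℝ) := by
      have h5 := Nat.div_add_mod b q
      have h6 := Nat.mod_lt b (show 0 < q by omega)
      have h7 : (b : ℝ) = q * ((b / q : ℕ) : ℝ) + ((b % q : ℕ) : ℝ) := by exact_mod_cast h5.symm
      have h8 : ((b % q : ℕ) : ℝ) ≤ q := by exact_mod_cast h6.le
      rw [sub_le_iff_le_add, div_le_iff₀ hqpos]
      nlinarith
    have h5 : 0 ≤ (b : ℝ) / q - 1 := by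
      rw [sub_nonneg, le_div_iff₀ hqpos, one_mul]
      exact_mod_cast h3
    have h6 : ((b : ℝ) / q - 1) ^ 2 ≤ ((b / q : ℕ) : ℝ) ^ 2 := pow_le_pow_left₀ h5 h4 2
    have h7 : 2 * (r b : ℝ) < ((q : ℝ) - 1) / q * (b - q) ^ 2 := by
      have h8 : 0 < (((q : ℝ) - 1) / q * (1 - q * ((b : ℝ))⁻¹) ^ 2
        - 2 * ((r b : ℝ) / (b : ℝ) ^ 2)) * (b : ℝ) ^ 2 := mul_pos h1 (by positivity)
      have h9 : (((q : ℝ) - 1) / q * (1 - q * ((b : ℝ))⁻¹) ^ 2
        - 2 * ((r b : ℝ) / (b : ℝ) ^ 2)) * (b : ℝ) ^ 2 =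
          ((q : ℝ) - 1) / q * (b - q) ^ 2 - 2 * (r b : ℝ) := by
        field_simp
      rw [h9] at h8
      linarith
    have h8 : ((q : ℝ) - 1) / q * (b - q) ^ 2 = q * (q - 1) * ((b : ℝ) / q - 1) ^ 2 := by
      field_simp
    have h9 : (2 * ((r b : ℝ) + 1)) ≤ 2 * b + q * (q - 1) * ((b / q : ℕ) : ℝ) ^ 2 := by
      have : q * ((q : ℝ) - 1) * ((b : ℝ) / q - 1) ^ 2 ≤ q * (q - 1) * ((b / q : ℕ) : ℝ) ^ 2 :=
        mul_le_mul_of_nonneg_left h6 (by positivity)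
      linarith
    have h10 : ((q - 1 : ℕ) : ℝ) = (q : ℝ) - 1 := by
      rw [Nat.cast_sub (by omega)]; norm_num
    rw [← h10] at h9
    exact_mod_cast h9
  -- squeeze
  set C : ℝ := (q : ℝ) * (q + 1) * ((q : ℝ) - 1) ^ (q - 2) with hC
  have hinv2 : Tendsto (fun b : ℕ => ((r b : ℝ) / b)⁻¹) atTop (𝓝 0) :=
    tendsto_inv_atTop_zero.comp hr1
  have hL : Tendsto (fun b : ℕ => ((q : ℝ) + 1) - C * ((r b : ℝ) / b)⁻¹) atTop
      (𝓝 ((q : ℝ) + 1)) := by
    have := (tendsto_const_nhds (x := (q : ℝ) + 1)).sub (hinv2.const_mul C)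
    simpa using this
  have hU : Tendsto (fun b : ℕ => ((q : ℝ) + 1) + ((q : ℝ) + 1) * ((q : ℝ) + 3) *
      ((r b : ℝ) / b)⁻¹) atTop (𝓝 ((q : ℝ) + 1)) := by
    have := (tendsto_const_nhds (x := (q : ℝ) + 1)).add
      (hinv2.const_mul (((q : ℝ) + 1) * ((q : ℝ) + 3)))
    simpa using this
  refine tendsto_of_tendsto_of_tendsto_of_le_of_le' hL hU ?_ ?_
  · filter_upwards [hlow, hupp, hbpos, hrb, eventually_ge_atTop q] with b h1 h2 h3 h4 h5
    obtain ⟨n, hn, hf⟩ := upper_bound b (r b) q hq h5 h2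
    have h6 := lower_bound b (r b) q (minOrder b (r b)) (by omega) hq (minOrder_mem hf) h1
    have hbp : (0 : ℝ) < b := by exact_mod_cast h3
    have hrp : (0 : ℝ) < r b := by exact_mod_cast (by omega : 0 < r b)
    rw [inv_div, le_div_iff₀ hrp]
    have h7 : (((q : ℝ) + 1) - C * ((b : ℝ) / r b)) * r b = ((q : ℝ) + 1) * r b - C * b := by
      field_simp
    rw [h7]
    linarith
  · filter_upwards [hlow, hupp, hbpos, hrb, eventually_ge_atTop q] with b h1 h2 h3 h4 h5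
    obtain ⟨n, hn, hf⟩ := upper_bound b (r b) q hq h5 h2
    have h6 : minOrder b (r b) ≤ (q + 1) * (r b + q + 3 * (b / q)) := (minOrder_le hf).trans hn
    have hbp : (1 : ℝ) ≤ b := by exact_mod_cast h3
    have hrp : (0 : ℝ) < r b := by exact_mod_cast (by omega : 0 < r b)
    rw [inv_div, div_le_iff₀ hrp]
    have h7 : (((q : ℝ) + 1) + ((q : ℝ) + 1) * ((q : ℝ) + 3) * ((b : ℝ) / r b)) * r b =
        ((q : ℝ) + 1) * r b + ((q : ℝ) + 1) * ((q : ℝ) + 3) * b := by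
      field_simp
    rw [h7]
    have h8 : (b / q : ℕ) ≤ b := Nat.div_le_self _ _
    have h9 : ((b / q : ℕ) : ℝ) ≤ b := by exact_mod_cast h8
    have h10 : (minOrder b (r b) : ℝ) ≤ ((q : ℝ) + 1) * (r b + q + 3 * ((b / q : ℕ) : ℝ)) := by
      exact_mod_cast h6
    have h11 : (q : ℝ) ≤ q * b := by nlinarith
    have h12 : ((q : ℝ) + 1) * (r b + q + 3 * ((b / q : ℕ) : ℝ)) ≤
        ((q : ℝ) + 1) * (r b + q * b + 3 * b) :=
      mul_le_mul_of_nonneg_left (by linarith) (by linarith)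
    nlinarith

end Pool.Agent.Flip
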