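import Pool.Agent.Lib_helper89.FlipDefs

/-!
# Flip graphs: the non-neighbourhood identity
-/

namespace Pool.Agent.Flip

open Finset BigOperators

set_option linter.unusedSectionVars false

section
variable {V : Type} [Fintype V] [DecidableEq V] {β ρ : V → V → ℤ} {b r : ℤ}

/-- non-neighbour indicator -/
def nonn (β ρ : V → V → ℤ) (v x : V) : ℤ := 1 - β v x - ρ v x - if x = v then 1 else 0

theorem Pre.M01 (h : Pre β ρ b r) (x y : V) : β x y + ρ x y = 0 ∨ β x y + ρ x y = 1 := by
  rcases h.β01 x y with h1 | h1 <;> rcases h.ρ01 x y with h2 | h2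
  · left; rw [h1, h2]; rfl
  · right; rw [h1, h2]; rfl
  · right; rw [h1, h2]; rfl
  · exfalso; have := h.dis x y; rw [h1, h2] at this; norm_num at this

theorem Pre.nonn01 (h : Pre β ρ b r) (v x : V) : nonn β ρ v x = 0 ∨ nonn β ρ v x = 1 := by
  unfold nonn
  by_cases hx : x = v
  · subst hx; left; rw [h.βd, h.ρd]; simp
  · rcases h.M01 v x with h1 | h1
    · right; simp only [hx, if_false]; linarith
    · left; simp only [hx, if_false]; linarith

theorem Pre.nonn_mul (h : Pre β ρ b r) (v x : V) : nonn β ρ v x * (β v x - ρ v x) = 0 := by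
  unfold nonn
  by_cases hx : x = v
  · subst hx; rw [h.βd, h.ρd]; simp
  · have hd := h.dis v x
    rcases h.β01 v x with h1 | h1 <;> rcases h.ρ01 v x with h2 | h2 <;>
      simp [hx, h1, h2] at hd ⊢

theorem Pre.sum_nonn (h : Pre β ρ b r) (v : V) :
    ∑ x, nonn β ρ v x = (Fintype.card V : ℤ) - 1 - b - r := by
  unfold nonn
  simp only [Finset.sum_sub_distrib, h.degβ, h.degρ, Finset.sum_ite_eq', Finset.mem_univ, if_true]
  simp
  ring

theorem Pre.ident_proof (h : Pre β ρ b r) (v : V) :
    ∑ x, ∑ y, (β v x + ρ v x) * (β v y + ρ v y) * (β x y - ρ x y) =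
      (∑ x, ∑ y, (1 - β v x - ρ v x - if x = v then 1 else 0) *
        (1 - β v y - ρ v y - if y = v then 1 else 0) * (β x y - ρ x y))
      + (r - b) * (2 * ((Fintype.card V : ℤ) - 1 - b - r) + 2 - Fintype.card V) := by
  change _ = (∑ x, ∑ y, nonn β ρ v x * nonn β ρ v y * (β x y - ρ x y)) + _
  set D : V → V → ℤ := fun x y => β x y - ρ x y with hD
  have hDrow : ∀ x, ∑ y, D x y = b - r := fun x => by
    simp only [hD, Finset.sum_sub_distrib, h.degβ, h.degρ]
  have hDs : ∀ x y, D x y = D y x := fun x y => by simp only [hD, h.βs x y, h.ρs x y]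
  have hDcol : ∀ y, ∑ x, D x y = b - r := fun y => by
    rw [← hDrow y]; exact Finset.sum_congr rfl fun x _ => hDs x y
  have hDd : ∀ x, D x x = 0 := fun x => by simp only [hD, h.βd, h.ρd]; ring
  have hM : ∀ x, β v x + ρ v x = 1 - (if x = v then 1 else 0) - nonn β ρ v x := fun x => by
    unfold nonn; ring
  have e1 : ∀ x y, (β v x + ρ v x) * (β v y + ρ v y) * (β x y - ρ x y) =
      D x y - (if x = v then D v y else 0) - (if y = v then D x v else 0)
      - nonn β ρ v x * D x y - nonn β ρ v y * D x y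
      + (if x = v then (if y = v then D v v else 0) else 0)
      + (if x = v then nonn β ρ v y * D v y else 0)
      + (if y = v then nonn β ρ v x * D x v else 0)
      + nonn β ρ v x * nonn β ρ v y * D x y := by
    intro x y
    rw [hM x, hM y]
    change (_ : ℤ) * _ * D x y = _
    by_cases hx : x = v
    · by_cases hy : y = v
      · subst hx; subst hy; simp; ring
      · subst hx; simp [hy]; ring
    · by_cases hy : y = v
      · subst hy; simp [hx]; ring
      · simp [hx, hy]; ring
  simp_rw [e1, Finset.sum_add_distrib, Finset.sum_sub_distrib]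
  have s1 : ∑ x, ∑ y, D x y = (Fintype.card V : ℤ) * (b - r) := by
    simp_rw [hDrow, Finset.sum_const, Finset.card_univ, nsmul_eq_mul]
  have s2 : ∑ x, ∑ y, (if x = v then D v y else 0) = b - r := by
    rw [Finset.sum_comm]
    simp only [Finset.sum_ite_eq', Finset.mem_univ, if_true]
    exact hDrow v
  have s3 : ∑ x, ∑ y, (if y = v then D x v else 0) = b - r := by
    simp only [Finset.sum_ite_eq', Finset.mem_univ, if_true]
    exact hDcol v
  have s4 : ∑ x, ∑ y, nonn β ρ v x * D x y = ((Fintype.card V : ℤ) - 1 - b - r) * (b - r) := by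
    simp_rw [← Finset.mul_sum, hDrow, ← Finset.sum_mul, h.sum_nonn]
  have s5 : ∑ x, ∑ y, nonn β ρ v y * D x y = ((Fintype.card V : ℤ) - 1 - b - r) * (b - r) := by
    rw [Finset.sum_comm]
    simp_rw [← Finset.mul_sum, hDcol, ← Finset.sum_mul, h.sum_nonn]
  have s6 : ∑ x, ∑ y, (if x = v then (if y = v then D v v else 0) else 0) = (0 : ℤ) := by
    simp [hDd]
  have s7 : ∑ x, ∑ y, (if x = v then nonn β ρ v y * D v y else 0) = (0 : ℤ) := by
    rw [Finset.sum_comm]
    simp only [Finset.sum_ite_eq', Finset.mem_univ, if_true]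
    exact Finset.sum_eq_zero fun y _ => h.nonn_mul v y
  have s8 : ∑ x, ∑ y, (if y = v then nonn β ρ v x * D x v else 0) = (0 : ℤ) := by
    simp only [Finset.sum_ite_eq', Finset.mem_univ, if_true]
    exact Finset.sum_eq_zero fun x _ => by rw [hDs]; exact h.nonn_mul v x
  rw [s1, s2, s3, s4, s5, s6, s7, s8]
  simp only [hD]
  ring

theorem Pre.ccd_le (h : Pre β ρ b r) (v : V) :
    ∑ x, ∑ y, nonn β ρ v x * nonn β ρ v y * (β x y - ρ x y) ≤
      ((Fintype.card V : ℤ) - 1 - b - r) * ((Fintype.card V : ℤ) - 1 - b - r - 1) := by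
  have h1 : ∀ x y, nonn β ρ v x * nonn β ρ v y * (β x y - ρ x y) ≤
      nonn β ρ v x * nonn β ρ v y - (if x = y then nonn β ρ v x else 0) := by
    intro x y
    by_cases hxy : x = y
    · subst hxy
      rw [h.βd, h.ρd]
      rcases h.nonn01 v x with h2 | h2 <;> simp [h2]
    · simp only [hxy, if_false, sub_zero]
      have h4 : β x y - ρ x y ≤ 1 := by
        rcases h.β01 x y with h2 | h2 <;> rcases h.ρ01 x y with h3 | h3 <;> rw [h2, h3] <;>
          norm_num
      have h5 : 0 ≤ nonn β ρ v x * nonn β ρ v y := by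
        rcases h.nonn01 v x with h2 | h2 <;> rcases h.nonn01 v y with h3 | h3 <;> rw [h2, h3] <;>
          norm_num
      nlinarith
  refine (Finset.sum_le_sum fun x _ => Finset.sum_le_sum fun y _ => h1 x y).trans (le_of_eq ?_)
  simp_rw [Finset.sum_sub_distrib, ← Finset.mul_sum, Finset.sum_ite_eq, Finset.mem_univ, if_true,
    ← Finset.sum_mul, h.sum_nonn]
  ring

end

section
variable {V : Type} [Fintype V] {β ρ : V → V → ℤ} {b r : ℤ}

theorem Core.low1_proof [Nonempty V] (h : Core β ρ b r) (z : ℤ)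
    (hz : (Fintype.card V : ℤ) = b + r + 1 + z) :
    0 ≤ z ∧ 2 + (r - b) * (Fintype.card V - 2 * z) ≤ z * (z - 1) := by
  classical
  obtain ⟨v⟩ := (inferInstance : Nonempty V)
  have h1 := h.toPre.ident_proof v
  have h2 := h.flip v
  have h3 := h.toPre.ccd_le v
  have h4 := h.toPre.sum_nonn v
  have h5 : 0 ≤ ∑ x, nonn β ρ v x := Finset.sum_nonneg fun x _ => by
    rcases h.toPre.nonn01 v x with h2 | h2 <;> rw [h2]; norm_num
  have hz' : (Fintype.card V : ℤ) - 1 - b - r = z := by linarith
  rw [hz'] at h1 h3 h4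
  refine ⟨by linarith, ?_⟩
  change _ = (∑ x, ∑ y, nonn β ρ v x * nonn β ρ v y * (β x y - ρ x y)) + _ at h1
  rw [h1] at h2
  nlinarith

theorem Core.low2_proof [Nonempty V] (h : Core β ρ b r) (z : ℤ)
    (hz : (Fintype.card V : ℤ) = b + r + 1 + z) :
    2 + (r - b) * (Fintype.card V - 2 * z) ≤ z * b := by
  classical
  obtain ⟨v⟩ := (inferInstance : Nonempty V)
  have h1 := h.toPre.ident_proof v
  have h2 := h.flip v
  have h4 := h.toPre.sum_nonn v
  have hz' : (Fintype.card V : ℤ) - 1 - b - r = z := by linarith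
  rw [hz'] at h1 h4
  have h3 : ∑ x, ∑ y, nonn β ρ v x * nonn β ρ v y * (β x y - ρ x y) ≤ z * b := by
    have h5 : ∀ x y, nonn β ρ v x * nonn β ρ v y * (β x y - ρ x y) ≤ nonn β ρ v x * β x y := by
      intro x y
      rcases h.toPre.nonn01 v x with h6 | h6 <;> rcases h.toPre.nonn01 v y with h7 | h7 <;>
        rcases h.β01 x y with h8 | h8 <;> rcases h.ρ01 x y with h9 | h9 <;>
        rw [h6, h7, h8, h9] <;> norm_num
    refine (Finset.sum_le_sum fun x _ => Finset.sum_le_sum fun y _ => h5 x y).trans (le_of_eq ?_)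
    simp_rw [← Finset.mul_sum, h.degβ, ← Finset.sum_mul, h4]
  change _ = (∑ x, ∑ y, nonn β ρ v x * nonn β ρ v y * (β x y - ρ x y)) + _ at h1
  rw [h1] at h2
  nlinarith

theorem even_sum_of_symm {V : Type} [Fintype V] (β : V → V → ℤ) (hs : ∀ x y, β x y = β y x)
    (hd : ∀ x, β x x = 0) (h01 : ∀ x y, β x y = 0 ∨ β x y = 1) :
    Even (∑ x, ∑ y, β x y) := by
  classical
  let H : SimpleGraph V :=
    { Adj := fun x y => β x y = 1
      symm := ⟨fun x y h => by rw [hs]; exact h⟩
      loopless := ⟨fun x h => by rw [hd] at h; exact absurd h (by norm_num)⟩ }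
  have h1 := H.sum_degrees_eq_twice_card_edges
  have h2 : (∑ x, ∑ y, β x y) = ((∑ v, H.degree v : ℕ) : ℤ) := by
    push_cast
    refine Finset.sum_congr rfl fun x _ => ?_
    rw [← SimpleGraph.card_neighborFinset_eq_degree, Finset.card_eq_sum_ones,
      SimpleGraph.neighborFinset_eq_filter, Finset.sum_filter]
    push_cast
    refine Finset.sum_congr rfl fun y _ => ?_
    simp only [H]
    rcases h01 x y with h | h <;> simp [h]
  rw [h2, h1]
  push_cast
  exact even_two_mul _

theorem Core.even_proof {b r : ℕ} (h : Core β ρ b r) :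
    Even (Fintype.card V * b) ∧ Even (Fintype.card V * r) := by
  have h1 := even_sum_of_symm β h.βs h.βd h.β01
  have h2 := even_sum_of_symm ρ h.ρs h.ρd h.ρ01
  simp_rw [h.degβ] at h1
  simp_rw [h.degρ] at h2
  simp only [Finset.sum_const, Finset.card_univ, nsmul_eq_mul] at h1 h2
  exact ⟨by exact_mod_cast h1, by exact_mod_cast h2⟩

theorem core_of_clique_proof (h : Pre β ρ b r)
    (hc : ∀ v x y, x ≠ v → y ≠ v → x ≠ y → β v x + ρ v x = 0 → β v y + ρ v y = 0 → β x y = 1)
    (z : ℤ) (hz : (Fintype.card V : ℤ) = b + r + 1 + z)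
    (hi : 2 + (r - b) * (Fintype.card V - 2 * z) ≤ z * (z - 1)) : Core β ρ b r := by
  classical
  refine { toPre := h, flip := fun v => ?_ }
  have h1 := h.ident_proof v
  have h4 := h.sum_nonn v
  have hz' : (Fintype.card V : ℤ) - 1 - b - r = z := by linarith
  rw [hz'] at h1 h4
  have h3 : ∑ x, ∑ y, nonn β ρ v x * nonn β ρ v y * (β x y - ρ x y) = z * (z - 1) := by
    have h5 : ∀ x y, nonn β ρ v x * nonn β ρ v y * (β x y - ρ x y) =
        nonn β ρ v x * nonn β ρ v y - (if x = y then nonn β ρ v x else 0) := by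
      intro x y
      by_cases hxy : x = y
      · subst hxy
        rw [h.βd, h.ρd]
        rcases h.nonn01 v x with h2 | h2 <;> simp [h2]
      · simp only [hxy, if_false, sub_zero]
        have hne : ∀ w, nonn β ρ v w = 1 → w ≠ v ∧ β v w + ρ v w = 0 := by
          intro w hw
          unfold nonn at hw
          by_cases hwv : w = v
          · subst hwv; rw [h.βd, h.ρd] at hw; simp at hw
          · refine ⟨hwv, ?_⟩
            simp only [hwv, if_false] at hw
            linarith
        rcases h.nonn01 v x with h6 | h6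
        · rw [h6]; ring
        · rcases h.nonn01 v y with h7 | h7
          · rw [h7]; ring
          · have ha := hne x h6
            have hb := hne y h7
            have hβ := hc v x y ha.1 hb.1 hxy ha.2 hb.2
            have hρ : ρ x y = 0 := by
              have := h.dis x y
              rw [hβ, one_mul] at this
              exact this
            rw [h6, h7, hβ, hρ]; norm_num
    simp_rw [h5, Finset.sum_sub_distrib, ← Finset.mul_sum, Finset.sum_ite_eq, Finset.mem_univ,
      if_true, ← Finset.sum_mul, h4]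
    ring
  change _ = (∑ x, ∑ y, nonn β ρ v x * nonn β ρ v y * (β x y - ρ x y)) + _ at h1
  rw [h1, h3]
  nlinarith

end

end Pool.Agent.Flip
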