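import Pool.Agent.Lib_helper89.FlipW1

/-!
# Flip graphs: block MM (Moon-Moser inequality for ordered cliques)
-/

namespace Pool.Agent.Flip

open Finset BigOperators

namespace MM

variable {W : Type} [Fintype W] (H : SimpleGraph W)

/-- `y` is an ordered clique -/
def Cl {s : ℕ} (y : Fin s → W) : Prop := ∀ i j, i ≠ j → H.Adj (y i) (y j)

/-- `w` is adjacent to all entries of `A` -/
def Ex {s : ℕ} (A : Fin s → W) (w : W) : Prop := ∀ j, H.Adj w (A j)

omit [Fintype W] in
theorem cl_insertNth {s : ℕ} (i : Fin (s + 1)) (w : W) (A : Fin s → W) :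
    Cl H (Fin.insertNth (α := fun _ => W) i w A) ↔ Cl H A ∧ Ex H A w := by
  constructor
  · intro h
    refine ⟨fun a b hab => ?_, fun j => ?_⟩
    · have := h (i.succAbove a) (i.succAbove b) (fun h' => hab (Fin.succAbove_right_injective h'))
      simpa using this
    · have := h i (i.succAbove j) (Fin.succAbove_ne i j).symm
      simpa using this
  · rintro ⟨h1, h2⟩ a b hab
    rcases eq_or_ne a i with ha | ha
    · subst ha
      obtain ⟨b', rfl⟩ := Fin.exists_succAbove_eq hab.symm
      simpa using h2 b'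
    · obtain ⟨a', rfl⟩ := Fin.exists_succAbove_eq ha
      rcases eq_or_ne b i with hb | hb
      · subst hb
        simpa using (h2 a').symm
      · obtain ⟨b', rfl⟩ := Fin.exists_succAbove_eq hb
        simpa using h1 a' b' (fun h => hab (by rw [h]))

open Classical in
/-- indicator of cliques -/
noncomputable def c {s : ℕ} (y : Fin s → W) : ℤ := if Cl H y then 1 else 0

open Classical in
/-- indicator of extension -/
noncomputable def e {s : ℕ} (y : Fin s → W) (w : W) : ℤ := if Ex H y w then 1 else 0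

omit [Fintype W] in
theorem c_insertNth {s : ℕ} (i : Fin (s + 1)) (w : W) (A : Fin s → W) :
    c H (Fin.insertNth (α := fun _ => W) i w A) = c H A * e H A w := by
  unfold c e
  by_cases h1 : Cl H A <;> by_cases h2 : Ex H A w <;> simp [cl_insertNth, h1, h2]

theorem cl_eq (s : ℕ) : (cl H s : ℤ) = ∑ y : Fin s → W, c H y := by
  classical
  unfold cl c
  rw [Nat.card_eq_fintype_card, Fintype.card_subtype, Finset.sum_boole]
  congr!

/-- sum over tuples, one coordinate split off -/
theorem sum_insertNth {s : ℕ} {M : Type} [AddCommMonoid M] (i : Fin (s + 1))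
    (f : (Fin (s + 1) → W) → M) :
    ∑ y, f y = ∑ A : Fin s → W, ∑ w, f (Fin.insertNth (α := fun _ => W) i w A) := by
  rw [← (Fin.insertNthEquiv (fun _ => W) i).sum_comp, Fintype.sum_prod_type, Finset.sum_comm]
  rfl

/-- number of extensions -/
noncomputable def d {s : ℕ} (A : Fin s → W) : ℤ := ∑ w, e H A w

theorem cl_succ (s : ℕ) : (cl H (s + 1) : ℤ) = ∑ A : Fin s → W, c H A * d H A := by
  rw [cl_eq, sum_insertNth 0]
  refine Finset.sum_congr rfl fun A _ => ?_
  rw [d, Finset.mul_sum]
  exact Finset.sum_congr rfl fun w _ => c_insertNth H 0 w A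

theorem sum_sq {s : ℕ} (i : Fin (s + 1)) :
    ∑ S : Fin (s + 1) → W, ∑ y, c H S * e H (fun j => S (i.succAbove j)) y
      = ∑ A : Fin s → W, c H A * d H A ^ 2 := by
  rw [sum_insertNth i]
  refine Finset.sum_congr rfl fun A _ => ?_
  rw [sq, d, Finset.sum_mul_sum, Finset.mul_sum]
  refine Finset.sum_congr rfl fun w _ => ?_
  rw [Finset.mul_sum]
  refine Finset.sum_congr rfl fun y _ => ?_
  rw [c_insertNth]
  simp [mul_assoc]

omit [Fintype W] in
theorem a_le {s : ℕ} (S : Fin (s + 1) → W) (y : W) :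
    ∑ i : Fin (s + 1), e H (fun j => S (i.succAbove j)) y ≤ 1 + s * e H S y := by
  classical
  by_cases h : Ex H S y
  · have h1 : e H S y = 1 := by unfold e; rw [if_pos h]
    rw [h1]
    calc ∑ i : Fin (s + 1), e H (fun j => S (i.succAbove j)) y ≤ ∑ _i : Fin (s + 1), (1 : ℤ) := by
          refine Finset.sum_le_sum fun i _ => ?_
          unfold e; split_ifs <;> norm_num
      _ = 1 + s * 1 := by simp; ring
  · have h1 : e H S y = 0 := by unfold e; rw [if_neg h]
    rw [h1]
    obtain ⟨j, hj⟩ : ∃ j, ¬ H.Adj y (S j) := by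
      by_contra h'
      push Not at h'
      exact h h'
    rw [Finset.sum_eq_single_of_mem j (Finset.mem_univ _)]
    · unfold e; split_ifs <;> norm_num
    · intro i _ hij
      unfold e
      rw [if_neg]
      intro h'
      obtain ⟨j', rfl⟩ := Fin.exists_succAbove_eq hij.symm
      exact hj (h' j')

/-- Moon-Moser inequality. -/
theorem moon_moser (s : ℕ) : ((s : ℤ) + 1) * (cl H (s + 1) : ℤ) ^ 2 ≤
    cl H s * (Fintype.card W * cl H (s + 1) + s * cl H (s + 2)) := by
  have h1 : ((s : ℤ) + 1) * ∑ A : Fin s → W, c H A * d H A ^ 2 ≤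
      Fintype.card W * cl H (s + 1) + s * cl H (s + 2) := by
    calc ((s : ℤ) + 1) * ∑ A : Fin s → W, c H A * d H A ^ 2
        = ∑ i : Fin (s + 1), ∑ S : Fin (s + 1) → W, ∑ y,
            c H S * e H (fun j => S (i.succAbove j)) y := by
          rw [Finset.sum_congr rfl fun i _ => sum_sq H i]
          simp
      _ = ∑ S : Fin (s + 1) → W, ∑ y, c H S * ∑ i : Fin (s + 1),
            e H (fun j => S (i.succAbove j)) y := by
          rw [Finset.sum_comm]
          refine Finset.sum_congr rfl fun S _ => ?_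
          rw [Finset.sum_comm]
          refine Finset.sum_congr rfl fun y _ => ?_
          rw [Finset.mul_sum]
      _ ≤ ∑ S : Fin (s + 1) → W, ∑ y, c H S * (1 + s * e H S y) := by
          refine Finset.sum_le_sum fun S _ => Finset.sum_le_sum fun y _ => ?_
          refine mul_le_mul_of_nonneg_left (a_le H S y) ?_
          unfold c; split_ifs <;> norm_num
      _ = Fintype.card W * cl H (s + 1) + s * cl H (s + 2) := by
          rw [cl_succ H (s + 1), cl_eq H (s + 1), Finset.mul_sum, Finset.mul_sum,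
            ← Finset.sum_add_distrib]
          refine Finset.sum_congr rfl fun S _ => ?_
          rw [← Finset.mul_sum, Finset.sum_add_distrib, ← Finset.mul_sum, ← d]
          simp
          ring
  have h2 : (cl H (s + 1) : ℤ) ^ 2 ≤ cl H s * ∑ A : Fin s → W, c H A * d H A ^ 2 := by
    rw [cl_succ, cl_eq H s]
    have h3 := Finset.sum_mul_sq_le_sq_mul_sq (Finset.univ : Finset (Fin s → W))
      (fun A => c H A) (fun A => c H A * d H A)
    have hc : ∀ A : Fin s → W, c H A * c H A = c H A := by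
      intro A; unfold c; split_ifs <;> norm_num
    have h4 : ∑ A : Fin s → W, c H A * (c H A * d H A) = ∑ A : Fin s → W, c H A * d H A :=
      Finset.sum_congr rfl fun A _ => by rw [← mul_assoc, hc]
    have h5 : ∑ A : Fin s → W, (c H A) ^ 2 = ∑ A : Fin s → W, c H A :=
      Finset.sum_congr rfl fun A _ => by rw [sq, hc]
    have h6 : ∑ A : Fin s → W, (c H A * d H A) ^ 2 = ∑ A : Fin s → W, c H A * d H A ^ 2 :=
      Finset.sum_congr rfl fun A _ => by rw [mul_pow, sq (c H A), hc]
    rw [h4, h5, h6] at h3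
    exact h3
  have h7 : (0 : ℤ) ≤ cl H s := by positivity
  have h8 : (0 : ℤ) ≤ (s : ℤ) + 1 := by positivity
  calc ((s : ℤ) + 1) * (cl H (s + 1) : ℤ) ^ 2
      ≤ ((s : ℤ) + 1) * (cl H s * ∑ A : Fin s → W, c H A * d H A ^ 2) :=
        mul_le_mul_of_nonneg_left h2 h8
    _ = cl H s * (((s : ℤ) + 1) * ∑ A : Fin s → W, c H A * d H A ^ 2) := by ring
    _ ≤ _ := mul_le_mul_of_nonneg_left h1 h7

theorem cl_zero : cl H 0 = 1 := by
  have : (cl H 0 : ℤ) = 1 := by
    rw [cl_eq]
    simp only [Finset.univ_unique, Finset.sum_singleton]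
    unfold c
    rw [if_pos]
    intro i; exact i.elim0
  exact_mod_cast this

theorem cl_one : cl H 1 = Fintype.card W := by
  have : (cl H 1 : ℤ) = Fintype.card W := by
    rw [cl_succ]
    simp only [Finset.univ_unique, Finset.sum_singleton]
    have h1 : c H (default : Fin 0 → W) = 1 := by
      unfold c
      rw [if_pos]
      intro i; exact i.elim0
    have h2 : d H (default : Fin 0 → W) = Fintype.card W := by
      unfold d e
      have : ∀ w, Ex H (default : Fin 0 → W) w := fun w i => i.elim0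
      simp [this]
    rw [h1, h2, one_mul]
  exact_mod_cast this

theorem lin (p : ℕ) : ((p + 1).factorial : ℤ) * (Fintype.card W : ℤ) ^ p *
        (((p : ℤ) + 1) * cl H 2 - p * (Fintype.card W : ℤ) ^ 2)
      ≤ ((p : ℤ) + 1) ^ (p + 1) * cl H (p + 2) := by
  set n : ℤ := (Fintype.card W : ℤ) with hn
  have hn0 : 0 ≤ n := by rw [hn]; positivity
  set x : ℕ → ℤ := fun s => (cl H s : ℤ) with hx
  have hx0 : ∀ s, 0 ≤ x s := fun s => by rw [hx]; positivity
  have hx1 : x 1 = n := by rw [hx, hn]; exact congrArg _ (cl_one H)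
  have hmm : ∀ s : ℕ, ((s : ℤ) + 1) * x (s + 1) ^ 2 ≤ x s * (n * x (s + 1) + s * x (s + 2)) :=
    fun s => moon_moser H s
  show ((p + 1).factorial : ℤ) * n ^ p * (((p : ℤ) + 1) * x 2 - p * n ^ 2)
    ≤ ((p : ℤ) + 1) ^ (p + 1) * x (p + 2)
  rcases le_or_gt (((p : ℤ) + 1) * x 2 - p * n ^ 2) 0 with hK | hK
  · have h1 : ((p + 1).factorial : ℤ) * n ^ p * (((p : ℤ) + 1) * x 2 - p * n ^ 2) ≤ 0 :=
      mul_nonpos_of_nonneg_of_nonpos (by positivity) hK
    have h2 : 0 ≤ ((p : ℤ) + 1) ^ (p + 1) * x (p + 2) := mul_nonneg (by positivity) (hx0 _)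
    linarith
  have hnpos : 0 < n := by
    rcases hn0.lt_or_eq with h | h
    · exact h
    · exfalso
      have h1 := hmm 1
      have h2 := hmm 0
      rw [← h] at hK
      have h3 : x 2 ≤ 0 := by
        have h4 : x 2 = ∑ A : Fin 1 → W, c H A * d H A := cl_succ H 1
        have h5 : Fintype.card W = 0 := by rw [hn] at h; exact_mod_cast h.symm
        have : IsEmpty W := Fintype.card_eq_zero_iff.1 h5
        rw [h4]
        simp
      have h4 : (0 : ℤ) < p + 1 := by positivity
      have h5 : ((p : ℤ) + 1) * x 2 ≤ 0 := mul_nonpos_of_nonneg_of_nonpos h4.le h3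
      have h6 : (p : ℤ) * 0 ^ 2 = 0 := by ring
      linarith
  -- positivity of the linear factors
  have hfac : ∀ s : ℕ, s ≤ p → ((p : ℤ) - s) * n ^ 2 <
      ((p : ℤ) + 1) * (((s : ℤ) + 1) * x 2 - s * n ^ 2) := by
    intro s hs
    have h1 : (0 : ℤ) < (s : ℤ) + 1 := by positivity
    have h2 := mul_lt_mul_of_pos_left hK h1
    have h3 : (0:ℤ) ≤ n ^ 2 := by positivity
    nlinarith
  have hfac' : ∀ s : ℕ, s ≤ p → 0 < ((s : ℤ) + 1) * x 2 - s * n ^ 2 := by
    intro s hs
    have h1 := hfac s hs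
    have h2 : (0 : ℤ) ≤ ((p : ℤ) - s) * n ^ 2 := by
      have : (s : ℤ) ≤ p := by exact_mod_cast hs
      have h3 : (0 : ℤ) ≤ (p : ℤ) - s := by linarith
      positivity
    have h3 : (0 : ℤ) < (p : ℤ) + 1 := by positivity
    by_contra h4
    push Not at h4
    have := mul_nonpos_of_nonneg_of_nonpos h3.le h4
    linarith
  have hP1 : ∀ s : ℕ, s ≤ p → 0 < x (s + 1) ∧
      (((s : ℤ) + 1) * x 2 - s * n ^ 2) * x (s + 1) ≤ x (s + 2) * n := by
    intro s
    induction s with
    | zero =>
      intro _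
      simp only [zero_add]
      rw [hx1]
      refine ⟨hnpos, ?_⟩
      push_cast
      linarith [mul_comm (x 2) n]
    | succ s ih =>
      intro hs
      obtain ⟨h1, h2⟩ := ih (by omega)
      have h3 := hfac' s (by omega)
      have h4 : 0 < x (s + 2) := by
        have h5 : 0 < x (s + 2) * n := lt_of_lt_of_le (mul_pos h3 h1) h2
        by_contra h6
        push Not at h6
        have := mul_nonpos_of_nonpos_of_nonneg h6 hn0
        linarith
      refine ⟨h4, ?_⟩
      have h5 := hmm (s + 1)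
      have h6 : (0 : ℤ) < ((s : ℤ) + 1) * x (s + 1) := mul_pos (by positivity) h1
      have e1 : s + 1 + 1 = s + 2 := rfl
      have e2 : s + 1 + 2 = s + 3 := rfl
      rw [e1, e2] at *
      push_cast at h5 ⊢
      by_contra h7
      push Not at h7
      have h8 := mul_lt_mul_of_pos_left h7 h6
      have h9 := mul_le_mul_of_nonneg_left h5 hn0
      have h10 : (0:ℤ) < ((s : ℤ) + 2) * x (s + 2) := mul_pos (by positivity) h4
      have h11 := mul_le_mul_of_nonneg_left h2 h10.le
      nlinarith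
  have hP2 : ∀ s : ℕ, s ≤ p → n ^ (s + 1) * (p.factorial : ℤ) ≤
      ((p : ℤ) + 1) ^ s * x (s + 1) * ((p - s).factorial : ℤ) := by
    intro s
    induction s with
    | zero =>
      intro _
      simp only [zero_add, pow_one, pow_zero, one_mul, Nat.sub_zero]
      rw [hx1]
    | succ s ih =>
      intro hs
      have h1 := ih (by omega)
      obtain ⟨h2, h3⟩ := hP1 s (by omega)
      have h4 := hfac s (by omega)
      have h5 : n * ((p : ℤ) - s) * x (s + 1) ≤ ((p : ℤ) + 1) * x (s + 2) := by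
        have h6 : n * (n * ((p : ℤ) - s) * x (s + 1)) ≤ n * (((p : ℤ) + 1) * x (s + 2)) := by
          have h7 := mul_le_mul_of_nonneg_right h4.le h2.le
          have h8 : (0 : ℤ) ≤ (p : ℤ) + 1 := by positivity
          have h9 := mul_le_mul_of_nonneg_left h3 h8
          nlinarith
        exact le_of_mul_le_mul_left h6 hnpos
      have h6 : ((p - s).factorial : ℤ) = ((p : ℤ) - s) * ((p - (s + 1)).factorial : ℤ) := by
        have h7 : p - s = (p - (s + 1)) + 1 := by omega
        rw [h7, Nat.factorial_succ]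
        push_cast
        rw [Nat.cast_sub hs]
        push_cast
        ring
      rw [h6] at h1
      have h7 := mul_le_mul_of_nonneg_left h1 hn0
      have h8 : (0 : ℤ) ≤ ((p : ℤ) + 1) ^ s * ((p - (s + 1)).factorial : ℤ) := by positivity
      have h9 := mul_le_mul_of_nonneg_left h5 h8
      calc n ^ (s + 1 + 1) * (p.factorial : ℤ) = n * (n ^ (s + 1) * (p.factorial : ℤ)) := by ring
        _ ≤ _ := h7
        _ = ((p : ℤ) + 1) ^ s * ((p - (s + 1)).factorial : ℤ) *
            (n * ((p : ℤ) - s) * x (s + 1)) := by ring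
        _ ≤ _ := h9
        _ = _ := by ring
  obtain ⟨h1, h2⟩ := hP1 p le_rfl
  have h3 := hP2 p le_rfl
  rw [Nat.sub_self, Nat.factorial_zero, Nat.cast_one, mul_one] at h3
  set K : ℤ := ((p : ℤ) + 1) * x 2 - p * n ^ 2 with hKdef
  have h4 : n * (((p + 1).factorial : ℤ) * n ^ p * K) ≤ n * (((p : ℤ) + 1) ^ (p + 1) * x (p + 2)) := by
    have h5 : (0 : ℤ) ≤ ((p : ℤ) + 1) * K := mul_nonneg (by positivity) hK.le
    have h6 := mul_le_mul_of_nonneg_left h3 h5
    have h7 : (0 : ℤ) ≤ ((p : ℤ) + 1) ^ (p + 1) := by positivity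
    have h8 := mul_le_mul_of_nonneg_left h2 h7
    calc n * (((p + 1).factorial : ℤ) * n ^ p * K)
        = ((p : ℤ) + 1) * K * (n ^ (p + 1) * (p.factorial : ℤ)) := by
          rw [Nat.factorial_succ]; push_cast; ring
      _ ≤ _ := h6
      _ = ((p : ℤ) + 1) ^ (p + 1) * (K * x (p + 1)) := by ring
      _ ≤ _ := h8
      _ = _ := by ring
  exact le_of_mul_le_mul_left h4 hnpos

end MM

theorem mm_linear_proof {W : Type} [Fintype W] (H : SimpleGraph W) (q : ℕ) (hq : 2 ≤ q) :
    ((q - 1).factorial : ℤ) * (Fintype.card W : ℤ) ^ (q - 2) *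
        (((q : ℤ) - 1) * cl H 2 - ((q : ℤ) - 2) * (Fintype.card W : ℤ) ^ 2)
      ≤ ((q : ℤ) - 1) ^ (q - 1) * cl H q := by
  obtain ⟨p, rfl⟩ : ∃ p, q = p + 2 := ⟨q - 2, by omega⟩
  have h := MM.lin H p
  have e1 : p + 2 - 1 = p + 1 := by omega
  have e2 : p + 2 - 2 = p := by omega
  rw [e1, e2]
  push_cast
  have e3 : (p : ℤ) + 2 - 1 = p + 1 := by ring
  have e4 : (p : ℤ) + 2 - 2 = p := by ring
  rw [e3, e4]
  exact h

end Pool.Agent.Flip
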