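import Pool.Agent.Lib_helper89.FlipBridge

/-!
# Flip graphs: four small explicit flip graphs
-/

namespace Pool.Agent.Flip

open Finset BigOperators

/-- 0/1 matrix given by a list of bit masks -/
def mat (n : ℕ) (L : List ℕ) (x y : Fin n) : ℤ := if (L.getD x.val 0).testBit y.val then 1 else 0

/-- blue rows of a (3,4)-flip graph of order 14 -/
def b3_4 : List ℕ := [2208, 324, 12290, 784, 1160, 12289, 9218, 529, 1034, 2184, 336, 4609, 2084, 100]

/-- red rows -/
def r3_4 : List ℕ := [12560, 12424, 2352, 3106, 581, 204, 2352, 3106, 581, 12560, 12424, 204, 1539, 1539]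

theorem small_3_4 : HasFlip 3 4 14 := by
  have h : Core (mat 14 b3_4) (mat 14 r3_4) ((3 : ℕ) : ℤ) ((4 : ℕ) : ℤ) :=
    { β01 := by decide +kernel
      ρ01 := by decide +kernel
      βs := by decide +kernel
      ρs := by decide +kernel
      βd := by decide +kernel
      ρd := by decide +kernel
      dis := by decide +kernel
      degβ := by decide +kernel
      degρ := by decide +kernel
      flip := by decide +kernel }
  have h2 := hasFlip_of_core h
  rwa [Fintype.card_fin] at h2

/-- blue rows of a (4,5)-flip graph of order 14 -/
def b4_5 : List ℕ := [120, 11268, 9730, 353, 4385, 4121, 4361, 11776, 4184, 3204, 646, 8834, 368, 2182]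

/-- red rows -/
def r4_5 : List ℕ := [7040, 5056, 6544, 14480, 1612, 1984, 10290, 47, 8231, 8243, 14384, 1101, 1039, 1864]

theorem small_4_5 : HasFlip 4 5 14 := by
  have h : Core (mat 14 b4_5) (mat 14 r4_5) ((4 : ℕ) : ℤ) ((5 : ℕ) : ℤ) :=
    { β01 := by decide +kernel
      ρ01 := by decide +kernel
      βs := by decide +kernel
      ρs := by decide +kernel
      βd := by decide +kernel
      ρd := by decide +kernel
      dis := by decide +kernel
      degβ := by decide +kernel
      degρ := by decide +kernel
      flip := by decide +kernel }
  have h2 := hasFlip_of_core h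
  rwa [Fintype.card_fin] at h2

/-- blue rows of a (7,8)-flip graph of order 22 -/
def b7_8 : List ℕ := [1329712, 3180960, 337104, 2539808, 598661, 1708043, 2635908, 590934, 2398218, 1076241, 797316, 18243, 2310496, 788052, 1186313, 3342602, 692372, 2215976, 1058061, 74992, 311843, 168266]

/-- red rows -/
def r7_8 : List ℕ := [566666, 217165, 2657034, 1062407, 3544160, 117648, 116498, 3551265, 1188965, 2494572, 115033, 3551268, 559770, 117129, 2892898, 275557, 3417186, 1575826, 641680, 3559429, 723352, 608916]

theorem small_7_8 : HasFlip 7 8 22 := by
  have h : Core (mat 22 b7_8) (mat 22 r7_8) ((7 : ℕ) : ℤ) ((8 : ℕ) : ℤ) :=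
    { β01 := by decide +kernel
      ρ01 := by decide +kernel
      βs := by decide +kernel
      ρs := by decide +kernel
      βd := by decide +kernel
      ρd := by decide +kernel
      dis := by decide +kernel
      degβ := by decide +kernel
      degρ := by decide +kernel
      flip := by decide +kernel }
  have h2 := hasFlip_of_core h
  rwa [Fintype.card_fin] at h2

/-- blue rows of a (9,10)-flip graph of order 26 -/
def b9_10 : List ℕ := [62922782, 58736701, 50364539, 33620215, 131567, 263134, 526268, 1052536, 2105072, 4210144, 8420288, 16840576, 37867264, 8637953, 506882, 1013764, 2027528, 4055056, 8110112, 16220224, 32440448, 64880896, 54268417, 54010883, 49285127, 31461391]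

/-- red rows -/
def r9_10 : List ℕ := [4064224, 8128448, 16256896, 32513792, 65027584, 62946305, 58783747, 50458631, 33808399, 507935, 1015870, 2031740, 4063480, 8126960, 16253920, 32507840, 65015680, 62922497, 58736131, 50363399, 33617935, 127007, 254014, 508028, 1016056, 2032112]

theorem small_9_10 : HasFlip 9 10 26 := by
  have h : Core (mat 26 b9_10) (mat 26 r9_10) ((9 : ℕ) : ℤ) ((10 : ℕ) : ℤ) :=
    { β01 := by decide +kernel
      ρ01 := by decide +kernel
      βs := by decide +kernel
      ρs := by decide +kernel
      βd := by decide +kernel
      ρd := by decide +kernel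
      dis := by decide +kernel
      degβ := by decide +kernel
      degρ := by decide +kernel
      flip := by decide +kernel }
  have h2 := hasFlip_of_core h
  rwa [Fintype.card_fin] at h2

end Pool.Agent.Flip
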