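import Pool.Agent.Lib_helper89.FlipTWO
import Pool.Agent.Lib_helper89.FlipSmall
import Pool.Agent.Lib_helper89.FlipLim

/-!
# Flip graphs: exact orders for red degree close to blue degree
-/

namespace Pool.Agent.Flip

open Finset BigOperators

instance (b r z : ℕ) : Decidable (Fits b r z) := by
  unfold Fits
  infer_instance

theorem fits_of_hasFlip {b r n : ℕ} (h : HasFlip b r n) :
    ∃ z, n = b + r + 1 + z ∧ Fits b r z := by
  obtain ⟨hn0, B, R, hBR⟩ := h
  have : Nonempty (Fin n) := ⟨⟨0, hn0⟩⟩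
  have hc := core_of_isFlip hBR
  have h1 := hc.low1_proof ((n : ℤ) - b - r - 1) (by rw [Fintype.card_fin]; ring)
  have h2 := hc.even_proof
  rw [Fintype.card_fin] at h1 h2
  obtain ⟨z, hz⟩ : ∃ z : ℕ, n = b + r + 1 + z := ⟨n - (b + r + 1), by omega⟩
  refine ⟨z, hz, ?_, ?_, ?_⟩
  · rw [← hz]; exact h2.1
  · rw [← hz]; exact h2.2
  · have h3 := h1.2
    have h4 : (n : ℤ) = b + r + 1 + z := by rw [hz]; push_cast; ring
    rw [h4] at h3
    have h5 : (b : ℤ) + r + 1 + z - b - r - 1 = z := by ring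
    rw [h5] at h3
    have h6 : (b : ℤ) + r + 1 + z - 2 * z = (b : ℤ) + r + 1 - z := by ring
    rw [h6] at h3
    exact h3

theorem hasFlip_of_fits {b r z : ℕ} (hb : 3 ≤ b) (hbr : b < r) (h : Fits b r z)
    (hc : z ≤ b / 2 + 1 ∨ (Even (b + r + 1 + z) ∧ 3 * z + 5 ≤ b + r) ∨
      (4 ∣ b + r + 1 + z ∧ 3 * z ≤ b + r + 1)) : HasFlip b r (b + r + 1 + z) := by
  obtain ⟨h1, h2, h3⟩ := h
  have four : 4 ∣ b + r + 1 + z → 3 * z ≤ b + r + 1 → HasFlip b r (b + r + 1 + z) := by
    rintro ⟨v, hv⟩ h5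
    have hzv : z ≤ v := by omega
    have hvb : v ≤ b + 1 := by
      by_contra hcon
      push Not at hcon
      have e1 : (b : ℤ) + 2 ≤ v := by exact_mod_cast hcon
      have e2 : (b : ℤ) + r + 1 + z = 4 * v := by exact_mod_cast hv
      have e3 : (z : ℤ) ≤ v := by exact_mod_cast hzv
      have e4 : (3 : ℤ) ≤ b := by exact_mod_cast hb
      have e5 : (2 : ℤ) * v + 3 - z ≤ (r : ℤ) - b := by linarith
      have e6 : (b : ℤ) + r + 1 - z = 4 * v - 2 * z := by linarith
      rw [e6] at h3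
      nlinarith
    rw [hv]
    refine four_constr_proof b r z v hb hbr hv hzv hvb ?_
    have e2 : (b : ℤ) + r + 1 + z = 4 * v := by exact_mod_cast hv
    have e6 : (b : ℤ) + r + 1 - z = 4 * v - 2 * z := by linarith
    rw [← e6]; exact h3
  rcases hc with hc | ⟨he, hc⟩ | ⟨h4, h5⟩
  · rcases Nat.even_or_odd (b + r + 1 + z) with he | ho
    · obtain ⟨N, hN⟩ := he
      have hN' : b + r + 1 + z = 2 * N := by omega
      rw [hN']
      refine even_constr_proof b r z N hb hbr hN' hc ?_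
      have e2 : (b : ℤ) + r + 1 + z = 2 * N := by exact_mod_cast hN'
      have e6 : (b : ℤ) + r + 1 - z = 2 * N - 2 * z := by linarith
      rw [← e6]; exact h3
    · have hbe : Even b := by
        rcases Nat.even_mul.1 h1 with h | h
        · exact absurd ho (Nat.not_odd_iff_even.2 h)
        · exact h
      have hre : Even r := by
        rcases Nat.even_mul.1 h2 with h | h
        · exact absurd ho (Nat.not_odd_iff_even.2 h)
        · exact h
      refine odd_constr_proof b r z _ hb hbr hbe hre rfl ho hc ?_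
      push_cast
      have e6 : (b : ℤ) + r + 1 - z = (b : ℤ) + r + 1 + z - 2 * z := by ring
      rw [← e6]; exact h3
  · obtain ⟨N, hN⟩ := he
    rcases Nat.even_or_odd N with ⟨v, hv⟩ | ⟨v, hv⟩
    · exact four ⟨v, by omega⟩ (by omega)
    · have hv' : b + r + 1 + z = 4 * v + 2 := by omega
      rw [hv']
      refine two_constr_proof b r z v hb hbr hv' (by omega) ?_
      have e2 : (b : ℤ) + r + 1 + z = 4 * v + 2 := by exact_mod_cast hv'
      have e6 : (b : ℤ) + r + 1 - z = 4 * v + 2 - 2 * z := by linarith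
      rw [← e6]; exact h3
  · exact four h4 h5

theorem minOrder_eq {b r z : ℕ} (hz : IsLeast {z | Fits b r z} z)
    (h : HasFlip b r (b + r + 1 + z)) : minOrder b r = b + r + 1 + z := by
  refine le_antisymm (minOrder_le h) ?_
  obtain ⟨z', h1, h2⟩ := fits_of_hasFlip (minOrder_mem h)
  have := hz.2 h2
  omega

theorem exists_least {b r z0 : ℕ} (h : Fits b r z0) :
    ∃ z, IsLeast {z | Fits b r z} z ∧ z ≤ z0 := by
  classical
  have hex : ∃ z, Fits b r z := ⟨z0, h⟩
  exact ⟨Nat.find hex, ⟨Nat.find_spec hex, fun z' hz' => Nat.find_min' hex hz'⟩,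
    Nat.find_min' hex h⟩

/-- existence of a suitable number of non-neighbours if `5r + 30 ≤ 7b` -/
theorem exists_fits_big (b r : ℕ) (hbr : b < r) (h : 5 * r + 30 ≤ 7 * b) :
    ∃ z, Fits b r z ∧ 3 * z + 5 ≤ b + r ∧ (Even b → Even r → 3 * z + 8 ≤ b + r) := by
  have ineq : ∀ z : ℕ, b + r ≤ 3 * z + 10 →
      2 + ((r : ℤ) - b) * ((b : ℤ) + r + 1 - z) ≤ (z : ℤ) * ((z : ℤ) - 1) := by
    intro z h1
    have e1 : (b : ℤ) + r ≤ 3 * z + 10 := by exact_mod_cast h1
    have e3 : 5 * (r : ℤ) + 30 ≤ 7 * b := by exact_mod_cast h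
    have e4 : (b : ℤ) + 1 ≤ r := by exact_mod_cast hbr
    have e5 : (0 : ℤ) ≤ b := by positivity
    obtain ⟨t, ht⟩ : ∃ t : ℤ, 3 * (z : ℤ) = (b + r - 10) + t := ⟨3 * z - (b + r - 10), by ring⟩
    have ht0 : 0 ≤ t := by linarith
    have hP : 0 ≤ (b : ℤ) + r - 10 := by linarith
    have key1 : 9 * ((z : ℤ) * ((z : ℤ) - 1) + ((r : ℤ) - b) * z) ≥
        (b + r - 10) * (4 * r - 2 * b - 13) := by
      have e6 : 9 * ((z : ℤ) * ((z : ℤ) - 1) + ((r : ℤ) - b) * z) =
          (3 * z) * (3 * z) + 3 * (r - b - 1) * (3 * z) := by ring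
      rw [e6, ht]
      nlinarith [mul_nonneg hP ht0, mul_nonneg ht0 ht0,
        mul_nonneg (sub_nonneg.2 e4) ht0]
    have key2 : (b + r - 10) * (4 * r - 2 * b - 13) ≥
        9 * (((r : ℤ) - b) * (b + r + 1)) + 18 := by
      nlinarith [mul_nonneg (sub_nonneg.2 e3) (by linarith : (0 : ℤ) ≤ (b : ℤ) + r)]
    nlinarith
  rcases Nat.even_or_odd b with hb | hb
  · rcases Nat.even_or_odd r with hr | hr
    · refine ⟨(b + r - 8) / 3, ⟨hb.mul_left _, hr.mul_left _, ineq _ (by omega)⟩, by omega,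
        fun _ _ => by omega⟩
    · obtain ⟨y, hy1, hy2, hy3⟩ : ∃ y, 3 * y + 5 ≤ b + r ∧ b + r ≤ 3 * y + 10 ∧
          Even (b + r + 1 + y) := by
        rcases Nat.even_or_odd (b + r + 1 + (b + r - 5) / 3) with h1 | h1
        · exact ⟨(b + r - 5) / 3, by omega, by omega, h1⟩
        · refine ⟨(b + r - 5) / 3 - 1, by omega, by omega, ?_⟩
          have : b + r + 1 + (b + r - 5) / 3 = b + r + 1 + ((b + r - 5) / 3 - 1) + 1 := by omega
          rw [this] at h1
          exact (Nat.odd_add_one.1 h1 |> Nat.not_odd_iff_even.1)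
      exact ⟨y, ⟨hy3.mul_right _, hy3.mul_right _, ineq _ hy2⟩, hy1,
        fun _ h => absurd hr (Nat.not_odd_iff_even.2 h)⟩
  · obtain ⟨y, hy1, hy2, hy3⟩ : ∃ y, 3 * y + 5 ≤ b + r ∧ b + r ≤ 3 * y + 10 ∧
        Even (b + r + 1 + y) := by
      rcases Nat.even_or_odd (b + r + 1 + (b + r - 5) / 3) with h1 | h1
      · exact ⟨(b + r - 5) / 3, by omega, by omega, h1⟩
      · refine ⟨(b + r - 5) / 3 - 1, by omega, by omega, ?_⟩
        have : b + r + 1 + (b + r - 5) / 3 = b + r + 1 + ((b + r - 5) / 3 - 1) + 1 := by omega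
        rw [this] at h1
        exact (Nat.odd_add_one.1 h1 |> Nat.not_odd_iff_even.1)
    exact ⟨y, ⟨hy3.mul_right _, hy3.mul_right _, ineq _ hy2⟩, hy1,
      fun h _ => absurd hb (Nat.not_odd_iff_even.2 h)⟩

/-- existence of a small number of non-neighbours if `8r ≤ 9b` and `b ≥ 27` -/
theorem exists_fits_low (b r : ℕ) (hbr : b < r) (h : 8 * r ≤ 9 * b) (hb : 27 ≤ b) :
    ∃ z, Fits b r z ∧ z ≤ b / 2 + 1 := by
  have ineq : ∀ z : ℕ, b ≤ 2 * z + 1 →
      2 + ((r : ℤ) - b) * ((b : ℤ) + r + 1 - z) ≤ (z : ℤ) * ((z : ℤ) - 1) := by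
    intro z h1
    have e1 : (b : ℤ) ≤ 2 * z + 1 := by exact_mod_cast h1
    have e3 : 8 * (r : ℤ) ≤ 9 * b := by exact_mod_cast h
    have e4 : (b : ℤ) + 1 ≤ r := by exact_mod_cast hbr
    have e5 : (27 : ℤ) ≤ b := by exact_mod_cast hb
    obtain ⟨t, ht⟩ : ∃ t : ℤ, 2 * (z : ℤ) = (b - 1) + t := ⟨2 * z - (b - 1), by ring⟩
    have ht0 : 0 ≤ t := by linarith
    have key1 : 4 * ((z : ℤ) * ((z : ℤ) - 1) + ((r : ℤ) - b) * z) ≥
        (b - 1) * (b - 3 + 2 * (r - b)) := by
      have e6 : 4 * ((z : ℤ) * ((z : ℤ) - 1) + ((r : ℤ) - b) * z) =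
          (2 * z) * (2 * z) + 2 * (r - b - 1) * (2 * z) := by ring
      rw [e6, ht]
      nlinarith [mul_nonneg (by linarith : (0 : ℤ) ≤ (b : ℤ) - 1) ht0, mul_nonneg ht0 ht0,
        mul_nonneg (sub_nonneg.2 e4) ht0]
    have key2 : ((b : ℤ) - 1) * (b - 3 + 2 * (r - b)) ≥
        4 * (((r : ℤ) - b) * (b + r + 1)) + 8 := by
      nlinarith [mul_nonneg (sub_nonneg.2 e3) (by linarith : (0 : ℤ) ≤ (b : ℤ)),
        mul_nonneg (sub_nonneg.2 e3) (by linarith : (0 : ℤ) ≤ (r : ℤ) - b)]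
    nlinarith
  rcases Nat.even_or_odd b with hbe | hbo
  · rcases Nat.even_or_odd r with hr | hr
    · exact ⟨b / 2, ⟨hbe.mul_left _, hr.mul_left _, ineq _ (by omega)⟩, by omega⟩
    · rcases Nat.even_or_odd (b + r + 1 + b / 2) with h1 | h1
      · exact ⟨b / 2, ⟨h1.mul_right _, h1.mul_right _, ineq _ (by omega)⟩, by omega⟩
      · have h2 : Even (b + r + 1 + (b / 2 + 1)) := by
          have := h1.add_one
          rwa [add_assoc] at this
        exact ⟨b / 2 + 1, ⟨h2.mul_right _, h2.mul_right _, ineq _ (by omega)⟩, by omega⟩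
  · rcases Nat.even_or_odd (b + r + 1 + b / 2) with h1 | h1
    · exact ⟨b / 2, ⟨h1.mul_right _, h1.mul_right _, ineq _ (by omega)⟩, by omega⟩
    · have h2 : Even (b + r + 1 + (b / 2 + 1)) := by
        have := h1.add_one
        rwa [add_assoc] at this
      exact ⟨b / 2 + 1, ⟨h2.mul_right _, h2.mul_right _, ineq _ (by omega)⟩, by omega⟩

/-- auxiliary decidable statement -/
def SmallOK (b r : ℕ) : Prop :=
  (3 ≤ b ∧ b < r ∧ (8 * r ≤ 9 * b ∨ r = b + 1) ∧
    ¬ (b = 3 ∨ b = 4 ∨ b = 5 ∨ b = 7 ∨ b = 8 ∨ b = 9)) → ∃ z, z < b / 2 + 2 ∧ Fits b r z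

instance (b r : ℕ) : Decidable (SmallOK b r) := by
  unfold SmallOK
  infer_instance

theorem small_ok : ∀ b < 27, ∀ r < 31, SmallOK b r := by
  decide +kernel

theorem small_fits (b : ℕ) (h1 : b < 27) (r : ℕ) (h2 : r < 31) (h3 : 3 ≤ b) (h4 : b < r)
    (h5 : 8 * r ≤ 9 * b ∨ r = b + 1)
    (h6 : ¬ (b = 3 ∨ b = 4 ∨ b = 5 ∨ b = 7 ∨ b = 8 ∨ b = 9)) :
    ∃ z, z < b / 2 + 2 ∧ Fits b r z := small_ok b h1 r h2 ⟨h3, h4, h5, h6⟩

theorem least_of_decide {b r z : ℕ} (h1 : Fits b r z) (h2 : ∀ z' < z, ¬ Fits b r z') :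
    IsLeast {z | Fits b r z} z :=
  ⟨h1, fun z' hz' => not_lt.1 fun h => h2 z' h hz'⟩

/-- the case of red degree at most `9b/8`, or `b + 1` -/
theorem exact_low (b r : ℕ) (hb : 4 ≤ b) (hbr : b < r) (h : 8 * r ≤ 9 * b ∨ r = b + 1) :
    ∃ z, IsLeast {z | Fits b r z} z ∧ minOrder b r = b + r + 1 + z := by
  have typeA : (∃ z, Fits b r z ∧ z ≤ b / 2 + 1) →
      ∃ z, IsLeast {z | Fits b r z} z ∧ minOrder b r = b + r + 1 + z := by
    rintro ⟨z0, h1, h2⟩
    obtain ⟨z, hz, hz0⟩ := exists_least h1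
    exact ⟨z, hz, minOrder_eq hz
      (hasFlip_of_fits (by omega) hbr hz.1 (Or.inl (hz0.trans h2)))⟩
  rcases le_or_gt 27 b with hb27 | hb27
  · refine typeA (exists_fits_low b r hbr ?_ hb27)
    omega
  · by_cases hs : b = 3 ∨ b = 4 ∨ b = 5 ∨ b = 7 ∨ b = 8 ∨ b = 9
    · have hr : r = b + 1 := by omega
      subst hr
      rcases hs with rfl | rfl | rfl | rfl | rfl | rfl
      · omega
      · exact ⟨4, least_of_decide (by decide) (by decide),
          minOrder_eq (least_of_decide (by decide) (by decide)) small_4_5⟩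
      · exact ⟨4, least_of_decide (by decide) (by decide),
          minOrder_eq (least_of_decide (by decide) (by decide))
            (hasFlip_of_fits (by norm_num) (by norm_num) (by decide)
              (Or.inr (Or.inr ⟨by norm_num, by norm_num⟩)))⟩
      · exact ⟨6, least_of_decide (by decide) (by decide),
          minOrder_eq (least_of_decide (by decide) (by decide)) small_7_8⟩
      · exact ⟨6, least_of_decide (by decide) (by decide),
          minOrder_eq (least_of_decide (by decide) (by decide))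
            (hasFlip_of_fits (by norm_num) (by norm_num) (by decide)
              (Or.inr (Or.inr ⟨by norm_num, by norm_num⟩)))⟩
      · exact ⟨6, least_of_decide (by decide) (by decide),
          minOrder_eq (least_of_decide (by decide) (by decide)) small_9_10⟩
    · obtain ⟨z, hz1, hz2⟩ := small_fits b hb27 r (by omega) (by omega) hbr h hs
      exact typeA ⟨z, hz2, by omega⟩

/-- the case of red degree at most `7b/5 - 6` -/
theorem exact_mid (b r : ℕ) (hb : 3 ≤ b) (hbr : b < r) (h : 5 * r + 30 ≤ 7 * b) :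
    ∃ z, IsLeast {z | Fits b r z} z ∧
      (minOrder b r = b + r + 1 + z ∨ minOrder b r = b + r + 2 + z) ∧
      (Odd b ∨ Odd r ∨ Odd z → minOrder b r = b + r + 1 + z) := by
  obtain ⟨z0, h1, h2, h3⟩ := exists_fits_big b r hbr h
  obtain ⟨z, hz, hz0⟩ := exists_least h1
  refine ⟨z, hz, ?_⟩
  rcases Nat.even_or_odd (b + r + 1 + z) with he | ho
  · have h4 := minOrder_eq hz (hasFlip_of_fits hb hbr hz.1 (Or.inr (Or.inl ⟨he, by omega⟩)))
    exact ⟨Or.inl h4, fun _ => h4⟩
  · obtain ⟨g1, g2, g3⟩ := hz.1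
    have hbe : Even b := by
      rcases Nat.even_mul.1 g1 with h | h
      · exact absurd ho (Nat.not_odd_iff_even.2 h)
      · exact h
    have hre : Even r := by
      rcases Nat.even_mul.1 g2 with h | h
      · exact absurd ho (Nat.not_odd_iff_even.2 h)
      · exact h
    have hze : Even z := by
      have h5 : Even (b + r) := hbe.add hre
      rcases Nat.even_or_odd z with h6 | h6
      · exact h6
      · exfalso
        have h7 : Even (b + r + (1 + z)) := h5.add (by rw [add_comm]; exact h6.add_one)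
        rw [← add_assoc] at h7
        exact (Nat.not_odd_iff_even.2 h7) ho
    have h8 := h3 hbe hre
    have hf : Fits b r (z + 1) := by
      refine ⟨hbe.mul_left _, hre.mul_left _, ?_⟩
      have e4 : (b : ℤ) + 1 ≤ r := by exact_mod_cast hbr
      have e5 : (0 : ℤ) ≤ z := by positivity
      push_cast
      nlinarith
    have he : Even (b + r + 1 + (z + 1)) := by
      have := ho.add_one
      rwa [add_assoc] at this
    have h9 := hasFlip_of_fits hb hbr hf (Or.inr (Or.inl ⟨he, by omega⟩))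
    have h10 := minOrder_le h9
    obtain ⟨z', h11, h12⟩ := fits_of_hasFlip (minOrder_mem h9)
    have h13 := hz.2 h12
    refine ⟨by omega, ?_⟩
    rintro (h | h | h)
    · exact absurd h (Nat.not_odd_iff_even.2 hbe)
    · exact absurd h (Nat.not_odd_iff_even.2 hre)
    · exact absurd h (Nat.not_odd_iff_even.2 hze)

theorem minOrder_3_4 : minOrder 3 4 = 14 := by
  refine le_antisymm (minOrder_le small_3_4) ?_
  obtain ⟨hn0, B, R, hBR⟩ := minOrder_mem small_3_4
  set n := minOrder 3 4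
  have : Nonempty (Fin n) := ⟨⟨0, hn0⟩⟩
  have hc := core_of_isFlip hBR
  have h1 := hc.J_proof 1 (by norm_num) (by norm_num) (by norm_num)
  have h2 := hc.even_proof
  rw [Fintype.card_fin] at h1 h2
  push_cast at h1
  have h3 : 13 ≤ n := by omega
  obtain ⟨k, hk⟩ := h2.1
  omega

end Pool.Agent.Flip
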