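import Pool.Agent.Lib_helper89.FlipEOF

/-!
# Flip graphs: the construction TWO (order `4v+2`)
-/

namespace Pool.Agent.Flip

open Finset BigOperators

/-- a flip graph from blue matrix and non-adjacency matrix -/
theorem core_of_compl {V : Type} [Fintype V] {β ζ : V → V → ℤ} {b r z : ℤ}
    (β01 : ∀ x y, β x y = 0 ∨ β x y = 1) (ζ01 : ∀ x y, ζ x y = 0 ∨ ζ x y = 1)
    (βs : ∀ x y, β x y = β y x) (ζs : ∀ x y, ζ x y = ζ y x)
    (βd : ∀ x, β x x = 0) (ζd : ∀ x, ζ x x = 0) (dis : ∀ x y, β x y * ζ x y = 0)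
    (degβ : ∀ x, ∑ y, β x y = b) (degζ : ∀ x, ∑ y, ζ x y = z)
    (hcard : (Fintype.card V : ℤ) = b + r + 1 + z)
    (hc : ∀ v x y, x ≠ y → ζ v x = 1 → ζ v y = 1 → β x y = 1)
    (hi : 2 + (r - b) * (Fintype.card V - 2 * z) ≤ z * (z - 1)) :
    ∃ ρ : V → V → ℤ, Core β ρ b r := by
  classical
  refine ⟨fun x y => 1 - (if x = y then 1 else 0) - β x y - ζ x y, ?_⟩
  have hP : Pre β (fun x y => 1 - (if x = y then 1 else 0) - β x y - ζ x y) b r :=
    { β01 := β01
      ρ01 := fun x y => by
        by_cases h : x = y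
        · subst h; simp [βd, ζd]
        · have := dis x y
          rcases β01 x y with h1 | h1 <;> rcases ζ01 x y with h2 | h2 <;>
            simp [h, h1, h2] at this ⊢
      βs := βs
      ρs := fun x y => by simp only [βs x y, ζs x y, eq_comm]
      βd := βd
      ρd := fun x => by simp [βd, ζd]
      dis := fun x y => by
        by_cases h : x = y
        · subst h; simp [βd]
        · have := dis x y
          rcases β01 x y with h1 | h1 <;> rcases ζ01 x y with h2 | h2 <;>
            simp [h, h1, h2] at this ⊢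
      degβ := degβ
      degρ := fun x => by
        simp only [Finset.sum_sub_distrib, degβ, degζ, Finset.sum_ite_eq, Finset.mem_univ,
          if_true, Finset.sum_const, Finset.card_univ, nsmul_eq_mul, mul_one]
        linarith }
  refine core_of_clique hP ?_ z hcard hi
  intro v x y hx hy hxy h1 h2
  simp only [hx.symm, hy.symm, if_false] at h1 h2
  exact hc v x y hxy (by linarith) (by linarith)

namespace Two

open H66

/-- oriented difference -/
def dd {N : ℕ} (s : Bool) (p q : ZMod N) : ℕ := if s = false then (q - p).val else (p - q).val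

theorem dd_swap {N : ℕ} {s t : Bool} (h : s ≠ t) (p q : ZMod N) : dd s p q = dd t q p := by
  cases s <;> cases t <;> simp [dd] at h ⊢

/-- indicator of being nonzero -/
def ne0 (i : ℕ) : ℤ := if i = 0 then 0 else 1

/-- indicator of being `z` -/
def eqz (z i : ℕ) : ℤ := if i = z then 1 else 0

theorem sum_dd {N : ℕ} [NeZero N] (s : Bool) (p : ZMod N) (f : ℕ → ℤ) :
    ∑ q : ZMod N, f (dd s p q) = ∑ i ∈ range N, f i := by
  cases s
  · simp [dd, zsum_left]
  · simp [dd, zsum_right]

theorem sum_eqz (N z : ℕ) (h : z < N) : ∑ i ∈ range N, eqz z i = 1 := by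
  unfold eqz
  rw [Finset.sum_ite_eq']
  simp [h]

/-- the shift of the side `s` -/
def sg (z w : ℕ) (s : Bool) : ZMod w := if s = false then 0 else (z : ZMod w)

/-- the deficient columns -/
def isP (z D w : ℕ) (s : Bool) (c : ZMod w) : Prop := (c - sg z w s).val < D

instance (z D w : ℕ) (s : Bool) (c : ZMod w) : Decidable (isP z D w s c) :=
  inferInstanceAs (Decidable ((c - sg z w s).val < D))

theorem isP_swap {z D w : ℕ} [NeZero w] {s t : Bool} (h : s ≠ t) (p q : ZMod w)
    (hd : dd s p q = z) : isP z D w s p ↔ isP z D w t q := by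
  have key : ∀ p q : ZMod w, (q - p).val = z → q - (z : ZMod w) = p := by
    intro p q hh
    have : q - p = (z : ZMod w) := by rw [← hh, ZMod.natCast_zmod_val]
    rw [← this]; ring
  cases s <;> cases t <;> simp only [ne_eq, not_true_eq_false, reduceCtorEq] at h
  · have h2 := key p q (by simpa [dd] using hd)
    simp only [isP, sg, if_true, Bool.true_eq_false, if_false, sub_zero, h2]
  · have h2 := key q p (by simpa [dd] using hd)
    simp only [isP, sg, if_true, Bool.true_eq_false, if_false, sub_zero, h2]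

theorem sum_succ {v : ℕ} [NeZero v] (f : ZMod (v + 1) → ℤ) :
    ∑ y : ZMod (v + 1), f y = f 0 + ∑ a : ZMod v, f ((a.val + 1 : ℕ) : ZMod (v + 1)) := by
  obtain ⟨n, rfl⟩ : ∃ n, v = n + 1 := ⟨v - 1, by have := NeZero.ne v; omega⟩
  have h := Fin.sum_univ_succ (n := n + 1) (f : Fin (n + 1 + 1) → ℤ)
  refine h.trans ?_
  congr 1
  refine Finset.sum_congr rfl fun a _ => ?_
  congr 1
  have : ((a.succ : Fin (n + 2)) : ZMod (n + 2)) = (((a.succ : Fin (n + 2)).val : ℕ) : ZMod (n + 2)) :=
    (ZMod.natCast_zmod_val (n := n + 2) (a.succ)).symm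
  exact this

section
variable (v z D : ℕ)

/-- vertices -/
abbrev VV : Type := Bool × (ZMod v ⊕ ZMod (v + 1))

/-- blue matrix -/
def be : VV v → VV v → ℤ
  | (s, Sum.inl p), (t, Sum.inl q) => if s = t then ne0 (p - q).val else eqz z (dd s p q)
  | (s, Sum.inr p), (t, Sum.inr q) =>
    if s = t then ne0 (p - q).val else if isP z D (v + 1) s p then eqz z (dd s p q) else 0
  | (s, Sum.inl a), (t, Sum.inr c) =>
    if s = t then thr D (c - sg z (v + 1) s - ((a.val + 1 : ℕ) : ZMod (v + 1))).val else 0
  | (s, Sum.inr c), (t, Sum.inl a) =>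
    if s = t then thr D (c - sg z (v + 1) s - ((a.val + 1 : ℕ) : ZMod (v + 1))).val else 0

/-- non-adjacency matrix -/
def ze : VV v → VV v → ℤ
  | (s, Sum.inl p), (t, Sum.inl q) => if s = t then 0 else thr z (dd s p q)
  | (s, Sum.inr p), (t, Sum.inr q) => if s = t then 0 else thr z (dd s p q)
  | (_, Sum.inl _), (_, Sum.inr _) => 0
  | (_, Sum.inr _), (_, Sum.inl _) => 0

theorem ne0_01 (i : ℕ) : ne0 i = 0 ∨ ne0 i = 1 := by unfold ne0; split_ifs <;> simp
theorem eqz_01 (i : ℕ) : eqz z i = 0 ∨ eqz z i = 1 := by unfold eqz; split_ifs <;> simp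
theorem thr_01 (M i : ℕ) : thr M i = 0 ∨ thr M i = 1 := by unfold thr; split_ifs <;> simp
theorem eqz_thr (i : ℕ) : eqz z i * thr z i = 0 := by
  unfold eqz thr
  by_cases h : i = z
  · simp [h]
  · simp [h]

theorem ne0_comm {N : ℕ} (p q : ZMod N) : ne0 (p - q).val = ne0 (q - p).val := by
  unfold ne0
  have : (p - q).val = 0 ↔ (q - p).val = 0 := by
    rw [ZMod.val_eq_zero, ZMod.val_eq_zero, sub_eq_zero, sub_eq_zero, eq_comm]
  simp only [this]

theorem be01 (x y : VV v) : be v z D x y = 0 ∨ be v z D x y = 1 := by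
  rcases x with ⟨s, p | p⟩ <;> rcases y with ⟨t, q | q⟩ <;> simp only [be] <;> split_ifs <;>
    first | exact ne0_01 _ | exact eqz_01 _ _ | exact thr_01 _ _ | simp

theorem ze01 (x y : VV v) : ze v z x y = 0 ∨ ze v z x y = 1 := by
  rcases x with ⟨s, p | p⟩ <;> rcases y with ⟨t, q | q⟩ <;> simp only [ze]
  · split_ifs
    · simp
    · exact thr_01 _ _
  · simp
  · simp
  · split_ifs
    · simp
    · exact thr_01 _ _

theorem be_symm [NeZero v] (x y : VV v) : be v z D x y = be v z D y x := by
  rcases x with ⟨s, p | p⟩ <;> rcases y with ⟨t, q | q⟩ <;> simp only [be]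
  · by_cases h : s = t
    · rw [if_pos h, if_pos h.symm, ne0_comm]
    · rw [if_neg h, if_neg (Ne.symm h), dd_swap h]
  · by_cases h : s = t
    · subst h; rfl
    · rw [if_neg h, if_neg (Ne.symm h)]
  · by_cases h : s = t
    · subst h; rfl
    · rw [if_neg h, if_neg (Ne.symm h)]
  · by_cases h : s = t
    · rw [if_pos h, if_pos h.symm, ne0_comm]
    · rw [if_neg h, if_neg (Ne.symm h), dd_swap h]
      by_cases h2 : dd t q p = z
      · have h3 : dd s p q = z := by rw [dd_swap h]; exact h2
        have h4 := isP_swap (D := D) h p q h3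
        by_cases h5 : isP z D (v + 1) s p
        · rw [if_pos h5, if_pos (h4.1 h5)]
        · rw [if_neg h5, if_neg (fun h6 => h5 (h4.2 h6))]
      · have h3 : eqz z (dd t q p) = 0 := by unfold eqz; rw [if_neg h2]
        rw [h3]
        simp

theorem ze_symm (x y : VV v) : ze v z x y = ze v z y x := by
  rcases x with ⟨s, p | p⟩ <;> rcases y with ⟨t, q | q⟩ <;> simp only [ze]
  · by_cases h : s = t
    · rw [if_pos h, if_pos h.symm]
    · rw [if_neg h, if_neg (Ne.symm h), dd_swap h]
  · by_cases h : s = t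
    · rw [if_pos h, if_pos h.symm]
    · rw [if_neg h, if_neg (Ne.symm h), dd_swap h]

theorem be_diag (x : VV v) : be v z D x x = 0 := by
  rcases x with ⟨s, p | p⟩ <;> simp [be, ne0]

theorem ze_diag (x : VV v) : ze v z x x = 0 := by
  rcases x with ⟨s, p | p⟩ <;> simp [ze]

theorem dis (x y : VV v) : be v z D x y * ze v z x y = 0 := by
  rcases x with ⟨s, p | p⟩ <;> rcases y with ⟨t, q | q⟩ <;> simp only [be, ze, mul_zero] <;>
    split_ifs <;> first | exact eqz_thr _ _ | simp

theorem clique (u x y : VV v) (hxy : x ≠ y) (h1 : ze v z u x = 1) (h2 : ze v z u y = 1) :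
    be v z D x y = 1 := by
  have hv : ∀ {N : ℕ} (p q : ZMod N), p ≠ q → ne0 (p - q).val = 1 := by
    intro N p q h
    unfold ne0
    rw [if_neg]
    intro h2
    rw [ZMod.val_eq_zero, sub_eq_zero] at h2
    exact h h2
  rcases u with ⟨s, p | p⟩ <;> rcases x with ⟨t, q | q⟩ <;> rcases y with ⟨t', q' | q'⟩ <;>
    simp only [ze, zero_ne_one] at h1 h2
  · by_cases h : s = t
    · rw [if_pos h] at h1; exact absurd h1 (by norm_num)
    · by_cases h' : s = t'
      · rw [if_pos h'] at h2; exact absurd h2 (by norm_num)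
      · have : t = t' := by cases s <;> cases t <;> cases t' <;> simp at h h' ⊢
        subst this
        simp only [be, if_true]
        exact hv q q' (fun h => hxy (by rw [h]))
  · by_cases h : s = t
    · rw [if_pos h] at h1; exact absurd h1 (by norm_num)
    · by_cases h' : s = t'
      · rw [if_pos h'] at h2; exact absurd h2 (by norm_num)
      · have : t = t' := by cases s <;> cases t <;> cases t' <;> simp at h h' ⊢
        subst this
        simp only [be, if_true]
        exact hv q q' (fun h => hxy (by rw [h]))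

theorem deg_ze [NeZero v] (hz : z ≤ v) (x : VV v) : ∑ y, ze v z x y = z := by
  rcases x with ⟨s, p | p⟩
  · rw [Fintype.sum_prod_type, Fintype.sum_bool, Fintype.sum_sum_type, Fintype.sum_sum_type]
    have e1 := sum_dd s p (thr z)
    rw [sum_thr _ _ hz] at e1
    cases s <;> simp only [ze, if_true, Finset.sum_const_zero, reduceCtorEq, if_false, e1] <;> simp
  · rw [Fintype.sum_prod_type, Fintype.sum_bool, Fintype.sum_sum_type, Fintype.sum_sum_type]
    have e1 := sum_dd s p (thr z)
    rw [sum_thr _ _ (by omega)] at e1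
    cases s <;> simp only [ze, if_true, Finset.sum_const_zero, reduceCtorEq, if_false, e1] <;> simp

theorem deg_be [NeZero v] (hz : z < v) (hD : D ≤ v + 1) (x : VV v) :
    ∑ y, be v z D x y = v + D := by
  have hv : 0 < v := by omega
  rcases x with ⟨s, p | p⟩
  · rw [Fintype.sum_prod_type, Fintype.sum_bool, Fintype.sum_sum_type, Fintype.sum_sum_type]
    have e1 := sum_dd s p (eqz z)
    rw [sum_eqz _ _ hz] at e1
    have e2 := zsum_right (fun i => ne0 i) p
    have e2' : ∑ i ∈ range v, ne0 i = v - 1 := sum_ne0 v hv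
    rw [e2'] at e2
    have e3 := zsum_left (thr D) (sg z (v + 1) s + ((p.val + 1 : ℕ) : ZMod (v + 1)))
    rw [sum_thr _ _ hD] at e3
    simp_rw [← sub_sub] at e3
    cases s <;> simp only [be, if_true, Finset.sum_const_zero, reduceCtorEq, if_false, e1, e2, e3] <;>
      ring
  · rw [Fintype.sum_prod_type, Fintype.sum_bool, Fintype.sum_sum_type, Fintype.sum_sum_type]
    have e1 := sum_dd s p (eqz z)
    rw [sum_eqz _ _ (by omega)] at e1
    have e2 := zsum_right (fun i => ne0 i) p
    have e2' : ∑ i ∈ range (v + 1), ne0 i = ((v + 1 : ℕ) : ℤ) - 1 := sum_ne0 (v + 1) (by omega)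
    rw [e2'] at e2
    have e3 := zsum_right (thr D) (p - sg z (v + 1) s)
    rw [sum_thr _ _ hD, sum_succ] at e3
    have e4 : thr D (p - sg z (v + 1) s - 0).val = if isP z D (v + 1) s p then 1 else 0 := by
      rw [sub_zero]
      by_cases h : isP z D (v + 1) s p
      · rw [if_pos h]
        unfold thr
        rw [if_pos]
        exact h
      · rw [if_neg h]
        unfold thr
        rw [if_neg]
        exact h
    rw [e4] at e3
    have e5 : ∑ q : ZMod (v + 1), (if isP z D (v + 1) s p then eqz z (dd s p q) else 0) =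
        if isP z D (v + 1) s p then 1 else 0 := by
      split_ifs
      · exact e1
      · simp
    cases s <;> simp only [be, if_true, Finset.sum_const_zero, reduceCtorEq, if_false, e2, e5] <;>
      push_cast <;> push_cast at e3 <;> linarith

end

end Two

open Two in
theorem two_constr_proof (b r z v : ℕ) (hb : 3 ≤ b) (hbr : b < r)
    (hn : b + r + 1 + z = 4 * v + 2) (hzv : z + 1 ≤ v)
    (hi : 2 + ((r : ℤ) - b) * ((4 * (v : ℤ) + 2) - 2 * z) ≤ z * (z - 1)) :
    HasFlip b r (4 * v + 2) := by
  have : NeZero v := ⟨by omega⟩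
  have hcard : Fintype.card (VV v) = 4 * v + 2 := by
    rw [Fintype.card_prod, Fintype.card_sum, ZMod.card, ZMod.card, Fintype.card_bool]; ring
  have hs : ((r : ℤ) - b) * (4 * v + 2 - 2 * z) ≤ z * z := by nlinarith
  have hvb : v ≤ b := by
    by_contra hcon
    push Not at hcon
    have h1 : (b : ℤ) + 1 ≤ v := by exact_mod_cast hcon
    have h2 : (b : ℤ) + r + 1 + z = 4 * v + 2 := by exact_mod_cast hn
    have h3 : (z : ℤ) + 1 ≤ v := by exact_mod_cast hzv
    have h4 : (3 : ℤ) ≤ b := by exact_mod_cast hb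
    -- r - b >= 2 v + 2 - z + ...
    have h5 : (r : ℤ) - b = 4 * v + 1 - z - 2 * b := by linarith
    have h6 : (2 : ℤ) * v + 3 - z ≤ (r : ℤ) - b := by linarith
    nlinarith
  obtain ⟨D, hD⟩ : ∃ D, b = v + D := ⟨b - v, by omega⟩
  have hDv : D ≤ v + 1 := by omega
  obtain ⟨ρ, hρ⟩ := core_of_compl (β := be v z D) (ζ := ze v z) (b := (b : ℤ)) (r := (r : ℤ))
    (z := (z : ℤ)) (be01 v z D) (ze01 v z) (be_symm v z D) (ze_symm v z) (be_diag v z D)
    (ze_diag v z) (dis v z D)
    (fun x => by rw [deg_be v z D (by omega) hDv x, hD]; push_cast; ring)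
    (fun x => deg_ze v z (by omega) x)
    (by rw [hcard]; exact_mod_cast hn.symm)
    (fun u x y hxy h1 h2 => clique v z D u x y hxy h1 h2)
    (by rw [hcard]; push_cast; exact hi)
  have h := hasFlip_of_core hρ
  rwa [hcard] at h

end Pool.Agent.Flip
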