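import Pool.Agent.Lib_helper89.FlipW1

set_option autoImplicit false

namespace Pool.Agent.Flip

open Finset BigOperators

namespace Upper

/-- position of a group -/
def ord {k : ℕ} : Option (ZMod (2 * k + 1)) → ℕ
  | none => 2 * k + 1
  | some a => a.val

lemma ord_inj {k : ℕ} {g g' : Option (ZMod (2 * k + 1))} (h : ord g = ord g') : g = g' := by
  cases g with
  | none =>
    cases g' with
    | none => rfl
    | some b =>
      exfalso
      have := ZMod.val_lt b
      simp only [ord] at h
      omega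
  | some a =>
    cases g' with
    | none =>
      exfalso
      have := ZMod.val_lt a
      simp only [ord] at h
      omega
    | some b =>
      simp only [ord] at h
      rw [ZMod.val_injective _ h]

/-- the colouring -/
def col {k : ℕ} : Option (ZMod (2 * k + 1)) → Option (ZMod (2 * k + 1)) → ZMod (2 * k + 1)
  | some a, some b => a + b
  | some a, none => 2 * a
  | none, some b => 2 * b
  | none, none => 0

lemma col_comm {k : ℕ} (g g' : Option (ZMod (2 * k + 1))) : col g g' = col g' g := by
  cases g <;> cases g' <;> simp [col, add_comm]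

/-- inverse of the colouring -/
def inv {k : ℕ} : Option (ZMod (2 * k + 1)) → ZMod (2 * k + 1) → Option (ZMod (2 * k + 1))
  | some a, c => if c = 2 * a then none else some (c - a)
  | none, c => some (((k : ZMod (2 * k + 1)) + 1) * c)

lemma two_half {k : ℕ} (c : ZMod (2 * k + 1)) : 2 * (((k : ZMod (2 * k + 1)) + 1) * c) = c := by
  have h : ((2 * k + 1 : ℕ) : ZMod (2 * k + 1)) = 0 := ZMod.natCast_self _
  push_cast at h
  linear_combination c * h

lemma inv_col {k : ℕ} {g g' : Option (ZMod (2 * k + 1))} (h : g' ≠ g) :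
    inv g (col g g') = g' := by
  cases g with
  | none =>
    cases g' with
    | none => exact absurd rfl h
    | some b =>
      simp only [col, inv]
      congr 1
      have := two_half b
      linear_combination this
  | some a =>
    cases g' with
    | none => simp [col, inv]
    | some b =>
      have hc : col (some a) (some b) = a + b := rfl
      have hi : inv (some a) (a + b) = if a + b = 2 * a then none else some (a + b - a) := rfl
      rw [hc, hi, if_neg]
      · congr 1
        ring
      · intro h2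
        apply h
        have : b = a := by linear_combination h2
        rw [this]

lemma inv_ne {k : ℕ} (g : Option (ZMod (2 * k + 1))) (c : ZMod (2 * k + 1)) : inv g c ≠ g := by
  cases g with
  | none => simp [inv]
  | some a =>
    simp only [inv]
    split_ifs with h
    · simp
    · intro h2
      apply h
      have := Option.some_injective _ h2
      linear_combination this

lemma col_inv {k : ℕ} (g : Option (ZMod (2 * k + 1))) (c : ZMod (2 * k + 1)) :
    col g (inv g c) = c := by
  cases g with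
  | none =>
    simp only [inv, col]
    exact two_half c
  | some a =>
    simp only [inv]
    split_ifs with h
    · simp only [col]
      exact h.symm
    · simp only [col]
      ring

/-- vertices: level, group, index -/
abbrev VV (q k m : ℕ) := ZMod (q + 1) × Option (ZMod (2 * k + 1)) × ZMod m

variable {q k m : ℕ}

/-- possible edges between different groups -/
def W (x y : VV q k m) : Prop :=
  (ord x.2.1 < ord y.2.1 ∧ y.1 = x.1 + 1) ∨ (ord y.2.1 < ord x.2.1 ∧ x.1 = y.1 + 1)

instance (x y : VV q k m) : Decidable (W x y) := by unfold W; infer_instance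

lemma W_symm {x y : VV q k m} : W x y ↔ W y x := by
  unfold W
  exact or_comm

/-- difference of the indices -/
def tt (x y : VV q k m) : ZMod m :=
  if ord x.2.1 < ord y.2.1 then y.2.2 - x.2.2 else x.2.2 - y.2.2

lemma tt_symm {x y : VV q k m} (h : W x y) : tt x y = tt y x := by
  unfold tt
  rcases h with ⟨h, _⟩ | ⟨h, _⟩
  · rw [if_pos h, if_neg (by omega)]
  · rw [if_neg (by omega), if_pos h]

/-- index of an edge -/
def idx (x y : VV q k m) : ℕ := (tt x y).val + m * (col x.2.1 y.2.1).val

lemma idx_symm {x y : VV q k m} (h : W x y) : idx x y = idx y x := by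
  unfold idx
  rw [tt_symm h, col_comm]

/-- the vertex joined to `x` with a given index -/
def nb (x : VV q k m) (p : ZMod (2 * k + 1) × ZMod m) : VV q k m :=
  if ord x.2.1 < ord (inv x.2.1 p.1) then (x.1 + 1, inv x.2.1 p.1, x.2.2 + p.2)
  else (x.1 - 1, inv x.2.1 p.1, x.2.2 - p.2)

lemma nb_grp (x : VV q k m) (p : ZMod (2 * k + 1) × ZMod m) : (nb x p).2.1 = inv x.2.1 p.1 := by
  unfold nb
  split_ifs <;> rfl

lemma W_nb (x : VV q k m) (p : ZMod (2 * k + 1) × ZMod m) : W x (nb x p) := by
  have hne : ord x.2.1 ≠ ord (inv x.2.1 p.1) := fun h => inv_ne x.2.1 p.1 (ord_inj h).symm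
  unfold W
  rw [nb_grp]
  by_cases h : ord x.2.1 < ord (inv x.2.1 p.1)
  · left
    refine ⟨h, ?_⟩
    unfold nb
    rw [if_pos h]
  · right
    refine ⟨by omega, ?_⟩
    unfold nb
    rw [if_neg h]
    simp

lemma tt_nb (x : VV q k m) (p : ZMod (2 * k + 1) × ZMod m) : tt x (nb x p) = p.2 := by
  unfold tt
  rw [nb_grp]
  by_cases h : ord x.2.1 < ord (inv x.2.1 p.1)
  · rw [if_pos h]
    unfold nb
    rw [if_pos h]
    simp
  · rw [if_neg h]
    unfold nb
    rw [if_neg h]
    simp

lemma col_nb (x : VV q k m) (p : ZMod (2 * k + 1) × ZMod m) :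
    col x.2.1 (nb x p).2.1 = p.1 := by
  rw [nb_grp, col_inv]

lemma nb_of_W {x y : VV q k m} (h : W x y) : nb x (col x.2.1 y.2.1, tt x y) = y := by
  obtain ⟨a, g, i⟩ := x
  obtain ⟨a', g', i'⟩ := y
  have hne : g' ≠ g := by
    rintro rfl
    rcases h with ⟨h, _⟩ | ⟨h, _⟩ <;> exact absurd h (lt_irrefl _)
  unfold nb tt
  simp only [inv_col hne]
  rcases h with ⟨h, h2⟩ | ⟨h, h2⟩
  · simp only at h h2
    rw [if_pos h, if_pos h, h2]
    simp
  · simp only at h h2
    have h3 : ¬ ord g < ord g' := by omega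
    rw [if_neg h3, if_neg h3, h2]
    simp

variable [NeZero m]

/-- sum over the possible edges at `x` -/
lemma sum_W (x : VV q k m) (F : ℕ → ℤ) :
    ∑ y, (if W x y then F (idx x y) else 0) = ∑ n ∈ range (m * (2 * k + 1)), F n := by
  have h1 : ∑ y, (if W x y then F (idx x y) else 0) =
      ∑ p : ZMod (2 * k + 1) × ZMod m, F (p.2.val + m * p.1.val) := by
    rw [← Finset.sum_filter]
    refine Finset.sum_nbij' (fun y => (col x.2.1 y.2.1, tt x y)) (fun p => nb x p) ?_ ?_ ?_ ?_ ?_
    · intro y _
      exact Finset.mem_univ _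
    · intro p _
      rw [Finset.mem_filter]
      exact ⟨Finset.mem_univ _, W_nb x p⟩
    · intro y hy
      exact nb_of_W (Finset.mem_filter.1 hy).2
    · intro p _
      simp only [col_nb, tt_nb]
    · intro y _
      rfl
  rw [h1]
  have h2 : ∑ p : ZMod (2 * k + 1) × ZMod m, F (p.2.val + m * p.1.val) =
      ∑ n : Fin (m * (2 * k + 1)), F n := by
    have hm : 0 < m := Nat.pos_of_ne_zero (NeZero.ne m)
    refine Finset.sum_bij' (fun p _ => (⟨p.2.val + m * p.1.val, ?_⟩ : Fin (m * (2 * k + 1))))
      (fun n _ => (((n.val / m : ℕ) : ZMod (2 * k + 1)), ((n.val % m : ℕ) : ZMod m)))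
      ?_ ?_ ?_ ?_ ?_
    · have h3 := ZMod.val_lt p.1
      have h4 := ZMod.val_lt p.2
      calc p.2.val + m * p.1.val < m + m * p.1.val := by omega
        _ = m * (p.1.val + 1) := by ring
        _ ≤ m * (2 * k + 1) := Nat.mul_le_mul_left _ h3
    · intro p _
      exact Finset.mem_univ _
    · intro p _
      exact Finset.mem_univ _
    · intro p _
      have h3 := ZMod.val_lt p.1
      have h4 := ZMod.val_lt p.2
      simp only
      rw [Nat.add_mul_div_left _ _ hm, Nat.div_eq_of_lt h4, zero_add, Nat.add_mul_mod_self_left,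
        Nat.mod_eq_of_lt h4, ZMod.natCast_zmod_val, ZMod.natCast_zmod_val]
    · intro n _
      have h3 : n.val / m < 2 * k + 1 := by
        rw [Nat.div_lt_iff_lt_mul hm]
        exact lt_of_lt_of_eq n.isLt (mul_comm _ _)
      ext
      simp only
      rw [ZMod.val_natCast_of_lt h3, ZMod.val_natCast_of_lt (Nat.mod_lt _ hm)]
      exact Nat.mod_add_div _ _
    · intro p _
      rfl
  rw [h2, Finset.sum_range]

lemma sum_W_lt (x : VV q k m) (a : ℕ) (ha : a ≤ m * (2 * k + 1)) :
    ∑ y, (if W x y ∧ idx x y < a then (1 : ℤ) else 0) = a := by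
  have h1 := sum_W x (fun n => if n < a then (1 : ℤ) else 0)
  have h2 : ∀ y, (if W x y ∧ idx x y < a then (1 : ℤ) else 0) =
      if W x y then (if idx x y < a then (1 : ℤ) else 0) else 0 := by
    intro y
    rw [ite_and]
  rw [Finset.sum_congr rfl (fun y _ => h2 y), h1, ← Finset.sum_filter]
  have h3 : (range (m * (2 * k + 1))).filter (fun n => n < a) = range a := by
    ext n
    simp only [Finset.mem_filter, Finset.mem_range]
    omega
  rw [h3]
  simp

/-- same cluster, different level -/
def Cl (x y : VV q k m) : Prop := x.2.1 = y.2.1 ∧ x.1 ≠ y.1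

instance (x y : VV q k m) : Decidable (Cl x y) := by unfold Cl; infer_instance

lemma Cl_symm {x y : VV q k m} : Cl x y ↔ Cl y x := by
  unfold Cl
  constructor
  · rintro ⟨h1, h2⟩; exact ⟨h1.symm, h2.symm⟩
  · rintro ⟨h1, h2⟩; exact ⟨h1.symm, h2.symm⟩

lemma not_Cl_of_W {x y : VV q k m} (h : W x y) : ¬ Cl x y := by
  rintro ⟨h1, _⟩
  rcases h with ⟨h, _⟩ | ⟨h, _⟩ <;> rw [h1] at h <;> exact absurd h (lt_irrefl _)

/-- no triangle contains an edge between different groups -/
lemma no_tri (hq : 1 ≤ q) {x y z : VV q k m} (h1 : W x y) (h2 : Cl x z ∨ W x z)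
    (h3 : Cl y z ∨ W y z) : False := by
  have hone : (1 : ZMod (q + 1)) ≠ 0 := by
    haveI : Fact (1 < q + 1) := ⟨by omega⟩
    exact one_ne_zero
  obtain ⟨a, g, i⟩ := x
  obtain ⟨b, g', i'⟩ := y
  obtain ⟨c, g'', i''⟩ := z
  unfold Cl W at *
  simp only at h1 h2 h3
  rcases h2 with ⟨e2, n2⟩ | h2
  · subst e2
    rcases h3 with ⟨e3, n3⟩ | h3
    · subst e3
      rcases h1 with ⟨h, _⟩ | ⟨h, _⟩ <;> exact absurd h (lt_irrefl _)
    · rcases h1 with ⟨h, e⟩ | ⟨h, e⟩ <;> rcases h3 with ⟨h', e'⟩ | ⟨h', e'⟩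
      · omega
      · apply n2
        linear_combination e' - e
      · apply n2
        linear_combination e - e'
      · omega
  · rcases h3 with ⟨e3, n3⟩ | h3
    · subst e3
      rcases h1 with ⟨h, e⟩ | ⟨h, e⟩ <;> rcases h2 with ⟨h', e'⟩ | ⟨h', e'⟩
      · apply n3
        linear_combination e - e'
      · omega
      · omega
      · apply n3
        linear_combination e' - e
    · rcases h1 with ⟨h, e⟩ | ⟨h, e⟩ <;> rcases h2 with ⟨h', e'⟩ | ⟨h', e'⟩ <;>
        rcases h3 with ⟨h'', e''⟩ | ⟨h'', e''⟩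
      all_goals first
        | omega
        | (apply hone; linear_combination e' - e - e'')
        | (apply hone; linear_combination e'' - e - e')
        | (apply hone; linear_combination e - e' - e'')

/-- blue matrix -/
def be (a₀ : ℕ) (x y : VV q k m) : ℤ := if Cl x y ∨ (W x y ∧ idx x y < a₀) then 1 else 0

/-- red matrix -/
def re (a₀ r : ℕ) (x y : VV q k m) : ℤ :=
  if W x y ∧ a₀ ≤ idx x y ∧ idx x y < a₀ + r then 1 else 0

lemma sum_Cl (x : VV q k m) : ∑ y, (if Cl x y then (1 : ℤ) else 0) = q * m := by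
  obtain ⟨a, g, i⟩ := x
  rw [Fintype.sum_prod_type]
  have h1 : ∀ b : ZMod (q + 1), ∑ p : Option (ZMod (2 * k + 1)) × ZMod m,
      (if Cl (a, g, i) (b, p) then (1 : ℤ) else 0) = if a ≠ b then (m : ℤ) else 0 := by
    intro b
    rw [Fintype.sum_prod_type]
    have h2 : ∀ g' : Option (ZMod (2 * k + 1)), ∑ j : ZMod m,
        (if Cl (a, g, i) (b, g', j) then (1 : ℤ) else 0) =
        if g = g' then (if a ≠ b then (m : ℤ) else 0) else 0 := by
      intro g'
      unfold Cl
      by_cases h3 : g = g'
      · by_cases h4 : a ≠ b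
        · simp [h3, h4, ZMod.card]
        · simp [h3, h4]
      · simp [h3]
    rw [Finset.sum_congr rfl (fun g' _ => h2 g'), Finset.sum_ite_eq, if_pos (Finset.mem_univ _)]
  rw [Finset.sum_congr rfl (fun b _ => h1 b), ← Finset.sum_filter]
  rw [Finset.sum_const, Finset.filter_ne, Finset.card_erase_of_mem (Finset.mem_univ _),
    Finset.card_univ, ZMod.card, nsmul_eq_mul]
  simp

lemma sum_Cl_two {x z : VV q k m} (h : Cl x z) :
    ∑ y, (if Cl x y then (1 : ℤ) else 0) * (if Cl z y then (1 : ℤ) else 0) = (q - 1) * m := by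
  obtain ⟨a, g, i⟩ := x
  obtain ⟨c, g', i'⟩ := z
  obtain ⟨hg, hac⟩ := h
  simp only at hg hac
  subst hg
  rw [Fintype.sum_prod_type]
  have h1 : ∀ b : ZMod (q + 1), ∑ p : Option (ZMod (2 * k + 1)) × ZMod m,
      (if Cl (a, g, i) (b, p) then (1 : ℤ) else 0) * (if Cl (c, g, i') (b, p) then (1 : ℤ) else 0)
      = if a ≠ b ∧ c ≠ b then (m : ℤ) else 0 := by
    intro b
    rw [Fintype.sum_prod_type]
    have h2 : ∀ g' : Option (ZMod (2 * k + 1)), ∑ j : ZMod m,
        (if Cl (a, g, i) (b, g', j) then (1 : ℤ) else 0) *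
          (if Cl (c, g, i') (b, g', j) then (1 : ℤ) else 0) =
        if g = g' then (if a ≠ b ∧ c ≠ b then (m : ℤ) else 0) else 0 := by
      intro g'
      unfold Cl
      by_cases h3 : g = g'
      · by_cases h4 : a ≠ b
        · by_cases h5 : c ≠ b
          · simp [h3, h4, h5, ZMod.card]
          · simp [h3, h5]
        · simp [h3, h4]
      · simp [h3]
    rw [Finset.sum_congr rfl (fun g' _ => h2 g'), Finset.sum_ite_eq, if_pos (Finset.mem_univ _)]
  rw [Finset.sum_congr rfl (fun b _ => h1 b), ← Finset.sum_filter]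
  have h5 : (Finset.univ : Finset (ZMod (q + 1))).filter (fun b => a ≠ b ∧ c ≠ b) =
      (Finset.univ.erase a).erase c := by
    ext b
    simp only [Finset.mem_filter, Finset.mem_univ, true_and, Finset.mem_erase, and_true]
    constructor
    · rintro ⟨h6, h7⟩; exact ⟨h7.symm, h6.symm⟩
    · rintro ⟨h6, h7⟩; exact ⟨h7.symm, h6.symm⟩
  rw [h5, Finset.sum_const, Finset.card_erase_of_mem, Finset.card_erase_of_mem (Finset.mem_univ _),
    Finset.card_univ, ZMod.card, nsmul_eq_mul]
  · have hq : 1 ≤ q := by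
      by_contra hq
      have : q = 0 := by omega
      subst this
      exact hac (Subsingleton.elim (α := ZMod 1) _ _)
    have : q + 1 - 1 - 1 = q - 1 := by omega
    rw [this, Nat.cast_sub hq]
    simp
  · simp only [Finset.mem_erase, Finset.mem_univ, and_true]
    exact hac.symm

lemma adj_cases (a₀ r : ℕ) (x y : VV q k m) :
    (be a₀ x y = 1 ∧ re a₀ r x y = 0 ∧ (Cl x y ∨ W x y)) ∨
    (be a₀ x y = 0 ∧ re a₀ r x y = 1 ∧ (Cl x y ∨ W x y) ∧ ¬ Cl x y) ∨
    (be a₀ x y = 0 ∧ re a₀ r x y = 0 ∧ ¬ Cl x y) := by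
  unfold be re
  by_cases h1 : Cl x y
  · left
    have h2 : ¬ W x y := fun h => not_Cl_of_W h h1
    simp [h1, h2]
  · by_cases h2 : W x y
    · by_cases h3 : idx x y < a₀
      · left
        simp [h1, h2, h3]
      · by_cases h4 : idx x y < a₀ + r
        · right; left
          have h5 : a₀ ≤ idx x y := by omega
          simp [h1, h2, h3, h4, h5]
        · right; right
          simp [h1, h2, h3, h4]
    · right; right
      simp [h1, h2]

end Upper

open Upper in
theorem upper_constr_proof (b r q m T : ℕ) (hq : 1 ≤ q) (hm : 1 ≤ m) (hT : Even T) (hT0 : 0 < T)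
    (h1 : q * m ≤ b) (h2 : b - q * m + r ≤ m * (T - 1))
    (h3 : 2 * (r + 1) ≤ 2 * b + q * (q - 1) * m ^ 2) : HasFlip b r ((q + 1) * m * T) := by
  obtain ⟨k, rfl⟩ : ∃ k, T = 2 * k + 2 := by
    obtain ⟨l, hl⟩ := hT
    exact ⟨l - 1, by omega⟩
  haveI : NeZero m := ⟨by omega⟩
  obtain ⟨a₀, rfl⟩ : ∃ a₀, b = q * m + a₀ := ⟨b - q * m, by omega⟩
  have hT1 : 2 * k + 2 - 1 = 2 * k + 1 := by omega
  have h2' : a₀ + r ≤ m * (2 * k + 1) := by
    rw [hT1] at h2
    have : q * m + a₀ - q * m = a₀ := by omega
    rw [this] at h2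
    exact h2
  have hcard : Fintype.card (VV q k m) = (q + 1) * m * (2 * k + 2) := by
    simp only [VV, Fintype.card_prod, ZMod.card, Fintype.card_option]
    ring
  rw [← hcard]
  haveI : Nonempty (VV q k m) := ⟨(0, none, 0)⟩
  refine hasFlip_of_core (β := be a₀) (ρ := re a₀ r) ?_
  refine ⟨⟨?_, ?_, ?_, ?_, ?_, ?_, ?_, ?_, ?_⟩, ?_⟩
  · intro x y
    unfold be
    split_ifs <;> simp
  · intro x y
    unfold re
    split_ifs <;> simp
  · intro x y
    unfold be
    congr 1
    rw [Cl_symm, W_symm]
    simp only [eq_iff_iff]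
    constructor
    · rintro (h | ⟨h, h'⟩)
      · exact Or.inl h
      · right; refine ⟨h, ?_⟩; rw [idx_symm h]; exact h'
    · rintro (h | ⟨h, h'⟩)
      · exact Or.inl h
      · right; refine ⟨h, ?_⟩; rw [← idx_symm h]; exact h'
  · intro x y
    unfold re
    congr 1
    rw [W_symm]
    simp only [eq_iff_iff]
    constructor
    · rintro ⟨h, h'⟩
      refine ⟨h, ?_⟩; rw [idx_symm h]; exact h'
    · rintro ⟨h, h'⟩
      refine ⟨h, ?_⟩; rw [← idx_symm h]; exact h'
  · intro x
    unfold be
    rw [if_neg]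
    rintro (⟨_, h⟩ | ⟨h, _⟩)
    · exact h rfl
    · rcases h with ⟨h, _⟩ | ⟨h, _⟩ <;> exact absurd h (lt_irrefl _)
  · intro x
    unfold re
    rw [if_neg]
    rintro ⟨h, _⟩
    rcases h with ⟨h, _⟩ | ⟨h, _⟩ <;> exact absurd h (lt_irrefl _)
  · intro x y
    rcases adj_cases a₀ r x y with ⟨e1, e2, _⟩ | ⟨e1, e2, _⟩ | ⟨e1, e2, _⟩ <;> simp [e1, e2]
  · intro x
    have e1 : ∀ y, be a₀ x y = (if Cl x y then (1 : ℤ) else 0) +
        (if W x y ∧ idx x y < a₀ then (1 : ℤ) else 0) := by
      intro y
      unfold be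
      by_cases h4 : Cl x y
      · have h5 : ¬ W x y := fun h => not_Cl_of_W h h4
        simp [h4, h5]
      · simp [h4]
    rw [Finset.sum_congr rfl (fun y _ => e1 y), Finset.sum_add_distrib, sum_Cl,
      sum_W_lt x a₀ (by omega)]
    push_cast
    ring
  · intro x
    have e1 : ∀ y, re a₀ r x y = (if W x y ∧ idx x y < a₀ + r then (1 : ℤ) else 0) -
        (if W x y ∧ idx x y < a₀ then (1 : ℤ) else 0) := by
      intro y
      unfold re
      by_cases h4 : W x y
      · by_cases h5 : idx x y < a₀
        · have h6 : idx x y < a₀ + r := by omega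
          have h7 : ¬ a₀ ≤ idx x y := by omega
          simp [h4, h5, h6, h7]
        · by_cases h6 : idx x y < a₀ + r
          · have h7 : a₀ ≤ idx x y := by omega
            simp [h4, h5, h6, h7]
          · simp [h4, h5, h6]
      · simp [h4]
    rw [Finset.sum_congr rfl (fun y _ => e1 y), Finset.sum_sub_distrib,
      sum_W_lt x (a₀ + r) h2', sum_W_lt x a₀ (by omega)]
    push_cast
    ring
  · intro v
    have e1 : ∀ x y, (be a₀ v x + re a₀ r v x) * (be a₀ v y + re a₀ r v y) *
        (be a₀ x y - re a₀ r x y) =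
        (if Cl v x then (1 : ℤ) else 0) * ((if Cl v y then (1 : ℤ) else 0) *
          (if Cl x y then (1 : ℤ) else 0)) := by
      intro x y
      by_cases h6 : Cl v x ∧ Cl v y ∧ Cl x y
      · obtain ⟨c1, c2, c3⟩ := h6
        rcases adj_cases a₀ r v x with ⟨p1, p2, _⟩ | ⟨_, _, _, p3⟩ | ⟨_, _, p3⟩
        · rcases adj_cases a₀ r v y with ⟨q1, q2, _⟩ | ⟨_, _, _, q3⟩ | ⟨_, _, q3⟩
          · rcases adj_cases a₀ r x y with ⟨s1, s2, _⟩ | ⟨_, _, _, s3⟩ | ⟨_, _, s3⟩
            · simp [p1, p2, q1, q2, s1, s2, c1, c2, c3]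
            · exact absurd c3 s3
            · exact absurd c3 s3
          · exact absurd c2 q3
          · exact absurd c2 q3
        · exact absurd c1 p3
        · exact absurd c1 p3
      · have hR : (if Cl v x then (1 : ℤ) else 0) * ((if Cl v y then (1 : ℤ) else 0) *
          (if Cl x y then (1 : ℤ) else 0)) = 0 := by
          by_cases c1 : Cl v x
          · by_cases c2 : Cl v y
            · by_cases c3 : Cl x y
              · exact absurd ⟨c1, c2, c3⟩ h6
              · simp [c3]
            · simp [c2]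
          · simp [c1]
        rw [hR]
        -- one of the three pairs is not adjacent
        have hA : ∀ x y : VV q k m, (Cl x y ∨ W x y) ∨ (be a₀ x y = 0 ∧ re a₀ r x y = 0) := by
          intro x y
          rcases adj_cases a₀ r x y with ⟨_, _, h⟩ | ⟨_, _, h, _⟩ | ⟨e1, e2, _⟩
          · exact Or.inl h
          · exact Or.inl h
          · exact Or.inr ⟨e1, e2⟩
        rcases hA v x with p | ⟨p1, p2⟩
        · rcases hA v y with q' | ⟨q1, q2⟩
          · rcases hA x y with s | ⟨s1, s2⟩
            · exfalso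
              rcases p with p | p
              · rcases q' with q' | q'
                · rcases s with s | s
                  · exact h6 ⟨p, q', s⟩
                  · exact no_tri hq s (Or.inl (Cl_symm.1 p)) (Or.inl (Cl_symm.1 q'))
                · exact no_tri hq q' (Or.inl p) (s.elim (fun h => Or.inl (Cl_symm.1 h))
                    (fun h => Or.inr (W_symm.1 h)))
              · exact no_tri hq p q' s
            · rw [s1, s2]; ring
          · rw [q1, q2]; ring
        · rw [p1, p2]; ring
    have e2 : ∑ x, ∑ y, (be a₀ v x + re a₀ r v x) * (be a₀ v y + re a₀ r v y) *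
        (be a₀ x y - re a₀ r x y) = (q * m) * ((q - 1) * m) := by
      rw [← sum_Cl v, Finset.sum_mul]
      apply Finset.sum_congr rfl
      intro x _
      rw [Finset.sum_congr rfl (fun y _ => e1 x y), ← Finset.mul_sum]
      by_cases h7 : Cl v x
      · rw [sum_Cl_two h7]
      · simp [h7]
    rw [e2]
    have h3' : (2 : ℤ) * (r + 1) ≤ 2 * (q * m + a₀) + q * (q - 1) * m ^ 2 := by
      have : ((q - 1 : ℕ) : ℤ) = (q : ℤ) - 1 := by
        rw [Nat.cast_sub hq]; simp
      rw [← this]
      exact_mod_cast h3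
    push_cast
    nlinarith [h3']

end Pool.Agent.Flip
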