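import Pool.Agent.Lib_helper89.FlipBridge

/-!
# Flip graphs: the construction with `(b+1)(r+1)` vertices
-/

namespace Pool.Agent.Flip

open Finset BigOperators

namespace UTop

variable (b r : ℕ)

/-- blue matrix -/
def bl (x y : ZMod (b + 1) × Fin (r + 1)) : ℤ := if x.2 = y.2 ∧ x.1 ≠ y.1 then 1 else 0

/-- red matrix -/
def rd (x y : ZMod (b + 1) × Fin (r + 1)) : ℤ :=
  if (x.2 < y.2 ∧ y.1 = x.1 + 1) ∨ (y.2 < x.2 ∧ x.1 = y.1 + 1) then 1 else 0

theorem tri (hb : 1 ≤ b) (v x y : ZMod (b + 1) × Fin (r + 1)) :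
    (bl b r v x + rd b r v x) * (bl b r v y + rd b r v y) * (bl b r x y - rd b r x y) =
      bl b r v x * bl b r v y * (if x = y then 0 else 1) := by
  have h1 : (1 : ZMod (b + 1)) ≠ 0 := by
    have : Fact (1 < b + 1) := ⟨by omega⟩
    exact one_ne_zero
  obtain ⟨a, g⟩ := v
  obtain ⟨c, g2⟩ := x
  obtain ⟨e, g3⟩ := y
  simp only [bl, rd, Prod.mk.injEq]
  rcases lt_trichotomy g g2 with h | h | h <;> rcases lt_trichotomy g g3 with h' | h' | h' <;>
    rcases lt_trichotomy g2 g3 with h'' | h'' | h'' <;> first
    | (exfalso; omega)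
    | grind

theorem pre (hb : 1 ≤ b) : Pre (bl b r) (rd b r) (b : ℤ) (r : ℤ) where
  β01 x y := by unfold bl; split_ifs <;> simp
  ρ01 x y := by unfold rd; split_ifs <;> simp
  βs x y := by unfold bl; simp only [eq_comm, ne_comm]
  ρs x y := by unfold rd; simp only [or_comm]
  βd x := by simp [bl]
  ρd x := by simp [rd]
  dis x y := by
    unfold bl rd
    by_cases h : x.2 = y.2
    · simp [h]
    · simp [h]
  degβ x := by
    obtain ⟨a, g⟩ := x
    rw [Fintype.sum_prod_type]
    have h1 : ∀ c : ZMod (b + 1), ∑ g', bl b r (a, g) (c, g') = 1 - if c = a then 1 else 0 := by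
      intro c
      have : ∀ g', bl b r (a, g) (c, g') = if g = g' then (1 - if c = a then 1 else 0) else 0 := by
        intro g'
        unfold bl
        by_cases h : g = g' <;> by_cases h2 : c = a <;> simp [h, h2, eq_comm, Ne.symm] <;> tauto
      simp_rw [this, Finset.sum_ite_eq, Finset.mem_univ, if_true]
    simp_rw [h1, Finset.sum_sub_distrib, Finset.sum_ite_eq', Finset.mem_univ, if_true]
    simp [ZMod.card]
  degρ x := by
    obtain ⟨a, g⟩ := x
    rw [Fintype.sum_prod_type_right]
    have h1 : ∀ g' : Fin (r + 1), ∑ c, rd b r (a, g) (c, g') = 1 - if g' = g then 1 else 0 := by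
      intro g'
      rcases lt_trichotomy g g' with h | h | h
      · have : ∀ c, rd b r (a, g) (c, g') = if c = a + 1 then 1 else 0 := by
          intro c
          have h' : ¬ g' < g := not_lt.2 h.le
          simp [rd, h, h']
        simp_rw [this, Finset.sum_ite_eq', Finset.mem_univ, if_true]
        simp [h.ne']
      · subst h
        simp [rd]
      · have : ∀ c, rd b r (a, g) (c, g') = if c = a - 1 then 1 else 0 := by
          intro c
          have h' : ¬ g < g' := not_lt.2 h.le
          simp only [rd, h, h', false_and, true_and, false_or]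
          refine if_congr ?_ rfl rfl
          constructor
          · intro h; rw [h]; ring
          · intro h; rw [h]; ring
        simp_rw [this, Finset.sum_ite_eq', Finset.mem_univ, if_true]
        simp [h.ne]
    simp_rw [h1, Finset.sum_sub_distrib, Finset.sum_ite_eq', Finset.mem_univ, if_true]
    simp

theorem core (hb : 1 ≤ b) (hr : 2 * r + 2 ≤ b * (b + 1)) :
    Core (bl b r) (rd b r) (b : ℤ) (r : ℤ) := by
  refine { toPre := pre b r hb, flip := fun v => ?_ }
  have h1 : ∑ x, ∑ y, (bl b r v x + rd b r v x) * (bl b r v y + rd b r v y) *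
      (bl b r x y - rd b r x y) = (b : ℤ) * b - b := by
    simp_rw [tri b r hb]
    have h2 : ∀ x y, bl b r v x * bl b r v y * (if x = y then (0 : ℤ) else 1) =
        bl b r v x * bl b r v y - if x = y then bl b r v x else 0 := by
      intro x y
      by_cases h : x = y
      · subst h
        rcases (pre b r hb).β01 v x with h3 | h3 <;> simp [h3]
      · simp [h]
    simp_rw [h2, Finset.sum_sub_distrib, ← Finset.mul_sum, Finset.sum_ite_eq, Finset.mem_univ,
      if_true, (pre b r hb).degβ, ← Finset.sum_mul, (pre b r hb).degβ]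
  rw [h1]
  have : (2 : ℤ) * r + 2 ≤ b * (b + 1) := by exact_mod_cast hr
  linarith

end UTop

theorem top_constr_proof (b r : ℕ) (hb : 1 ≤ b) (hr : 2 * r + 2 ≤ b * (b + 1)) :
    HasFlip b r ((b + 1) * (r + 1)) := by
  have h := hasFlip_of_core (UTop.core b r hb hr)
  rwa [Fintype.card_prod, ZMod.card, Fintype.card_fin] at h

end Pool.Agent.Flip
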