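import Pool.Agent.Lib_helper89.FlipBridge
import Pool.Agent.Lib_helper89.FlipLow
import Pool.Agent.Lib_helper41.FlipKEY

/-!
# Flip graphs: proved basic statements under their final names
-/

namespace Pool.Agent.Flip

open Finset BigOperators

theorem Core.key {V : Type} [Fintype V] {β ρ : V → V → ℤ} {b r : ℤ} (h : Core β ρ b r) :
    2 * (Fintype.card V : ℤ) * (r - b + 1) +
        ∑ v, ∑ x, ∑ y, ρ v x * ρ v y * (β x y + ρ x y)
      ≤ ∑ v, ∑ x, ∑ y, β v x * β v y * (β x y + ρ x y) := h.key_proof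

theorem core_of_clique {V : Type} [Fintype V] {β ρ : V → V → ℤ} {b r : ℤ}
    (h : Pre β ρ b r)
    (hc : ∀ v x y, x ≠ v → y ≠ v → x ≠ y → β v x + ρ v x = 0 → β v y + ρ v y = 0 → β x y = 1)
    (z : ℤ) (hz : (Fintype.card V : ℤ) = b + r + 1 + z)
    (hi : 2 + (r - b) * (Fintype.card V - 2 * z) ≤ z * (z - 1)) : Core β ρ b r :=
  core_of_clique_proof h hc z hz hi

/-- number of ordered `s`-cliques -/
noncomputable def cl {W : Type} (H : SimpleGraph W) (s : ℕ) : ℕ :=
  Nat.card {y : Fin s → W // ∀ i j, i ≠ j → H.Adj (y i) (y j)}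

end Pool.Agent.Flip
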