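import Pool.Agent.Lib_helper89.FlipW1
import Pool.Agent.Lib_helper89.FlipUPPER
import Pool.Agent.Lib_helper89.FlipEOF
import Pool.Agent.Lib_helper89.FlipCLQ
import Pool.Agent.Lib_helper89.FlipUTop
import Pool.Agent.Lib_helper41.FlipJ
import Pool.Agent.Lib_helper41.FlipTOP

/-!
# Flip graphs: proved statements under their final names
-/

namespace Pool.Agent.Flip

open Finset BigOperators

theorem upper_constr (b r q m T : ℕ) (hq : 1 ≤ q) (hm : 1 ≤ m) (hT : Even T) (hT0 : 0 < T)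
    (h1 : q * m ≤ b) (h2 : b - q * m + r ≤ m * (T - 1))
    (h3 : 2 * (r + 1) ≤ 2 * b + q * (q - 1) * m ^ 2) : HasFlip b r ((q + 1) * m * T) :=
  upper_constr_proof b r q m T hq hm hT hT0 h1 h2 h3

theorem Core.clq {V : Type} [Fintype V] [Nonempty V] {β ρ : V → V → ℤ} {b r : ℕ}
    (h : Core β ρ b r) (hb : 1 ≤ b) (q : ℕ) (hq : 2 ≤ q)
    (hE : ((q : ℤ) - 2) * (b : ℤ) ^ 2 < 2 * ((q : ℤ) - 1) * ((r : ℤ) - b + 1)) :
    2 * ((q - 1).factorial : ℤ) * (((q : ℤ) + 1) * r - Fintype.card V)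
      < (q : ℤ) * (q + 1) * ((q : ℤ) - 1) ^ (q - 2) * b :=
  h.clq_proof hb q hq hE

end Pool.Agent.Flip
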